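import Pool.Agent.V11273.SN.Main

set_option autoImplicit false

namespace Pool.Agent.V11273.SN

open MeasureTheory Filter Topology Set Complex Metric

variable {n : ℕ}

lemma ray_int2 (h : RHz) (k : ℕ) {z : ℂ} (hz0 : 0 ≤ z.re) (hz2 : 2 < z.im) :
    IntegrableOn (fun u : ℝ => Ph (k + 1) (z + u)) (Set.Ioi 0) := by
  rcases k with _ | k
  · obtain ⟨C, hC⟩ := Ph1_cls h
    exact ray_int (ψ := fun _ => (1:ℝ)) hC (fun u hu => ps_shift hz0 hu) hz0 hz2
  · obtain ⟨C, hC⟩ := Ph_cls h k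
    exact ray_int (ψ := fun _ => (1:ℝ)) hC (fun u hu => one_shift hu) hz0 hz2

lemma shift_bd (h : RHz) (k : ℕ) : ∃ C : ℝ, 0 < C ∧ ∀ t : ℝ, 6 ≤ t →
    ‖Ph (k + 3) (t * I) - Ph (k + 3) (((1 / t : ℝ) : ℂ) + t * I)‖ ≤ C := by
  obtain ⟨C, hC, h1⟩ := Ph_bd h k
  refine ⟨C, hC, fun t ht => ?_⟩
  have hre : (t * I : ℂ).re = 0 := by simp
  have him : (t * I : ℂ).im = t := by simp
  have h2 := Pr_shift (f := Ph (k + 2)) (z := t * I) (ray_int2 h (k + 1) (by rw [hre]) (by rw [him]; linarith))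
    (e := 1 / t) (by positivity)
  have h3 : Ph (k + 3) (t * I) - Ph (k + 3) (((1 / t : ℝ) : ℂ) + t * I) = ∫ u in (0:ℝ)..(1 / t), Ph (k + 2) (t * I + u) := by
    rw [← h2, add_comm (((1 / t : ℝ) : ℂ))]
    rfl
  rw [h3]
  have h4 := intervalIntegral.norm_integral_le_of_norm_le_const (a := (0:ℝ)) (b := 1 / t)
    (f := fun u : ℝ => Ph (k + 2) (t * I + u)) (C := C * Real.log t) fun u hu => by
      rw [Set.uIoc_of_le (by positivity)] at hu
      have := h1 (t * I + u) (by rw [add_re', hre]; linarith [hu.1]) (by rw [add_im', him]; linarith)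
      rwa [add_im', him] at this
  refine h4.trans ?_
  rw [sub_zero, abs_of_pos (by positivity)]
  have e2 : Real.log t * (1 / t) ≤ 1 := by
    rw [mul_one_div, div_le_one (by linarith)]
    exact (Real.log_le_sub_one_of_pos (by linarith)).trans (by linarith)
  calc C * Real.log t * (1 / t) = C * (Real.log t * (1 / t)) := by ring
    _ ≤ C * 1 := by gcongr
    _ = C := mul_one C

/-- the one-sided bound on the line -/
lemma one_sided_line (h : RHz) (hn : Even n) (hn0 : 0 < n) {α : ℝ} (hα0 : 0 < α) (hα1 : α < 1) (hB : bernoulliFun n α = 0)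
    {σ : ℝ} (hσ1 : σ = 1 ∨ σ = -1)
    (hσ : ∀ s ∈ Set.Icc (0:ℝ) 1, σ * bernoulliFun (n + 1) s ≤ σ * bernoulliFun (n + 1) (1 - α)) :
    ∃ C : ℝ, 0 < C ∧ ∀ t D : ℝ, ∀ N : ℕ, 6 ≤ t → 1 ≤ D → 1 ≤ N → Real.exp (2 * Real.pi * D) ≤ N → (N : ℝ) ≤ t →
      σ * (n.factorial * (I ^ n * Ph (n + 1) (t * I)).im) ≤
        (1 / 2 * Real.log t + C) * ((D ^ (n + 1))⁻¹ * (σ * bernoulliFun (n + 1) (1 - α) / (n + 1))) + C * Real.sqrt N := by
  obtain ⟨C1, hC1, h1⟩ := one_sided h hn hn0 hα0 hα1 hB hσ1 hσ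
  obtain ⟨k, rfl⟩ : ∃ k, n = k + 2 := ⟨n - 2, by obtain ⟨m, hm⟩ := hn; omega⟩
  obtain ⟨C2, hC2, h2⟩ := shift_bd h k
  refine ⟨C1 + (k + 2).factorial * C2, by positivity, fun t D N ht hD hN hNe hNt => ?_⟩
  have a1 := h1 t D N ht hD hN hNe hNt
  have a2 := h2 t ht
  have hN1 : (1:ℝ) ≤ N := by exact_mod_cast hN
  have hsN : 1 ≤ Real.sqrt N := Real.one_le_sqrt.2 hN1
  have hσa : |σ| = 1 := by rcases hσ1 with h | h <;> rw [h] <;> simp
  have hD0 : 0 < D := by linarith
  have a3 : σ * ((k + 2).factorial * (I ^ (k + 2) * Ph (k + 2 + 1) (t * I)).im) =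
      σ * ((k + 2).factorial * (I ^ (k + 2) * Ph (k + 2 + 1) (((1 / t : ℝ) : ℂ) + t * I)).im) +
        σ * ((k + 2).factorial * (I ^ (k + 2) * (Ph (k + 3) (t * I) - Ph (k + 3) (((1 / t : ℝ) : ℂ) + t * I))).im) := by
    rw [mul_sub, sub_im]; ring
  have a4 : |σ * ((k + 2).factorial * (I ^ (k + 2) * (Ph (k + 3) (t * I) - Ph (k + 3) (((1 / t : ℝ) : ℂ) + t * I))).im)| ≤
      (k + 2).factorial * C2 := by
    rw [abs_mul, hσa, one_mul, abs_mul, abs_of_nonneg (by positivity : (0:ℝ) ≤ ((k + 2).factorial : ℝ))]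
    gcongr
    refine (Complex.abs_im_le_norm _).trans ?_
    rw [norm_mul, norm_pow, Complex.norm_I, one_pow, one_mul]
    exact a2
  have a5 := (abs_le.1 a4).2
  have hM : 0 ≤ σ * bernoulliFun (k + 2 + 1) (1 - α) := by
    have h0 : bernoulliFun (k + 2 + 1) 0 = 0 := by
      have e1 : bernoulliFun (k + 2 + 1) (1 - 0) = (-1) ^ (k + 2 + 1) * bernoulliFun (k + 2 + 1) 0 :=
        bernoulliFun_eval_one_sub
      rw [hn.add_one.neg_one_pow, sub_zero, bernoulliFun_endpoints_eq_of_ne_one (by omega)] at e1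
      linarith
    have := hσ 0 (by simp)
    rwa [h0, mul_zero] at this
  have hX : 0 ≤ (D ^ (k + 2 + 1))⁻¹ * (σ * bernoulliFun (k + 2 + 1) (1 - α) / ((k + 2 : ℕ) + 1)) := by positivity
  rw [a3]
  set X := (D ^ (k + 2 + 1))⁻¹ * (σ * bernoulliFun (k + 2 + 1) (1 - α) / ((k + 2 : ℕ) + 1))
  have f0 : (0:ℝ) ≤ (k + 2).factorial * C2 := by positivity
  have f1 : (1 / 2 * Real.log t + C1) * X ≤ (1 / 2 * Real.log t + (C1 + (k + 2).factorial * C2)) * X := by
    gcongr; linarith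
  have f2 : C1 * Real.sqrt N + (k + 2).factorial * C2 ≤ (C1 + (k + 2).factorial * C2) * Real.sqrt N := by
    nlinarith
  linarith

lemma tend_D (m : ℕ) : Tendsto (fun l : ℝ => l / ((l - m * Real.log l) / Real.pi)) atTop (𝓝 Real.pi) := by
  have h1 : Tendsto (fun l : ℝ => Real.log l / l) atTop (𝓝 0) := Real.isLittleO_log_id_atTop.tendsto_div_nhds_zero
  have h2 : Tendsto (fun l : ℝ => Real.pi / (1 - m * (Real.log l / l))) atTop (𝓝 (Real.pi / (1 - m * 0))) :=
    tendsto_const_nhds.div (tendsto_const_nhds.sub (h1.const_mul _)) (by simp)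
  rw [mul_zero, sub_zero, div_one] at h2
  refine h2.congr' ?_
  filter_upwards [eventually_gt_atTop 0] with l hl
  have e : l - m * Real.log l = l * (1 - m * (Real.log l / l)) := by field_simp
  rw [e]
  by_cases h0 : (1 - m * (Real.log l / l)) = 0
  · rw [h0]; simp
  · field_simp

/-- the asymptotic bound on the line -/
theorem asym (h : RHz) (hn : Even n) (hn0 : 0 < n) {α : ℝ} (hα0 : 0 < α) (hα1 : α < 1) (hB : bernoulliFun n α = 0)
    {σ : ℝ} (hσ1 : σ = 1 ∨ σ = -1)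
    (hσ : ∀ s ∈ Set.Icc (0:ℝ) 1, σ * bernoulliFun (n + 1) s ≤ σ * bernoulliFun (n + 1) (1 - α)) {ε : ℝ} (hε : 0 < ε) :
    ∀ᶠ t : ℝ in atTop, σ * (1 / Real.pi * (I ^ n * Ph (n + 1) (t * I)).im) ≤
      (Real.pi ^ n * (σ * bernoulliFun (n + 1) (1 - α)) / (2 * (n + 1).factorial) + ε) *
        (Real.log t / Real.log (Real.log t) ^ (n + 1)) := by
  obtain ⟨C, hC, h1⟩ := one_sided_line h hn hn0 hα0 hα1 hB hσ1 hσ
  set M : ℝ := σ * bernoulliFun (n + 1) (1 - α) with hM
  -- the function of `l = log log t`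
  set R : ℝ → ℝ := fun l => (1 / 2 + C * Real.exp (-l)) * ((l / ((l - (n + 2 : ℕ) * Real.log l) / Real.pi)) ^ (n + 1) * (M / (n + 1)))
    + 2 * C * l⁻¹ with hR
  have tR : Tendsto R atTop (𝓝 ((1 / 2 + C * 0) * (Real.pi ^ (n + 1) * (M / (n + 1))) + 2 * C * 0)) := by
    have t1 : Tendsto (fun l : ℝ => Real.exp (-l)) atTop (𝓝 0) := Real.tendsto_exp_neg_atTop_nhds_zero
    have t2 := (tend_D (n + 2)).pow (n + 1)
    exact ((tendsto_const_nhds.add (t1.const_mul C)).mul (t2.mul_const _)).add (tendsto_inv_atTop_zero.const_mul _)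
  have tR2 : ∀ᶠ l : ℝ in atTop, R l ≤ (1 / 2 + C * 0) * (Real.pi ^ (n + 1) * (M / (n + 1))) + 2 * C * 0 + Real.pi * n.factorial * ε := by
    have : (1 / 2 + C * 0) * (Real.pi ^ (n + 1) * (M / (n + 1))) + 2 * C * 0 <
        (1 / 2 + C * 0) * (Real.pi ^ (n + 1) * (M / (n + 1))) + 2 * C * 0 + Real.pi * n.factorial * ε := by
      have : 0 < Real.pi * n.factorial * ε := by positivity
      linarith
    exact (tR.eventually_lt_const this).mono fun l hl => hl.le
  have tD : Tendsto (fun l : ℝ => (l - (n + 2 : ℕ) * Real.log l) / Real.pi) atTop atTop := by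
    have e1 : Tendsto (fun l : ℝ => l * (1 - (n + 2 : ℕ) * (Real.log l / l))) atTop atTop := by
      have h2 : Tendsto (fun l : ℝ => Real.log l / l) atTop (𝓝 0) := Real.isLittleO_log_id_atTop.tendsto_div_nhds_zero
      have h3 : Tendsto (fun l : ℝ => 1 - ((n + 2 : ℕ) : ℝ) * (Real.log l / l)) atTop (𝓝 (1 - ((n + 2 : ℕ) : ℝ) * 0)) :=
        tendsto_const_nhds.sub (h2.const_mul _)
      rw [mul_zero, sub_zero] at h3
      exact tendsto_id.atTop_mul_pos one_pos h3
    have e2 : Tendsto (fun l : ℝ => l - (n + 2 : ℕ) * Real.log l) atTop atTop := by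
      refine e1.congr' ?_
      filter_upwards [eventually_gt_atTop 0] with l hl
      field_simp
    exact e2.atTop_div_const Real.pi_pos
  have tll : Tendsto (fun t : ℝ => Real.log (Real.log t)) atTop atTop := Real.tendsto_log_atTop.comp Real.tendsto_log_atTop
  have tlog2 : ∀ᶠ t : ℝ in atTop, 2 * Real.log t ^ 2 ≤ t := by
    have h2 : Tendsto (fun x : ℝ => x ^ 2 * Real.exp (-x)) atTop (𝓝 0) := Real.tendsto_pow_mul_exp_neg_atTop_nhds_zero 2
    have h3 := (h2.comp Real.tendsto_log_atTop).eventually_lt_const (show (0:ℝ) < 1 / 2 by norm_num)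
    filter_upwards [h3, eventually_gt_atTop 0] with t ht ht0
    simp only [Function.comp_apply] at ht
    rw [Real.exp_neg, Real.exp_log ht0, ← div_eq_mul_inv, div_lt_iff₀ ht0] at ht
    linarith
  filter_upwards [tll.eventually tR2, tll.eventually (tD.eventually_ge_atTop 1), tlog2, eventually_ge_atTop 6,
    tll.eventually_ge_atTop 1] with t a1 a2 a3 a4 a5
  set l : ℝ := Real.log (Real.log t) with hl
  set D : ℝ := (l - (n + 2 : ℕ) * Real.log l) / Real.pi with hD
  have hD0 : 0 < D := by linarith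
  have hl0 : 0 < l := by linarith
  have hlt : 0 < Real.log t := Real.log_pos (by linarith)
  have hel : Real.exp l = Real.log t := by rw [hl, Real.exp_log hlt]
  have hpD : Real.exp (Real.pi * D) = Real.log t / l ^ (n + 2) := by
    have e1 : Real.pi * D = l - (n + 2 : ℕ) * Real.log l := by rw [hD]; field_simp
    rw [e1, Real.exp_sub, hel, Real.exp_nat_mul, Real.exp_log hl0]
  have hp2 : Real.exp (2 * Real.pi * D) = (Real.log t / l ^ (n + 2)) ^ 2 := by
    rw [← hpD, ← Real.exp_nat_mul]; congr 1; push_cast; ring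
  have hexp1 : 1 ≤ Real.exp (2 * Real.pi * D) := Real.one_le_exp (by positivity)
  set N : ℕ := ⌈Real.exp (2 * Real.pi * D)⌉₊ with hN
  have hN0 : Real.exp (2 * Real.pi * D) ≤ N := Nat.le_ceil _
  have hN1 : (1:ℝ) ≤ N := hexp1.trans hN0
  have hN2 : (N : ℝ) ≤ 2 * Real.exp (2 * Real.pi * D) := by
    have := Nat.ceil_lt_add_one (show 0 ≤ Real.exp (2 * Real.pi * D) by positivity)
    linarith
  have hsN : Real.sqrt N ≤ 2 * (Real.log t / l ^ (n + 2)) := by
    rw [Real.sqrt_le_left (by positivity)]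
    have : (0:ℝ) ≤ (Real.log t / l ^ (n + 2)) ^ 2 := by positivity
    rw [hp2] at hN2
    nlinarith
  have hNt : (N : ℝ) ≤ t := by
    refine hN2.trans (le_trans ?_ a3)
    rw [hp2]
    have : Real.log t / l ^ (n + 2) ≤ Real.log t := div_le_self hlt.le (one_le_pow₀ a5)
    gcongr
  have b1 := h1 t D N a4 a2 (by exact_mod_cast hN1) hN0 hNt
  -- rewrite
  have c1 : (1 / 2 * Real.log t + C) * ((D ^ (n + 1))⁻¹ * (M / (n + 1))) + C * Real.sqrt N ≤
      R l * (Real.log t / l ^ (n + 1)) := by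
    have e1 : R l * (Real.log t / l ^ (n + 1)) = (1 / 2 * Real.log t + C) * ((D ^ (n + 1))⁻¹ * (M / (n + 1))) +
        C * (2 * (Real.log t / l ^ (n + 2))) := by
      rw [hR]
      simp only
      rw [← hD, Real.exp_neg, hel, div_pow]
      field_simp
      ring
    rw [e1]
    gcongr
  have c2 : 0 ≤ Real.log t / l ^ (n + 1) := by positivity
  have c3 := mul_le_mul_of_nonneg_right a1 c2
  have c4 : σ * (1 / Real.pi * (I ^ n * Ph (n + 1) (t * I)).im) =
      (σ * (n.factorial * (I ^ n * Ph (n + 1) (t * I)).im)) / (Real.pi * n.factorial) := by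
    have : (n.factorial : ℝ) ≠ 0 := by positivity
    field_simp
  rw [c4, div_le_iff₀ (by positivity)]
  refine (b1.trans (c1.trans c3)).trans (le_of_eq ?_)
  rw [Nat.factorial_succ]
  push_cast
  have : (n.factorial : ℝ) ≠ 0 := by positivity
  field_simp
  ring

end Pool.Agent.V11273.SN
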