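import Mathlib

set_option autoImplicit false

/-!
# Euler-Maclaurin expansion of `∑ 1 / (w + a + k)²`
-/

namespace Pool.Agent.V11273.SN

open MeasureTheory Filter Topology Set Complex

/-- integral over the first, incomplete, interval -/
noncomputable def A1 (φ : ℝ → ℝ) (p : ℕ) (a : ℝ) (w : ℂ) : ℂ :=
  ∫ s in (0:ℝ)..a, ((φ (s + 1 - a) : ℝ) : ℂ) / ((s : ℂ) + w) ^ p

/-- integral over a complete interval -/
noncomputable def A2 (φ : ℝ → ℝ) (p : ℕ) (w : ℂ) : ℂ :=
  ∫ s in (0:ℝ)..1, ((φ s : ℝ) : ℂ) / ((s : ℂ) + w) ^ p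

/-- `∫_0^∞ φ({y - a}) / (y + w)^p dy` -/
noncomputable def PP (φ : ℝ → ℝ) (p : ℕ) (a : ℝ) (w : ℂ) : ℂ :=
  A1 φ p a w + ∑' k : ℕ, A2 φ p (w + a + k)

/-- `∑ 1 / (w + k)²` -/
noncomputable def ZZ (w : ℂ) : ℂ := ∑' k : ℕ, 1 / (w + k) ^ 2

lemma add_ne {s : ℝ} {w : ℂ} (h : 0 < s + w.re) : (s : ℂ) + w ≠ 0 := by
  intro h0
  have := congrArg Complex.re h0
  simp at this
  linarith

lemma ibp (f f' : ℝ → ℝ) (hf : ∀ s, HasDerivAt f (f' s) s) (hc : Continuous f') (c d : ℝ) (hcd : c ≤ d)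
    (p : ℕ) {w : ℂ} (hw : 0 < c + w.re) :
    (p : ℂ) * ∫ s in c..d, ((f s : ℝ) : ℂ) / ((s : ℂ) + w) ^ (p + 1) =
      (∫ s in c..d, ((f' s : ℝ) : ℂ) / ((s : ℂ) + w) ^ p) -
        ((f d : ℂ) / ((d : ℂ) + w) ^ p - (f c : ℂ) / ((c : ℂ) + w) ^ p) := by
  have hfc : Continuous f := continuous_iff_continuousAt.2 fun s => (hf s).continuousAt
  have hne : ∀ s ∈ Set.uIcc c d, (s : ℂ) + w ≠ 0 := by
    intro s hs
    rw [Set.uIcc_of_le hcd] at hs
    exact add_ne (by linarith [hs.1])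
  have hder : ∀ s ∈ Set.uIcc c d, HasDerivAt (fun s : ℝ => ((f s : ℝ) : ℂ) / ((s : ℂ) + w) ^ p)
      (((f' s : ℝ) : ℂ) / ((s : ℂ) + w) ^ p - (p : ℂ) * (((f s : ℝ) : ℂ) / ((s : ℂ) + w) ^ (p + 1))) s := by
    intro s hs
    have h1 : HasDerivAt (fun s : ℝ => ((f s : ℝ) : ℂ)) ((f' s : ℝ) : ℂ) s := (hf s).ofReal_comp
    have h2 : HasDerivAt (fun s : ℝ => ((s : ℂ) + w)) 1 s := (Complex.ofRealCLM.hasDerivAt).add_const w
    have h3 : HasDerivAt (fun s : ℝ => ((f s : ℝ) : ℂ) / ((s : ℂ) + w) ^ p)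
        ((((f' s : ℝ) : ℂ) * ((s : ℂ) + w) ^ p - ((f s : ℝ) : ℂ) * ((p : ℂ) * ((s : ℂ) + w) ^ (p - 1) * 1)) /
          (((s : ℂ) + w) ^ p) ^ 2) s := h1.div (h2.pow p) (pow_ne_zero p (hne s hs))
    refine h3.congr_deriv ?_
    have hn := hne s hs
    rcases Nat.eq_zero_or_pos p with hp | hp
    · subst hp; simp
    · obtain ⟨q, rfl⟩ : ∃ q, p = q + 1 := ⟨p - 1, by omega⟩
      simp only [Nat.add_sub_cancel, mul_one]
      field_simp
      ring
  have hcont1 : ContinuousOn (fun s : ℝ => ((f' s : ℝ) : ℂ) / ((s : ℂ) + w) ^ p) (Set.uIcc c d) :=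
    ((Complex.continuous_ofReal.comp hc).continuousOn).div
      (((Complex.continuous_ofReal.add continuous_const).pow p).continuousOn) fun s hs => pow_ne_zero p (hne s hs)
  have hcont2 : ContinuousOn (fun s : ℝ => ((f s : ℝ) : ℂ) / ((s : ℂ) + w) ^ (p + 1)) (Set.uIcc c d) :=
    ((Complex.continuous_ofReal.comp hfc).continuousOn).div
      (((Complex.continuous_ofReal.add continuous_const).pow (p + 1)).continuousOn)
      fun s hs => pow_ne_zero (p + 1) (hne s hs)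
  have hcont3 : ContinuousOn (fun s : ℝ => (p : ℂ) * (((f s : ℝ) : ℂ) / ((s : ℂ) + w) ^ (p + 1))) (Set.uIcc c d) :=
    continuousOn_const.mul hcont2
  have h := intervalIntegral.integral_eq_sub_of_hasDerivAt hder
    ((hcont1.sub hcont3).intervalIntegrable)
  rw [intervalIntegral.integral_sub hcont1.intervalIntegrable hcont3.intervalIntegrable] at h
  rw [intervalIntegral.integral_const_mul] at h
  rw [← h]; ring

lemma norm_add_ge {s : ℝ} {w : ℂ} (hs : 0 ≤ s) (hw : 0 ≤ w.re) : (s + ‖w‖) / 2 ≤ ‖(s : ℂ) + w‖ := by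
  have h1 : (s + ‖w‖) ^ 2 / 2 ≤ ‖(s : ℂ) + w‖ ^ 2 := by
    rw [← Complex.normSq_eq_norm_sq, Complex.normSq_apply]
    have h2 : ‖w‖ ^ 2 = w.re * w.re + w.im * w.im := by rw [← Complex.normSq_eq_norm_sq, Complex.normSq_apply]
    simp only [add_re, ofReal_re, add_im, ofReal_im, zero_add]
    nlinarith [sq_nonneg (s - ‖w‖), mul_nonneg hs hw, norm_nonneg w]
  have h3 : ((s + ‖w‖) / 2) ^ 2 ≤ ‖(s : ℂ) + w‖ ^ 2 := by
    nlinarith [sq_nonneg (s + ‖w‖)]
  exact le_of_sq_le_sq' h3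
where
  le_of_sq_le_sq' {x : ℝ} {y : ℂ} (h : x ^ 2 ≤ ‖y‖ ^ 2) : x ≤ ‖y‖ := abs_le_of_sq_le_sq' h (norm_nonneg _) |>.2

lemma A2_le (φ : ℝ → ℝ) {C : ℝ} (hC : ∀ s ∈ Set.Icc (0:ℝ) 1, |φ s| ≤ C) (p : ℕ) {w : ℂ} (hw : 0 < w.re) :
    ‖A2 φ p w‖ ≤ C / w.re ^ p := by
  unfold A2
  have h := intervalIntegral.norm_integral_le_of_norm_le_const (a := (0:ℝ)) (b := 1) (C := C / w.re ^ p)
    (f := fun s : ℝ => ((φ s : ℝ) : ℂ) / ((s : ℂ) + w) ^ p) fun s hs => by
      rw [Set.uIoc_of_le zero_le_one] at hs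
      rw [norm_div, norm_pow, Complex.norm_real, Real.norm_eq_abs]
      have h1 : w.re ≤ ‖(s : ℂ) + w‖ := by
        refine le_trans ?_ (Complex.re_le_norm _)
        simp only [add_re, ofReal_re]
        linarith [hs.1]
      have h0 : 0 ≤ C := (abs_nonneg _).trans (hC s ⟨hs.1.le, hs.2⟩)
      have h2 : |φ s| ≤ C := hC s ⟨hs.1.le, hs.2⟩
      gcongr
  simpa using h

lemma A2_summable (φ : ℝ → ℝ) {C : ℝ} (hC : ∀ s ∈ Set.Icc (0:ℝ) 1, |φ s| ≤ C) {p : ℕ} (hp : 2 ≤ p) {w : ℂ}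
    (hw : 0 < w.re) : Summable fun k : ℕ => A2 φ p (w + k) := by
  have h0 : 0 ≤ C := (abs_nonneg _).trans (hC 0 (by simp))
  refine Summable.of_norm_bounded (g := fun k : ℕ => C * (1 / ((k : ℝ) + w.re) ^ p)) ?_ fun k => ?_
  · refine Summable.mul_left C ?_
    have := Real.summable_one_div_nat_add_rpow w.re p
    have h1 := this.2 (by exact_mod_cast (by omega : 1 < p))
    refine h1.congr fun k => ?_
    rw [Real.rpow_natCast, abs_of_pos (by positivity)]
  · have h1 : 0 < (w + k : ℂ).re := by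
      have : (0:ℝ) ≤ k := Nat.cast_nonneg k
      simp only [add_re, natCast_re]; linarith
    refine (A2_le φ hC p h1).trans (le_of_eq ?_)
    simp only [add_re, natCast_re]
    rw [add_comm]; ring

lemma inv_pow_tendsto {p : ℕ} (hp : 1 ≤ p) (w : ℂ) : Tendsto (fun k : ℕ => 1 / (w + k) ^ p) atTop (𝓝 0) := by
  rw [tendsto_zero_iff_norm_tendsto_zero]
  have h1 : Tendsto (fun k : ℕ => ‖w + k‖) atTop atTop := by
    refine tendsto_atTop_mono (f := fun k : ℕ => (k : ℝ) - ‖w‖) (fun k => ?_)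
      (tendsto_atTop_add_const_right _ _ tendsto_natCast_atTop_atTop)
    have h2 := norm_sub_norm_le (k : ℂ) (-w)
    rw [norm_neg, sub_neg_eq_add, Complex.norm_natCast, add_comm (k : ℂ)] at h2
    exact h2
  have h2 : Tendsto (fun k : ℕ => (‖w + k‖ ^ p)⁻¹) atTop (𝓝 0) :=
    tendsto_inv_atTop_zero.comp ((tendsto_pow_atTop (by omega)).comp h1)
  refine h2.congr fun k => ?_
  rw [norm_div, norm_one, norm_pow, one_div]

/-- one recursion step for a pair `f, f'` -/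
lemma PP_step (f f' : ℝ → ℝ) (hf : ∀ s, HasDerivAt f (f' s) s) (hc : Continuous f') {p : ℕ} (hp : 1 ≤ p)
    {a : ℝ} (ha0 : 0 < a) {w : ℂ} (hw : 0 < w.re) (s2 : Summable fun k : ℕ => A2 f' p (w + a + k))
    (s3 : Summable fun k : ℕ => ((f 1 : ℂ) - (f 0 : ℂ)) * (1 / (w + a + k) ^ p)) :
    (p : ℂ) * PP f (p + 1) a w = PP f' p a w + (f (1 - a) : ℂ) / w ^ p -
      ∑' k : ℕ, ((f 1 : ℂ) - (f 0 : ℂ)) * (1 / (w + a + k) ^ p) := by
  have hfc : Continuous f := continuous_iff_continuousAt.2 fun s => (hf s).continuousAt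
  obtain ⟨C, hC⟩ := isCompact_Icc.exists_bound_of_continuousOn (s := Set.Icc (0:ℝ) 1) hfc.continuousOn
  have hwa : 0 < (w + a).re := by simp only [add_re, ofReal_re]; linarith
  have s1 := A2_summable f hC (p := p + 1) (by omega) hwa
  have e1 : (p : ℂ) * A1 f (p + 1) a w = A1 f' p a w - ((f 1 : ℂ) / ((a : ℂ) + w) ^ p - (f (1 - a) : ℂ) / w ^ p) := by
    have h := ibp (fun s => f (s + 1 - a)) (fun s => f' (s + 1 - a)) (fun s => by
      have h1 : HasDerivAt (fun s => f (s + 1 - a)) (f' (s + 1 - a) * 1) s :=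
        (hf (s + 1 - a)).comp s (((hasDerivAt_id s).add_const 1).sub_const a)
      simpa using h1) (hc.comp (by fun_prop)) 0 a ha0.le p (w := w) (by linarith)
    simp only [add_sub_cancel_left, ofReal_zero, zero_add] at h
    exact h
  have e2 : ∀ k : ℕ, (p : ℂ) * A2 f (p + 1) (w + a + k) = A2 f' p (w + a + k) +
      ((f 1 : ℂ) * (1 / (w + a + k) ^ p - 1 / (w + a + (k + 1 : ℕ)) ^ p) -
        ((f 1 : ℂ) - (f 0 : ℂ)) * (1 / (w + a + k) ^ p)) := by
    intro k
    have hk : (0:ℝ) ≤ k := Nat.cast_nonneg k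
    have h := ibp f f' hf hc 0 1 zero_le_one p (w := w + a + k) (by
      simp only [add_re, ofReal_re, natCast_re]; linarith)
    simp only [ofReal_zero, zero_add, ofReal_one] at h
    unfold A2
    rw [h, show (1 : ℂ) + (w + a + k) = w + a + ((k + 1 : ℕ) : ℂ) by push_cast; ring]
    ring
  have hsumtel : HasSum (fun k : ℕ => (f 1 : ℂ) * (1 / (w + a + k) ^ p - 1 / (w + a + (k + 1 : ℕ)) ^ p))
      ((f 1 : ℂ) * (1 / (w + a) ^ p)) := by
    have h1 : Summable (fun k : ℕ => (f 1 : ℂ) * (1 / (w + a + k) ^ p - 1 / (w + a + (k + 1 : ℕ)) ^ p)) := by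
      have h2 := ((s1.mul_left (p : ℂ)).sub s2).add s3
      refine h2.congr fun k => ?_
      rw [e2 k]; ring
    have h3 := h1.hasSum.tendsto_sum_nat
    have h4 : ∀ N : ℕ, ∑ k ∈ Finset.range N, (f 1 : ℂ) * (1 / (w + a + k) ^ p - 1 / (w + a + (k + 1 : ℕ)) ^ p) =
        (f 1 : ℂ) * (1 / (w + a) ^ p - 1 / (w + a + N) ^ p) := by
      intro N
      rw [← Finset.mul_sum, Finset.sum_range_sub' (fun k : ℕ => 1 / (w + a + (k : ℂ)) ^ p)]
      simp
    simp_rw [h4] at h3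
    have h5 : Tendsto (fun N : ℕ => (f 1 : ℂ) * (1 / (w + a) ^ p - 1 / (w + a + N) ^ p)) atTop
        (𝓝 ((f 1 : ℂ) * (1 / (w + a) ^ p - 0))) :=
      (tendsto_const_nhds.sub (inv_pow_tendsto (by omega) (w + a))).const_mul _
    have h6 := tendsto_nhds_unique h3 h5
    rw [sub_zero] at h6
    rw [← h6]
    exact h1.hasSum
  unfold PP
  rw [mul_add, e1, ← tsum_mul_left]
  simp_rw [e2]
  rw [Summable.tsum_add s2 (hsumtel.summable.sub s3), Summable.tsum_sub hsumtel.summable s3, hsumtel.tsum_eq,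
    add_comm (a : ℂ) w]
  ring

/-- the constant function -/
lemma PP_one {p : ℕ} (hp : 1 ≤ p) {a : ℝ} (ha0 : 0 < a) {w : ℂ} (hw : 0 < w.re) :
    (p : ℂ) * PP (fun _ => 1) (p + 1) a w = 1 / w ^ p := by
  have h := PP_step (fun _ => 1) (fun _ => 0) (fun s => hasDerivAt_const s 1) continuous_const hp ha0 hw
    (by simpa [A2] using summable_zero) (by simpa using summable_zero)
  rw [h]
  simp [PP, A1, A2]

lemma inv_sum {w : ℂ} (hw : 0 < w.re) {p : ℕ} (hp : 2 ≤ p) : Summable fun k : ℕ => 1 / (w + k) ^ p := by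
  refine Summable.of_norm_bounded (g := fun k : ℕ => (1 / ((k : ℝ) + w.re) ^ p)) ?_ fun k => ?_
  · have := Real.summable_one_div_nat_add_rpow w.re p
    have h1 := this.2 (by exact_mod_cast (by omega : 1 < p))
    refine h1.congr fun k => ?_
    rw [Real.rpow_natCast, abs_of_pos (by positivity)]
  · rw [norm_div, norm_one, norm_pow]
    have h1 : (k : ℝ) + w.re ≤ ‖w + k‖ := by
      refine le_trans (le_of_eq ?_) (Complex.re_le_norm _)
      simp only [add_re, natCast_re]; ring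
    have h2 : 0 < (k : ℝ) + w.re := by positivity
    gcongr

/-- the first Bernoulli polynomial -/
lemma PP_base {a : ℝ} (ha0 : 0 < a) {w : ℂ} (hw : 0 < w.re) :
    2 * PP (bernoulliFun 1) 3 a w = 1 / w + (bernoulliFun 1 (1 - a) : ℂ) / w ^ 2 - ZZ (w + a) := by
  have hwa : 0 < (w + a).re := by simp only [add_re, ofReal_re]; linarith
  have e1 : (bernoulliFun 1 1 : ℂ) - (bernoulliFun 1 0 : ℂ) = 1 := by
    rw [bernoulliFun_one, bernoulliFun_one]; push_cast; norm_num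
  have h := PP_step (bernoulliFun 1) (fun _ => 1) (fun s => by
      have := hasDerivAt_bernoulliFun 1 s
      simpa [bernoulliFun_zero] using this) continuous_const (p := 2) (by norm_num) ha0 hw
    (A2_summable (fun _ => 1) (C := 1) (fun s _ => by simp) le_rfl hwa)
    (by simp_rw [e1, one_mul]; exact inv_sum hwa le_rfl)
  have h1 := PP_one (p := 1) le_rfl ha0 hw
  simp only [Nat.cast_one, one_mul, pow_one, Nat.reduceAdd] at h1
  simp_rw [e1, one_mul] at h
  rw [h1] at h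
  exact_mod_cast h

lemma PP_rec {m : ℕ} (hm : 1 ≤ m) {a : ℝ} (ha0 : 0 < a) {w : ℂ} (hw : 0 < w.re) :
    (m + 2 : ℂ) * PP (bernoulliFun (m + 1)) (m + 3) a w =
      (m + 1 : ℂ) * PP (bernoulliFun m) (m + 2) a w + (bernoulliFun (m + 1) (1 - a) : ℂ) / w ^ (m + 2) := by
  have hwa : 0 < (w + a).re := by simp only [add_re, ofReal_re]; linarith
  obtain ⟨C, hC⟩ := isCompact_Icc.exists_bound_of_continuousOn (s := Set.Icc (0:ℝ) 1)
    (((contDiff_bernoulliFun (k := m)).continuous).const_smul ((m : ℝ) + 1)).continuousOn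
  have e0 : (bernoulliFun (m + 1) 1 : ℂ) - (bernoulliFun (m + 1) 0 : ℂ) = 0 := by
    rw [bernoulliFun_endpoints_eq_of_ne_one (by omega : m + 1 ≠ 1), sub_self]
  have h := PP_step (bernoulliFun (m + 1)) (fun s => ((m : ℝ) + 1) * bernoulliFun m s) (fun s => by
      have := hasDerivAt_bernoulliFun (m + 1) s
      simpa using this) ((contDiff_bernoulliFun (k := m)).continuous.const_smul ((m : ℝ) + 1))
    (p := m + 2) (by omega) ha0 hw
    (A2_summable _ hC (by omega) hwa) (by simp_rw [e0, zero_mul]; exact summable_zero)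
  simp_rw [e0, zero_mul, tsum_zero, sub_zero] at h
  have e1 : PP (fun s => ((m : ℝ) + 1) * bernoulliFun m s) (m + 2) a w =
      ((m : ℂ) + 1) * PP (bernoulliFun m) (m + 2) a w := by
    unfold PP
    rw [mul_add, ← tsum_mul_left]
    congr 1
    · unfold A1
      rw [← intervalIntegral.integral_const_mul]
      refine intervalIntegral.integral_congr fun s _ => ?_
      push_cast; ring
    · refine tsum_congr fun k => ?_
      unfold A2
      rw [← intervalIntegral.integral_const_mul]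
      refine intervalIntegral.integral_congr fun s _ => ?_
      push_cast; ring
  rw [e1] at h
  push_cast at h
  exact h

/-- **Euler-Maclaurin** -/
theorem EM {a : ℝ} (ha0 : 0 < a) {w : ℂ} (hw : 0 < w.re) (n : ℕ) :
    ZZ (w + a) = ∑ j ∈ Finset.range (n + 2), (bernoulliFun j (1 - a) : ℂ) / w ^ (j + 1) -
      (n + 2 : ℂ) * PP (bernoulliFun (n + 1)) (n + 3) a w := by
  induction n with
  | zero =>
    have h := PP_base ha0 hw
    rw [Finset.sum_range_succ, Finset.sum_range_one, bernoulliFun_zero]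
    simp only [Nat.cast_zero, zero_add, pow_one, ofReal_one]
    linear_combination h
  | succ n ih =>
    have h := PP_rec (m := n + 1) (by omega) ha0 hw
    rw [Finset.sum_range_succ, ih]
    push_cast at h ⊢
    linear_combination h

end Pool.Agent.V11273.SN
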