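import Pool.Agent.V11273.SN.Bern

set_option autoImplicit false

namespace Pool.Agent.V11273.SN

open MeasureTheory Filter Topology Set Complex

/-- real version of `PP` -/
noncomputable def RP (φ : ℝ → ℝ) (p : ℕ) (a x : ℝ) : ℝ :=
  (∫ s in (0:ℝ)..a, φ (s + 1 - a) / (s + x) ^ p) + ∑' k : ℕ, ∫ s in (0:ℝ)..1, φ s / (s + (x + a + k)) ^ p

lemma A2_ofReal (φ : ℝ → ℝ) (p : ℕ) (x : ℝ) : A2 φ p (x : ℂ) = ((∫ s in (0:ℝ)..1, φ s / (s + x) ^ p : ℝ) : ℂ) := by
  unfold A2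
  rw [← intervalIntegral.integral_ofReal]
  refine intervalIntegral.integral_congr fun s _ => ?_
  push_cast; rfl

lemma PP_ofReal (φ : ℝ → ℝ) (p : ℕ) (a x : ℝ) : PP φ p a (x : ℂ) = ((RP φ p a x : ℝ) : ℂ) := by
  unfold PP RP
  rw [Complex.ofReal_add, Complex.ofReal_tsum]
  congr 1
  · unfold A1
    rw [← intervalIntegral.integral_ofReal]
    refine intervalIntegral.integral_congr fun s _ => ?_
    push_cast; rfl
  · refine tsum_congr fun k => ?_
    rw [← A2_ofReal]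
    congr 1
    push_cast; rfl

lemma RP_nonneg {φ : ℝ → ℝ} (hφ : ∀ s ∈ Set.Icc (0:ℝ) 1, 0 ≤ φ s) (p : ℕ) {a x : ℝ} (ha0 : 0 < a) (ha1 : a < 1)
    (hx : 0 < x) : 0 ≤ RP φ p a x := by
  unfold RP
  refine add_nonneg ?_ (tsum_nonneg fun k => ?_)
  · refine intervalIntegral.integral_nonneg ha0.le fun s hs => ?_
    exact div_nonneg (hφ _ ⟨by linarith [hs.1], by linarith [hs.2]⟩) (pow_nonneg (by linarith [hs.1]) _)
  · refine intervalIntegral.integral_nonneg zero_le_one fun s hs => ?_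
    have hk : (0:ℝ) ≤ k := Nat.cast_nonneg k
    exact div_nonneg (hφ _ hs) (pow_nonneg (by linarith [hs.1]) _)

lemma RP_one {p : ℕ} (hp : 1 ≤ p) {a : ℝ} (ha0 : 0 < a) {x : ℝ} (hx : 0 < x) :
    (p : ℝ) * RP (fun _ => 1) (p + 1) a x = 1 / x ^ p := by
  have h := PP_one hp ha0 (w := (x : ℂ)) (by simpa using hx)
  rw [PP_ofReal] at h
  exact_mod_cast h

lemma cont_div (φ : ℝ → ℝ) (hφ : Continuous φ) (p : ℕ) {w : ℂ} {c d : ℝ} (hw : 0 < c + w.re) (hcd : c ≤ d) :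
    IntervalIntegrable (fun s : ℝ => ((φ s : ℝ) : ℂ) / ((s : ℂ) + w) ^ p) volume c d := by
  refine ContinuousOn.intervalIntegrable ?_
  refine ((Complex.continuous_ofReal.comp hφ).continuousOn).div
    (((Complex.continuous_ofReal.add continuous_const).pow p).continuousOn) fun s hs => pow_ne_zero p ?_
  rw [Set.uIcc_of_le hcd] at hs
  exact add_ne (by linarith [hs.1])

lemma rcont_div (φ : ℝ → ℝ) (hφ : Continuous φ) (p : ℕ) {x c d : ℝ} (hw : 0 < c + x) (hcd : c ≤ d) :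
    IntervalIntegrable (fun s : ℝ => φ s / (s + x) ^ p) volume c d := by
  refine ContinuousOn.intervalIntegrable ?_
  refine hφ.continuousOn.div ((by fun_prop : Continuous fun s : ℝ => (s + x) ^ p).continuousOn) fun s hs => ?_
  rw [Set.uIcc_of_le hcd] at hs
  exact pow_ne_zero p (by linarith [hs.1])

lemma PP_norm {φ : ℝ → ℝ} (hφ : Continuous φ) {C : ℝ} (hC : ∀ s ∈ Set.Icc (0:ℝ) 1, |φ s| ≤ C) {p : ℕ} (hp : 1 ≤ p)
    {a : ℝ} (ha0 : 0 < a) (ha1 : a < 1) {w : ℂ} (hw : 0 < w.re) :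
    ‖PP φ (p + 1) a w‖ ≤ C * 2 ^ (p + 1) / (p * ‖w‖ ^ p) := by
  have hC0 : 0 ≤ C := (abs_nonneg _).trans (hC 0 (by simp))
  have hwn : 0 < ‖w‖ := norm_pos_iff.2 (by rintro rfl; simp at hw)
  have key : ∀ (ψ : ℝ → ℝ) (c : ℝ), (∀ s ∈ Set.Icc (0:ℝ) c, |ψ s| ≤ C) → Continuous ψ → 0 ≤ c → ∀ k : ℝ, 0 ≤ k →
      ‖∫ s in (0:ℝ)..c, ((ψ s : ℝ) : ℂ) / ((s : ℂ) + (w + k)) ^ (p + 1)‖ ≤
        C * 2 ^ (p + 1) * ∫ s in (0:ℝ)..c, 1 / (s + (‖w‖ + k)) ^ (p + 1) := by
    intro ψ c hψ hψc hc k hk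
    rw [← intervalIntegral.integral_const_mul]
    refine (intervalIntegral.norm_integral_le_of_norm_le hc (ae_of_all _ fun s hs => ?_)
      ((rcont_div (fun _ => 1) continuous_const (p + 1) (x := ‖w‖ + k) (by linarith) hc).const_mul _))
    rw [norm_div, norm_pow, Complex.norm_real, Real.norm_eq_abs]
    have h1 : (s + (‖w‖ + k)) / 2 ≤ ‖(s : ℂ) + (w + k)‖ := by
      have := norm_add_ge (s := s + k) (w := w) (by linarith [hs.1]) hw.le
      refine le_trans (le_of_eq (by ring)) (this.trans (le_of_eq ?_))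
      congr 1; push_cast; ring
    have h2 : 0 < s + (‖w‖ + k) := by linarith [hs.1]
    calc |ψ s| / ‖(s : ℂ) + (w + k)‖ ^ (p + 1) ≤ C / ((s + (‖w‖ + k)) / 2) ^ (p + 1) := by
          have := hψ s ⟨hs.1.le, hs.2⟩
          gcongr
      _ = C * 2 ^ (p + 1) * (1 / (s + (‖w‖ + k)) ^ (p + 1)) := by
          rw [div_pow]; field_simp
  have hone := RP_one hp ha0 hwn
  have hp0 : (0:ℝ) < p := by exact_mod_cast hp
  have h1 := key (fun s => φ (s + 1 - a)) a (fun s hs => hC _ ⟨by linarith [hs.1], by linarith [hs.2]⟩)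
    (hφ.comp (by fun_prop)) ha0.le 0 le_rfl
  have h2 : ∀ k : ℕ, ‖A2 φ (p + 1) (w + a + k)‖ ≤
      C * 2 ^ (p + 1) * ∫ s in (0:ℝ)..1, 1 / (s + (‖w‖ + a + k)) ^ (p + 1) := by
    intro k
    have := key φ 1 hC hφ zero_le_one (a + k) (by positivity)
    unfold A2
    rw [show (w + a + k : ℂ) = w + ((a + k : ℝ) : ℂ) by push_cast; ring]
    rw [show ‖w‖ + a + (k:ℝ) = ‖w‖ + (a + k) by ring]
    exact this
  have hs : Summable fun k : ℕ => ∫ s in (0:ℝ)..1, 1 / (s + (‖w‖ + a + k)) ^ (p + 1) := by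
    have h3 := A2_summable (fun _ => 1) (C := 1) (fun s _ => by simp) (p := p + 1) (by omega)
      (w := ((‖w‖ + a : ℝ) : ℂ)) (by simp; linarith)
    have h4 : ∀ k : ℕ, A2 (fun _ => 1) (p + 1) (((‖w‖ + a : ℝ) : ℂ) + k) =
        ((∫ s in (0:ℝ)..1, 1 / (s + (‖w‖ + a + k)) ^ (p + 1) : ℝ) : ℂ) := by
      intro k
      rw [← A2_ofReal]
      push_cast; rfl
    simp_rw [h4] at h3
    exact_mod_cast h3
  have h5 : ‖∑' k : ℕ, A2 φ (p + 1) (w + a + k)‖ ≤
      C * 2 ^ (p + 1) * ∑' k : ℕ, ∫ s in (0:ℝ)..1, 1 / (s + (‖w‖ + a + k)) ^ (p + 1) := by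
    rw [← tsum_mul_left]
    exact tsum_of_norm_bounded (hs.mul_left _).hasSum h2
  unfold PP
  refine (norm_add_le _ _).trans ?_
  have h6 : ‖A1 φ (p + 1) a w‖ ≤ C * 2 ^ (p + 1) * ∫ s in (0:ℝ)..a, 1 / (s + ‖w‖) ^ (p + 1) := by
    simpa [A1] using h1
  calc _ ≤ C * 2 ^ (p + 1) * RP (fun _ => 1) (p + 1) a ‖w‖ := by
        unfold RP
        rw [mul_add]
        exact add_le_add h6 h5
    _ = C * 2 ^ (p + 1) / (p * ‖w‖ ^ p) := by
        have : RP (fun _ => 1) (p + 1) a ‖w‖ = 1 / (p * ‖w‖ ^ p) := by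
          rw [eq_div_iff (by positivity)]
          field_simp at hone
          linarith
        rw [this]; ring

/-- the remainder of the expansion -/
noncomputable def JJ (n : ℕ) (a : ℝ) (w : ℂ) : ℂ :=
  (n + 2 : ℂ) * PP (fun s => bernoulliFun (n + 1) (1 - a) - bernoulliFun (n + 1) s) (n + 3) a w

theorem EMJ {a : ℝ} (ha0 : 0 < a) {w : ℂ} (hw : 0 < w.re) (n : ℕ) :
    ZZ (w + a) = (∑ j ∈ Finset.range (n + 1), (bernoulliFun j (1 - a) : ℂ) / w ^ (j + 1)) + JJ n a w := by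
  have hwa : 0 < (w + a).re := by simp only [add_re, ofReal_re]; linarith
  have hBc : Continuous (bernoulliFun (n + 1)) := (contDiff_bernoulliFun (k := n + 1)).continuous
  obtain ⟨C, hC⟩ := isCompact_Icc.exists_bound_of_continuousOn (s := Set.Icc (0:ℝ) 1) hBc.continuousOn
  set M := bernoulliFun (n + 1) (1 - a) with hM
  have e1 : PP (fun s => M - bernoulliFun (n + 1) s) (n + 3) a w =
      (M : ℂ) * PP (fun _ => 1) (n + 3) a w - PP (bernoulliFun (n + 1)) (n + 3) a w := by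
    unfold PP
    have s1 := A2_summable (fun _ => 1) (C := 1) (fun s _ => by simp) (p := n + 3) (by omega) hwa
    have s2 := A2_summable _ hC (p := n + 3) (by omega) hwa
    have e2 : A1 (fun s => M - bernoulliFun (n + 1) s) (n + 3) a w =
        (M : ℂ) * A1 (fun _ => 1) (n + 3) a w - A1 (bernoulliFun (n + 1)) (n + 3) a w := by
      unfold A1
      rw [← intervalIntegral.integral_const_mul, ← intervalIntegral.integral_sub]
      · refine intervalIntegral.integral_congr fun s _ => ?_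
        push_cast; ring
      · exact (cont_div (fun _ => 1) continuous_const (n + 3) (by linarith) ha0.le).const_mul _
      · exact cont_div (fun s => bernoulliFun (n + 1) (s + 1 - a)) (hBc.comp (by fun_prop)) (n + 3) (by linarith) ha0.le
    have e3 : ∀ k : ℕ, A2 (fun s => M - bernoulliFun (n + 1) s) (n + 3) (w + a + k) =
        (M : ℂ) * A2 (fun _ => 1) (n + 3) (w + a + k) - A2 (bernoulliFun (n + 1)) (n + 3) (w + a + k) := by
      intro k
      have hk : 0 < 0 + (w + a + k).re := by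
        have : (0:ℝ) ≤ k := Nat.cast_nonneg k
        simp only [add_re, ofReal_re, natCast_re]; linarith
      unfold A2
      rw [← intervalIntegral.integral_const_mul, ← intervalIntegral.integral_sub]
      · refine intervalIntegral.integral_congr fun s _ => ?_
        push_cast; ring
      · exact (cont_div (fun _ => 1) continuous_const (n + 3) hk zero_le_one).const_mul _
      · exact cont_div _ hBc (n + 3) hk zero_le_one
    rw [e2]
    simp_rw [e3]
    rw [Summable.tsum_sub (s1.mul_left _) s2, tsum_mul_left]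
    ring
  have h1 := PP_one (p := n + 2) (by omega) ha0 hw
  rw [EM ha0 hw n, Finset.sum_range_succ]
  unfold JJ
  rw [e1]
  push_cast at h1
  linear_combination (-(M : ℂ)) * h1

/-- sign of the remainder -/
lemma JJ_real (n : ℕ) {a x : ℝ} : JJ n a (x : ℂ) =
    (((n : ℝ) + 2) * RP (fun s => bernoulliFun (n + 1) (1 - a) - bernoulliFun (n + 1) s) (n + 3) a x : ℝ) := by
  unfold JJ
  rw [PP_ofReal]
  push_cast; ring

lemma JJ_norm (n : ℕ) {a : ℝ} (ha0 : 0 < a) (ha1 : a < 1) : ∃ C : ℝ, 0 < C ∧ ∀ w : ℂ, 0 < w.re →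
    ‖JJ n a w‖ ≤ C / ‖w‖ ^ (n + 2) := by
  have hBc : Continuous (fun s => bernoulliFun (n + 1) (1 - a) - bernoulliFun (n + 1) s) :=
    continuous_const.sub (contDiff_bernoulliFun (k := n + 1)).continuous
  obtain ⟨C, hC⟩ := isCompact_Icc.exists_bound_of_continuousOn (s := Set.Icc (0:ℝ) 1) hBc.continuousOn
  have hC0 : 0 ≤ C := (norm_nonneg _).trans (hC 0 (by simp))
  refine ⟨C * 2 ^ (n + 3) + 1, by positivity, fun w hw => ?_⟩
  have hwn : 0 < ‖w‖ := norm_pos_iff.2 (by rintro rfl; simp at hw)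
  have h := PP_norm hBc hC (p := n + 2) (by omega) ha0 ha1 hw
  unfold JJ
  rw [norm_mul]
  have e : ‖(n + 2 : ℂ)‖ = (n : ℝ) + 2 := by
    have : (n + 2 : ℂ) = ((n + 2 : ℕ) : ℂ) := by push_cast; ring
    rw [this, Complex.norm_natCast]; push_cast; ring
  rw [e]
  calc ((n:ℝ) + 2) * ‖PP (fun s => bernoulliFun (n + 1) (1 - a) - bernoulliFun (n + 1) s) (n + 3) a w‖
      ≤ ((n:ℝ) + 2) * (C * 2 ^ (n + 3) / ((n + 2 : ℕ) * ‖w‖ ^ (n + 2))) := by gcongr
    _ = C * 2 ^ (n + 3) / ‖w‖ ^ (n + 2) := by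
        push_cast
        field_simp
    _ ≤ (C * 2 ^ (n + 3) + 1) / ‖w‖ ^ (n + 2) := by
        gcongr; linarith

end Pool.Agent.V11273.SN
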