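import Mathlib

set_option autoImplicit false

/-! Definitions for the antiderivatives `S_n(t)` of the argument of the Riemann zeta-function. -/

namespace Pool.Agent.V11273.SN

open MeasureTheory Filter Topology Set Complex

/-- The path from `2` to `2 + it` (for `0 ≤ s ≤ 1`) and then to `1/2 + it` (for `1 ≤ s ≤ 2`), along segments. -/
noncomputable def path (t s : ℝ) : ℂ := ((2 - 3 / 2 * max (s - 1) 0 : ℝ) : ℂ) + ((min s 1 * t : ℝ) : ℂ) * I

/-- `θ` is the argument of `ζ(1/2 + it)` obtained by continuous variation along `path t`, starting from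
`arg ζ(2) = 0`. -/
def IsArg (t θ : ℝ) : Prop :=
  ∃ φ : ℝ → ℝ, ContinuousOn φ (Set.Icc 0 2) ∧ φ 0 = 0 ∧ φ 2 = θ ∧ ∀ s ∈ Set.Icc (0:ℝ) 2,
    riemannZeta (path t s) ≠ 0 ∧
      riemannZeta (path t s) = (‖riemannZeta (path t s)‖ : ℂ) * cexp ((φ s : ℂ) * I)

/-- `t` is the ordinate of a zero of `ζ`. -/
def IsOrd (t : ℝ) : Prop := ∃ β : ℝ, riemannZeta ((β : ℂ) + (t : ℂ) * I) = 0

/-- `(1/π) arg ζ(1/2 + it)`, for `t` not the ordinate of a zero. -/
noncomputable def Sarg (t : ℝ) : ℝ := 1 / Real.pi * Classical.epsilon (fun θ : ℝ => IsArg t θ)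

open Classical in
/-- The function `S(t)`: at ordinates of zeros, the average of the left and right limits. -/
noncomputable def Szero (t : ℝ) : ℝ :=
  if IsOrd t then (limUnder (𝓝[<] t) Sarg + limUnder (𝓝[>] t) Sarg) / 2 else Sarg t

/-- `S_0 = S`, `S_{n+1}(t) = ∫_0^t S_n(τ) dτ + δ_{n+1}`. -/
noncomputable def Sn (δ : ℕ → ℝ) : ℕ → ℝ → ℝ
  | 0 => Szero
  | n + 1 => fun t => (∫ τ in (0:ℝ)..t, Sn δ n τ) + δ (n + 1)

/-- The function `f` has mean value zero. -/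
def MeanZero (f : ℝ → ℝ) : Prop := Tendsto (fun T : ℝ => (1 / T) * ∫ t in (0:ℝ)..T, f t) atTop (𝓝 0)

/-- `M_k = max_{[0,1]} B_k(x)` -/
noncomputable def Mmax (k : ℕ) : ℝ := sSup (bernoulliFun k '' Set.Icc (0:ℝ) 1)

/-- `m_k = min_{[0,1]} B_k(x)` -/
noncomputable def Mmin (k : ℕ) : ℝ := sInf (bernoulliFun k '' Set.Icc (0:ℝ) 1)

/-- `A_n^- = π^n M_{n+1} / (2 (n+1)!)` -/
noncomputable def Aminus (n : ℕ) : ℝ := Real.pi ^ n * Mmax (n + 1) / (2 * (n + 1).factorial)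

/-- `A_n^+ = -π^n m_{n+1} / (2 (n+1)!)` -/
noncomputable def Aplus (n : ℕ) : ℝ := -(Real.pi ^ n * Mmin (n + 1)) / (2 * (n + 1).factorial)

/-- `Λ_n(t) = log t / (log log t)^{n+1}` -/
noncomputable def Lam (n : ℕ) (t : ℝ) : ℝ := Real.log t / Real.log (Real.log t) ^ (n + 1)

end Pool.Agent.V11273.SN
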