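import Pool.Agent.V11273.SN.Phi2

set_option autoImplicit false

namespace Pool.Agent.V11273.SN

open MeasureTheory Filter Topology Set Complex Metric
open scoped ArithmeticFunction

/-- the coefficients -/
noncomputable def aj (j m : ℕ) : ℂ := ((ArithmeticFunction.vonMangoldt m / Real.log m ^ j : ℝ) : ℂ)

lemma aj_zero : aj 0 = fun n => (ArithmeticFunction.vonMangoldt n : ℂ) := by
  funext m; simp [aj]

lemma aj_one (j : ℕ) : aj j 1 = 0 := by simp [aj]

lemma aj_norm (j m : ℕ) : ‖aj (j + 1) m‖ ≤ (1 / Real.log 2) ^ j := by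
  have hl2 : 0 < Real.log 2 := Real.log_pos (by norm_num)
  rcases Nat.lt_or_ge m 2 with hm | hm
  · have : aj (j + 1) m = 0 := by
      interval_cases m
      · simp [aj]
      · exact aj_one _
    rw [this, norm_zero]; positivity
  · have hm' : (2:ℝ) ≤ m := by exact_mod_cast hm
    have hlm : Real.log 2 ≤ Real.log m := Real.log_le_log (by norm_num) hm'
    have hlm0 : 0 < Real.log m := by linarith
    unfold aj
    rw [Complex.norm_real, Real.norm_eq_abs, abs_of_nonneg (div_nonneg ArithmeticFunction.vonMangoldt_nonneg (by positivity))]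
    rw [div_le_iff₀ (by positivity)]
    have h1 : ArithmeticFunction.vonMangoldt m ≤ Real.log m := ArithmeticFunction.vonMangoldt_le_log
    refine h1.trans ?_
    rw [pow_succ, ← mul_assoc, ← mul_pow]
    have h2 : 1 ≤ 1 / Real.log 2 * Real.log m := by
      rw [one_div_mul_eq_div, le_div_iff₀ hl2, one_mul]; exact hlm
    have h3 : 1 ≤ (1 / Real.log 2 * Real.log m) ^ j := one_le_pow₀ h2
    nlinarith

lemma aj_absc (j : ℕ) : LSeries.abscissaOfAbsConv (aj (j + 1)) ≤ 1 :=
  LSeries.abscissaOfAbsConv_le_of_le_const ⟨_, fun n _ => aj_norm j n⟩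

lemma aj_logMul (j : ℕ) : LSeries.logMul (aj (j + 1)) = aj j := by
  funext m
  show Complex.log m * aj (j + 1) m = aj j m
  rcases Nat.lt_or_ge m 2 with hm | hm
  · interval_cases m
    · simp [aj]
    · simp [aj]
  · have hm' : (2:ℝ) ≤ m := by exact_mod_cast hm
    have hlm : 0 < Real.log m := Real.log_pos (by linarith)
    have h1 : Complex.log (m : ℂ) = ((Real.log m : ℝ) : ℂ) := by
      rw [Complex.natCast_log]
    rw [h1]
    unfold aj
    rw [← Complex.ofReal_mul]
    congr 1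
    rw [pow_succ]
    field_simp

lemma aj_lt {j : ℕ} {s : ℂ} (hs : 1 < s.re) : LSeries.abscissaOfAbsConv (aj (j + 1)) < s.re :=
  lt_of_le_of_lt (aj_absc j) (by exact_mod_cast hs)

lemma aj_summable {j : ℕ} {s : ℂ} (hs : 1 < s.re) : LSeriesSummable (aj (j + 1)) s :=
  LSeriesSummable_of_abscissaOfAbsConv_lt_re (aj_lt hs)

/-- the Dirichlet series for the iterated primitives -/
theorem Ph_series (h : RHz) (j : ℕ) : ∀ z : ℂ, 1 / 2 < z.re → 2 < z.im → Ph j z = LSeries (aj j) (1 / 2 + z) := by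
  induction j with
  | zero =>
    intro z hz _
    show Lf z = _
    rw [Lf_series hz, aj_zero]
  | succ j ih =>
    intro z hz hz2
    have hmem : ∀ u : ℝ, 0 ≤ u → z + u ∈ Om := fun u hu =>
      ⟨by rw [add_re']; linarith, by rw [add_im']; exact hz2⟩
    have hre : ∀ u : ℝ, 0 ≤ u → 1 / 2 < (z + u).re := fun u hu => by rw [add_re']; linarith
    set D : ℝ → ℂ := fun u => Ph (j + 1) (z + u) - LSeries (aj (j + 1)) (1 / 2 + (z + u)) with hD
    have hd : ∀ u : ℝ, 0 ≤ u → HasDerivAt D 0 u := by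
      intro u hu
      have h1 : HasDerivAt (fun w : ℂ => Ph (j + 1) (z + w)) (-Ph j (z + u)) (u : ℂ) :=
        (Ph_deriv h j (hmem u hu)).comp_const_add z (u : ℂ)
      have h2 : HasDerivAt (LSeries (aj (j + 1))) (-LSeries (aj j) (1 / 2 + (z + u))) (1 / 2 + (z + u)) := by
        have := LSeries_hasDerivAt (f := aj (j + 1)) (s := 1 / 2 + (z + u)) (aj_lt (by
          rw [half_re]; linarith [hre u hu]))
        rwa [aj_logMul] at this
      have h3 : HasDerivAt (fun w : ℂ => LSeries (aj (j + 1)) (1 / 2 + (z + w))) (-LSeries (aj j) (1 / 2 + (z + u)))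
          (u : ℂ) := by
        have h4 : HasDerivAt (fun w : ℂ => (1 / 2 + (z + w) : ℂ)) 1 (u : ℂ) :=
          ((hasDerivAt_id (u : ℂ)).const_add z).const_add (1 / 2)
        have := h2.comp (u : ℂ) h4
        rw [mul_one] at this
        exact this
      have h5 := (h1.sub h3).comp_ofReal
      rw [ih (z + u) (hre u hu) (by rw [add_im']; exact hz2)] at h5
      rw [hD]
      simpa using h5
    have hconst : ∀ u : ℝ, 0 ≤ u → D u = D 0 := by
      intro u hu
      have := constant_of_has_deriv_right_zero (f := D) (a := 0) (b := u)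
        (fun x hx => (hd x hx.1).continuousAt.continuousWithinAt) (fun x hx => (hd x hx.1).hasDerivWithinAt)
      exact this u ⟨hu, le_rfl⟩
    have htend : Tendsto D atTop (𝓝 0) := by
      obtain ⟨φ, C, hC⟩ := Ph_any h (j + 1)
      obtain ⟨C2, hC2, h2⟩ := LSeries_right (aj (j + 1)) (aj_one _) (x0 := z.re + 1 / 2)
        (aj_summable (by rw [ofReal_re]; linarith))
      have t0 : Tendsto (fun u : ℝ => (2:ℝ) ^ (-u)) atTop (𝓝 0) := by
        simp_rw [two_rpow_exp]
        refine Real.tendsto_exp_atBot.comp ?_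
        have h0 : -Real.log 2 < 0 := by
          have := Real.log_pos (show (1:ℝ) < 2 by norm_num)
          linarith
        exact tendsto_id.const_mul_atTop_of_neg h0
      have t1 : Tendsto (fun u : ℝ => (C * Real.log z.im * φ z.re + C2) * (2:ℝ) ^ (-u)) atTop (𝓝 0) := by
        simpa using t0.const_mul (C * Real.log z.im * φ z.re + C2)
      refine squeeze_zero_norm' ?_ t1
      filter_upwards [eventually_ge_atTop 0] with u hu
      rw [hD]
      simp only
      refine (norm_sub_le _ _).trans ?_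
      rw [add_mul]
      have b1 := hC.bd (z + u) (hmem u hu)
      rw [add_re', add_im'] at b1
      have b2 := h2 (1 / 2 + (z + u)) (by rw [half_re, add_re']; linarith)
      rw [half_re, add_re'] at b2
      have b3 : (2:ℝ) ^ (-(z.re + u)) ≤ 2 ^ (-u) := Real.rpow_le_rpow_of_exponent_le (by norm_num) (by linarith)
      have b4 : (2:ℝ) ^ (-(1 / 2 + (z.re + u))) ≤ 2 ^ (-u) :=
        Real.rpow_le_rpow_of_exponent_le (by norm_num) (by linarith)
      have b5 : φ (z.re + u) ≤ φ z.re := hC.anti _ _ (by linarith) (by linarith)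
      have b6 := hC.nonneg z.re (by linarith)
      have b7 := hC.nonneg (z.re + u) (by linarith)
      have b8 := Real.log_nonneg (show (1:ℝ) ≤ z.im by linarith)
      have b9 := hC.pos
      refine add_le_add (b1.trans ?_) (b2.trans ?_)
      · have : 0 ≤ C * Real.log z.im := mul_nonneg b9.le b8
        gcongr
      · gcongr
    have h0 : D 0 = 0 := by
      have : Tendsto D atTop (𝓝 (D 0)) := by
        refine tendsto_const_nhds.congr' ?_
        filter_upwards [eventually_ge_atTop 0] with u hu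
        exact (hconst u hu).symm
      exact tendsto_nhds_unique this htend
    rw [hD] at h0
    simp only [ofReal_zero, add_zero] at h0
    exact sub_eq_zero.1 h0

/-- the partial sums -/
noncomputable def AN (j N : ℕ) (z : ℂ) : ℂ := ∑ m ∈ Finset.range (N + 1), LSeries.term (aj j) (1 / 2 + z) m

/-- the tails -/
noncomputable def BN (j N : ℕ) (z : ℂ) : ℂ := Ph j z - AN j N z

lemma AN_diff (j N : ℕ) : Differentiable ℂ (AN j N) := by
  intro z
  unfold AN
  refine DifferentiableAt.fun_sum fun m _ => ?_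
  have h1 := (LSeries.hasDerivAt_term (aj j) m (1 / 2 + z)).differentiableAt
  exact h1.comp z (by fun_prop)

lemma sum_rsqrt (N : ℕ) : ∑ m ∈ Finset.range (N + 1), (if m = 0 then (0:ℝ) else 1 / Real.sqrt m) ≤ 2 * Real.sqrt N := by
  induction N with
  | zero => simp
  | succ N ih =>
    rw [Finset.sum_range_succ, if_neg (by omega)]
    have h1 : (0:ℝ) ≤ N := Nat.cast_nonneg N
    push_cast
    set a := Real.sqrt (N : ℝ)
    set b := Real.sqrt ((N : ℝ) + 1)
    have hb : 0 < b := Real.sqrt_pos.2 (by linarith)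
    have ha : 0 ≤ a := Real.sqrt_nonneg _
    have ha2 : a ^ 2 = N := Real.sq_sqrt h1
    have hb2 : b ^ 2 = N + 1 := Real.sq_sqrt (by linarith)
    have h2 : 1 / b ≤ 2 * b - 2 * a := by
      rw [div_le_iff₀ hb]
      nlinarith [sq_nonneg (b - a)]
    linarith

lemma AN_bd (j N : ℕ) {z : ℂ} (hz : 0 ≤ z.re) : ‖AN (j + 1) N z‖ ≤ (1 / Real.log 2) ^ j * (2 * Real.sqrt N) := by
  have hl2 : 0 < Real.log 2 := Real.log_pos (by norm_num)
  unfold AN
  refine (norm_sum_le _ _).trans ?_
  have h1 : ∀ m ∈ Finset.range (N + 1), ‖LSeries.term (aj (j + 1)) (1 / 2 + z) m‖ ≤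
      (1 / Real.log 2) ^ j * (if m = 0 then (0:ℝ) else 1 / Real.sqrt m) := by
    intro m _
    rw [LSeries.norm_term_eq]
    split_ifs with hm
    · simp
    · have hm1 : (1:ℝ) ≤ m := by exact_mod_cast Nat.one_le_iff_ne_zero.2 hm
      rw [half_re, div_eq_mul_inv]
      have h2 : Real.sqrt m ≤ (m:ℝ) ^ (1 / 2 + z.re) := by
        rw [Real.sqrt_eq_rpow]
        exact Real.rpow_le_rpow_of_exponent_le hm1 (by linarith)
      have h3 : 0 < Real.sqrt m := Real.sqrt_pos.2 (by linarith)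
      rw [one_div (Real.sqrt _)]
      have := aj_norm j m
      gcongr
  refine (Finset.sum_le_sum h1).trans ?_
  rw [← Finset.mul_sum]
  gcongr
  exact sum_rsqrt N

lemma tail_sum {N : ℕ} (hN : 1 ≤ N) (K : ℕ) :
    ∑ k ∈ Finset.range K, 1 / ((k + (N + 1) : ℕ) : ℝ) ^ (3 / 2 : ℝ) ≤
      2 * (1 / Real.sqrt N - 1 / Real.sqrt ((K + N : ℕ) : ℝ)) := by
  induction K with
  | zero => simp
  | succ K ih =>
    rw [Finset.sum_range_succ]
    have h1 : (1:ℝ) ≤ ((K + N : ℕ) : ℝ) := by exact_mod_cast (by omega : 1 ≤ K + N)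
    set x : ℝ := ((K + N : ℕ) : ℝ) with hx
    have e1 : ((K + (N + 1) : ℕ) : ℝ) = x + 1 := by rw [hx]; push_cast; ring
    have e2 : ((K + 1 + N : ℕ) : ℝ) = x + 1 := by rw [hx]; push_cast; ring
    rw [e1, e2]
    set a := Real.sqrt x
    set b := Real.sqrt (x + 1)
    have ha : 0 < a := Real.sqrt_pos.2 (by linarith)
    have hb : 0 < b := Real.sqrt_pos.2 (by linarith)
    have ha2 : a ^ 2 = x := Real.sq_sqrt (by linarith)
    have hb2 : b ^ 2 = x + 1 := Real.sq_sqrt (by linarith)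
    have h3 : (x + 1) ^ (3 / 2 : ℝ) = b ^ 3 := by
      rw [show b ^ 3 = (x + 1) ^ (1 / 2 * (3:ℕ) : ℝ) by
        rw [Real.rpow_mul (by linarith), ← Real.sqrt_eq_rpow, Real.rpow_natCast]]
      norm_num
    rw [h3]
    have hab : a ≤ b := Real.sqrt_le_sqrt (by linarith)
    have h4 : 1 / b ^ 3 ≤ 2 * (1 / a - 1 / b) := by
      have h5 : 1 / a - 1 / b = (b - a) / (a * b) := by field_simp
      have h6 : (b - a) * (b + a) = 1 := by nlinarith
      have h7 : b - a = 1 / (b + a) := by field_simp; linarith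
      rw [h5, h7, div_div, mul_one_div, div_le_div_iff₀ (by positivity) (by positivity)]
      have h8 : (b + a) * (a * b) ≤ (2 * b) * (b * b) := by gcongr; linarith
      nlinarith
    linarith

lemma BN_bd (h : RHz) (j : ℕ) {N : ℕ} (hN : 1 ≤ N) {z : ℂ} (hz : 1 ≤ z.re) (hz2 : 2 < z.im) :
    ‖BN (j + 1) N z‖ ≤ (1 / Real.log 2) ^ j * (2 * Real.sqrt N * (N : ℝ) ^ (-z.re)) := by
  have hl2 : 0 < Real.log 2 := Real.log_pos (by norm_num)
  have hN1 : (1:ℝ) ≤ N := by exact_mod_cast hN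
  have hsum := aj_summable (j := j) (s := 1 / 2 + z) (by rw [half_re]; linarith)
  have e1 : BN (j + 1) N z = ∑' k : ℕ, LSeries.term (aj (j + 1)) (1 / 2 + z) (k + (N + 1)) := by
    unfold BN
    rw [Ph_series h (j + 1) z (by linarith) hz2]
    have h2 := Summable.sum_add_tsum_nat_add (N + 1) hsum
    unfold AN LSeries
    rw [← h2]; ring
  rw [e1]
  have hterm : ∀ k : ℕ, ‖LSeries.term (aj (j + 1)) (1 / 2 + z) (k + (N + 1))‖ ≤
      (1 / Real.log 2) ^ j * ((N : ℝ) ^ (1 - z.re) * (1 / ((k + (N + 1) : ℕ) : ℝ) ^ (3 / 2 : ℝ))) := by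
    intro k
    rw [LSeries.norm_term_eq, if_neg (by omega), half_re]
    set x : ℝ := ((k + (N + 1) : ℕ) : ℝ) with hx
    have hxN : (N:ℝ) ≤ x := by rw [hx]; exact_mod_cast (by omega : N ≤ k + (N + 1))
    have hx0 : 0 < x := by linarith
    have h3 : x ^ (1 / 2 + z.re) = x ^ (3 / 2 : ℝ) * x ^ (z.re - 1) := by
      rw [← Real.rpow_add hx0]; congr 1; ring
    have h4 : (N:ℝ) ^ (z.re - 1) ≤ x ^ (z.re - 1) := Real.rpow_le_rpow (by linarith) hxN (by linarith)
    have h5 : (N:ℝ) ^ (1 - z.re) = ((N:ℝ) ^ (z.re - 1))⁻¹ := by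
      rw [← Real.rpow_neg (by linarith)]; congr 1; ring
    rw [h3, h5, div_eq_mul_inv, mul_inv, one_div (x ^ (3 / 2 : ℝ)), mul_comm (x ^ (3 / 2 : ℝ))⁻¹]
    have h6 : 0 < (N:ℝ) ^ (z.re - 1) := Real.rpow_pos_of_pos (by linarith) _
    have := aj_norm j (k + (N + 1))
    gcongr
  have hpart : ∀ K : ℕ, ∑ k ∈ Finset.range K, 1 / ((k + (N + 1) : ℕ) : ℝ) ^ (3 / 2 : ℝ) ≤ 2 / Real.sqrt N := by
    intro K
    refine (tail_sum hN K).trans ?_
    have : 0 ≤ 1 / Real.sqrt ((K + N : ℕ) : ℝ) := by positivity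
    rw [mul_sub, mul_one_div]
    linarith
  have hs1 : Summable fun k : ℕ => 1 / ((k + (N + 1) : ℕ) : ℝ) ^ (3 / 2 : ℝ) :=
    summable_of_sum_range_le (fun k => by positivity) hpart
  have hs2 : ∑' k : ℕ, 1 / ((k + (N + 1) : ℕ) : ℝ) ^ (3 / 2 : ℝ) ≤ 2 / Real.sqrt N :=
    Real.tsum_le_of_sum_range_le (fun k => by positivity) hpart
  have h7 := tsum_of_norm_bounded ((hs1.mul_left ((N : ℝ) ^ (1 - z.re))).mul_left ((1 / Real.log 2) ^ j)).hasSum hterm
  rw [tsum_mul_left, tsum_mul_left] at h7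
  refine h7.trans ?_
  have h8 : (N : ℝ) ^ (1 - z.re) * (2 / Real.sqrt N) = 2 * Real.sqrt N * (N : ℝ) ^ (-z.re) := by
    rw [show (1 - z.re) = 1 + -z.re by ring, Real.rpow_add (by linarith), Real.rpow_one]
    have : 0 < Real.sqrt N := Real.sqrt_pos.2 (by linarith)
    field_simp
    rw [Real.sq_sqrt (by linarith)]
  rw [← h8]
  gcongr

end Pool.Agent.V11273.SN
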