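import Pool.Agent.V11273.SN.IntE2

set_option autoImplicit false

namespace Pool.Agent.V11273.SN

open MeasureTheory Filter Topology Set Complex Metric

variable {n : ℕ} {α : ℝ}

/-- real version of the difference -/
noncomputable def Er (n : ℕ) (α y : ℝ) : ℝ := (Ec n α y).re

lemma sinr (α y : ℝ) : Complex.sin (Real.pi * ((y : ℂ) - α)) ^ 2 / Real.pi ^ 2 =
    ((Real.sin (Real.pi * (y - α)) ^ 2 / Real.pi ^ 2 : ℝ) : ℂ) := by
  push_cast; rfl

lemma Ec_eq_neg (hn0 : 0 < n) (hα0 : 0 < α) (hB : bernoulliFun n α = 0) {y : ℝ} (hy : y < 0) :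
    Ec n α y = ((Real.sin (Real.pi * (y - α)) ^ 2 / Real.pi ^ 2 * (y ^ n * (((n : ℝ) + 2) *
      RP (fun s => bernoulliFun (n + 1) (1 - α) - bernoulliFun (n + 1) s) (n + 3) α (-y))) : ℝ) : ℂ) := by
  rw [Ec_neg hn0 hy.le, FF_neg hα0 hB (by simpa using hy), sinr, ← Complex.ofReal_neg, JJ_real]
  push_cast; rfl

lemma Ec_eq_pos (hα1 : α < 1) (hB : bernoulliFun n α = 0) {y : ℝ} (hy : 0 < y) :
    Ec n α y = ((-(Real.sin (Real.pi * (y - α)) ^ 2 / Real.pi ^ 2 * (y ^ n * (((n : ℝ) + 2) *
      RP (fun s => bernoulliFun (n + 1) (1 - (1 - α)) - bernoulliFun (n + 1) s) (n + 3) (1 - α) y))) : ℝ) : ℂ) := by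
  rw [Ec_pos hy.le, FF_pos hα1 hB (by simpa using hy), sinr, JJ_real]
  push_cast; ring

lemma Ec_real (hn0 : 0 < n) (hα0 : 0 < α) (hα1 : α < 1) (hB : bernoulliFun n α = 0) (y : ℝ) :
    Ec n α y = (Er n α y : ℂ) := by
  have key : ∀ y : ℝ, y ≠ 0 → (Ec n α y).im = 0 := by
    intro y hy
    rcases lt_or_gt_of_ne hy with h | h
    · rw [Ec_eq_neg hn0 hα0 hB h, ofReal_im]
    · rw [Ec_eq_pos hα1 hB h, ofReal_im]
  have h0 : (Ec n α y).im = 0 := by
    by_cases hy : y = 0
    · have hc : Continuous fun y : ℝ => (Ec n α y).im := Complex.continuous_im.comp (Ec_cont n α)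
      have h1 : Tendsto (fun y : ℝ => (Ec n α y).im) (𝓝[≠] 0) (𝓝 (Ec n α 0).im) :=
        (hc.tendsto 0).mono_left nhdsWithin_le_nhds
      have h2 : Tendsto (fun y : ℝ => (Ec n α y).im) (𝓝[≠] 0) (𝓝 0) := by
        refine tendsto_const_nhds.congr' ?_
        filter_upwards [self_mem_nhdsWithin] with y hy
        exact (key y hy).symm
      rw [hy]
      exact tendsto_nhds_unique h1 h2
    · exact key y hy
  apply Complex.ext
  · rfl
  · simpa using h0

lemma Er_cont (n : ℕ) (α : ℝ) : Continuous (Er n α) := Complex.continuous_re.comp (Ec_cont n α)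

/-- the sign in the two extremal cases: `σ = 1` for the majorant, `σ = -1` for the minorant -/
theorem Er_sign (hn : Even n) (hn0 : 0 < n) (hα0 : 0 < α) (hα1 : α < 1) (hB : bernoulliFun n α = 0) {σ : ℝ}
    (hσ : ∀ s ∈ Set.Icc (0:ℝ) 1, σ * bernoulliFun (n + 1) s ≤ σ * bernoulliFun (n + 1) (1 - α)) (y : ℝ) :
    0 ≤ σ * Er n α y := by
  have hodd : ∀ s, bernoulliFun (n + 1) (1 - s) = -bernoulliFun (n + 1) s := by
    intro s
    rw [bernoulliFun_eval_one_sub, hn.add_one.neg_one_pow]; ring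
  have scal : ∀ (φ : ℝ → ℝ) (p : ℕ) (a x : ℝ), σ * RP φ p a x = RP (fun s => σ * φ s) p a x := by
    intro φ p a x
    unfold RP
    rw [mul_add, ← tsum_mul_left, ← intervalIntegral.integral_const_mul]
    congr 1
    · refine intervalIntegral.integral_congr fun s _ => ?_
      simp only; ring
    · refine tsum_congr fun k => ?_
      rw [← intervalIntegral.integral_const_mul]
      refine intervalIntegral.integral_congr fun s _ => ?_
      simp only; ring
  have key : ∀ y : ℝ, y ≠ 0 → 0 ≤ σ * Er n α y := by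
    intro y hy
    have hyn : 0 ≤ y ^ n := hn.pow_nonneg y
    rcases lt_or_gt_of_ne hy with h | h
    · unfold Er
      rw [Ec_eq_neg hn0 hα0 hB h, ofReal_re]
      have h1 : 0 ≤ σ * RP (fun s => bernoulliFun (n + 1) (1 - α) - bernoulliFun (n + 1) s) (n + 3) α (-y) := by
        rw [scal]
        refine RP_nonneg (fun s hs => ?_) _ hα0 hα1 (by linarith)
        have := hσ s hs
        linarith
      have h2 : 0 ≤ Real.sin (Real.pi * (y - α)) ^ 2 / Real.pi ^ 2 * (y ^ n * ((n : ℝ) + 2)) := by positivity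
      have := mul_nonneg h2 h1
      linarith
    · unfold Er
      rw [Ec_eq_pos hα1 hB h, ofReal_re]
      have h1 : 0 ≤ -(σ * RP (fun s => bernoulliFun (n + 1) (1 - (1 - α)) - bernoulliFun (n + 1) s) (n + 3) (1 - α) y) := by
        rw [← neg_mul, show -σ * RP (fun s => bernoulliFun (n + 1) (1 - (1 - α)) - bernoulliFun (n + 1) s) (n + 3)
          (1 - α) y = σ * RP (fun s => -(bernoulliFun (n + 1) (1 - (1 - α)) - bernoulliFun (n + 1) s)) (n + 3) (1 - α) y by
            have := scal (fun s => -(bernoulliFun (n + 1) (1 - (1 - α)) - bernoulliFun (n + 1) s)) (n + 3) (1 - α) y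
            have h3 : RP (fun s => -(bernoulliFun (n + 1) (1 - (1 - α)) - bernoulliFun (n + 1) s)) (n + 3) (1 - α) y =
                -RP (fun s => bernoulliFun (n + 1) (1 - (1 - α)) - bernoulliFun (n + 1) s) (n + 3) (1 - α) y := by
              unfold RP
              rw [neg_add, ← tsum_neg, ← intervalIntegral.integral_neg]
              congr 1
              · refine intervalIntegral.integral_congr fun s _ => ?_
                simp only; ring
              · refine tsum_congr fun k => ?_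
                rw [← intervalIntegral.integral_neg]
                refine intervalIntegral.integral_congr fun s _ => ?_
                simp only; ring
            rw [h3]; ring]
        rw [scal]
        refine RP_nonneg (fun s hs => ?_) _ (by linarith) (by linarith) h
        have h4 := hσ (1 - s) ⟨by linarith [hs.2], by linarith [hs.1]⟩
        rw [hodd s, hodd α] at h4
        rw [sub_sub_cancel]
        linarith
      have h2 : 0 ≤ Real.sin (Real.pi * (y - α)) ^ 2 / Real.pi ^ 2 * (y ^ n * ((n : ℝ) + 2)) := by positivity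
      have := mul_nonneg h2 h1
      linarith
  by_cases hy : y = 0
  · have hc : Continuous fun y : ℝ => σ * Er n α y := continuous_const.mul (Er_cont n α)
    have h1 : Tendsto (fun y : ℝ => σ * Er n α y) (𝓝[≠] 0) (𝓝 (σ * Er n α 0)) :=
      (hc.tendsto 0).mono_left nhdsWithin_le_nhds
    rw [hy]
    refine ge_of_tendsto h1 ?_
    filter_upwards [self_mem_nhdsWithin] with y hy
    exact key y hy
  · exact key y hy

lemma Er_integral (hn : Even n) (hn0 : 0 < n) (hα0 : 0 < α) (hα1 : α < 1) (hB : bernoulliFun n α = 0) :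
    ∫ y : ℝ, Er n α y = -bernoulliFun (n + 1) α / (n + 1) := by
  have h := Ec_integral hn hn0 hα0 hα1 hB
  simp_rw [Ec_real hn0 hα0 hα1 hB] at h
  rw [integral_complex_ofReal] at h
  exact_mod_cast h

lemma Er_bound (hn : 0 < n) (hα0 : 0 < α) (hα1 : α < 1) (hB : bernoulliFun n α = 0) : ∃ C : ℝ, 0 < C ∧
    ∀ y : ℝ, |Er n α y| ≤ C / (1 + y ^ 2) := by
  obtain ⟨C, hC, h⟩ := Ec_bound hn hα0 hα1 hB
  exact ⟨C, hC, fun y => (Complex.abs_re_le_norm _).trans (h y)⟩

/-- existence of the node -/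
theorem exists_alpha (hn : Even n) (hn0 : 0 < n) {σ : ℝ} (hσ : σ = 1 ∨ σ = -1) :
    ∃ α : ℝ, 0 < α ∧ α < 1 ∧ bernoulliFun n α = 0 ∧
      ∀ s ∈ Set.Icc (0:ℝ) 1, σ * bernoulliFun (n + 1) s ≤ σ * bernoulliFun (n + 1) (1 - α) := by
  have hc : Continuous fun s : ℝ => σ * bernoulliFun (n + 1) s :=
    continuous_const.mul (contDiff_bernoulliFun (k := n + 1)).continuous
  obtain ⟨β, hβ, hmax⟩ := isCompact_Icc.exists_isMaxOn (s := Set.Icc (0:ℝ) 1) ⟨0, by simp⟩ hc.continuousOn
  have hσ0 : σ ≠ 0 := by rcases hσ with h | h <;> rw [h] <;> norm_num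
  have hodd : ∀ s, bernoulliFun (n + 1) (1 - s) = -bernoulliFun (n + 1) s := by
    intro s
    rw [bernoulliFun_eval_one_sub, hn.add_one.neg_one_pow]; ring
  have h01 : bernoulliFun (n + 1) 1 = bernoulliFun (n + 1) 0 := bernoulliFun_endpoints_eq_of_ne_one (by omega)
  have hz0 : bernoulliFun (n + 1) 0 = 0 := by
    have := hodd 0
    rw [sub_zero, h01] at this
    linarith
  have hz1 : bernoulliFun (n + 1) 1 = 0 := by rw [h01, hz0]
  -- the maximum is positive
  have hpos : 0 < σ * bernoulliFun (n + 1) β := by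
    by_contra hle
    push Not at hle
    have hall : ∀ s ∈ Set.Icc (0:ℝ) 1, bernoulliFun (n + 1) s = 0 := by
      intro s hs
      have h1 : σ * bernoulliFun (n + 1) s ≤ σ * bernoulliFun (n + 1) β := hmax hs
      have h2 : σ * bernoulliFun (n + 1) (1 - s) ≤ σ * bernoulliFun (n + 1) β :=
        hmax ⟨by linarith [hs.2], by linarith [hs.1]⟩
      rw [hodd s] at h2
      have h3 : σ * bernoulliFun (n + 1) s = 0 := by linarith
      exact (mul_eq_zero.1 h3).resolve_left hσ0
    -- all derivatives vanish on the interior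
    have hder : ∀ j ≤ n + 1, ∀ s ∈ Set.Ioo (0:ℝ) 1, bernoulliFun (n + 1 - j) s = 0 := by
      intro j
      induction j with
      | zero => intro _ s hs; exact hall s ⟨hs.1.le, hs.2.le⟩
      | succ j ih =>
        intro hj s hs
        have h1 := hasDerivAt_bernoulliFun (n + 1 - j) s
        have h2 : HasDerivAt (bernoulliFun (n + 1 - j)) 0 s := by
          have : (fun _ : ℝ => (0:ℝ)) =ᶠ[𝓝 s] bernoulliFun (n + 1 - j) := by
            filter_upwards [Ioo_mem_nhds hs.1 hs.2] with u hu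
            exact (ih (by omega) u hu).symm
          exact (hasDerivAt_const s (0:ℝ)).congr_of_eventuallyEq this.symm
        have h3 := h1.unique h2
        rw [show n + 1 - j - 1 = n + 1 - (j + 1) by omega] at h3
        refine (mul_eq_zero.1 h3).resolve_left ?_
        have : n + 1 - j ≠ 0 := by omega
        exact_mod_cast this
    have := hder (n + 1) le_rfl (1 / 2) ⟨by norm_num, by norm_num⟩
    rw [Nat.sub_self, bernoulliFun_zero] at this
    exact one_ne_zero this
  have hβ0 : β ≠ 0 := by rintro rfl; rw [hz0, mul_zero] at hpos; exact lt_irrefl _ hpos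
  have hβ1 : β ≠ 1 := by rintro rfl; rw [hz1, mul_zero] at hpos; exact lt_irrefl _ hpos
  have hβ' : β ∈ Set.Ioo (0:ℝ) 1 := ⟨lt_of_le_of_ne hβ.1 (Ne.symm hβ0), lt_of_le_of_ne hβ.2 hβ1⟩
  have hloc : IsLocalMax (fun s : ℝ => σ * bernoulliFun (n + 1) s) β :=
    hmax.isLocalMax (Icc_mem_nhds hβ'.1 hβ'.2)
  have hd : HasDerivAt (fun s : ℝ => σ * bernoulliFun (n + 1) s) (σ * (((n + 1 : ℕ) : ℝ) * bernoulliFun (n + 1 - 1) β)) β :=
    (hasDerivAt_bernoulliFun (n + 1) β).const_mul σ
  have h1 := hloc.hasDerivAt_eq_zero hd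
  have h2 : bernoulliFun n β = 0 := by
    rw [Nat.add_sub_cancel] at h1
    have h3 := (mul_eq_zero.1 h1).resolve_left hσ0
    refine (mul_eq_zero.1 h3).resolve_left ?_
    exact_mod_cast Nat.succ_ne_zero n
  refine ⟨1 - β, by linarith [hβ'.2], by linarith [hβ'.1], ?_, fun s hs => ?_⟩
  · rw [bernoulliFun_eval_one_sub, h2, mul_zero]
  · rw [sub_sub_cancel]
    exact hmax hs

end Pool.Agent.V11273.SN
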