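import Pool.Agent.V11273.SN.Dir
import Pool.Agent.V11273.SN.Sign

set_option autoImplicit false

namespace Pool.Agent.V11273.SN

open MeasureTheory Filter Topology Set Complex Metric

variable {n : ℕ} {α : ℝ}

/-- the scaled kernel -/
noncomputable def KD (n : ℕ) (α D : ℝ) (w : ℂ) : ℂ := D * iteratedDeriv (n + 1) (FF n α) (D * w)

lemma KD_diff (n : ℕ) (α D : ℝ) : Differentiable ℂ (KD n α D) := by
  have hKd : Differentiable ℂ (iteratedDeriv (n + 1) (FF n α)) :=
    ((FF_diff n α).contDiff (n := ⊤)).differentiable_iteratedDeriv (n + 1) (by exact_mod_cast WithTop.coe_lt_top _)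
  unfold KD
  exact (hKd.comp (by fun_prop : Differentiable ℂ fun w : ℂ => (D * w : ℂ))).const_mul _

lemma KD_bd (hα0 : 0 < α) (hα1 : α < 1) (hB : bernoulliFun n α = 0) : ∃ C : ℝ, 0 < C ∧ ∀ D : ℝ, 1 ≤ D → ∀ x y : ℝ,
    ‖KD n α D (x + y * I)‖ ≤ C * Real.exp (2 * Real.pi * (D * |y|)) * (D * (1 + (D * x) ^ 2)⁻¹) := by
  obtain ⟨C, hC, h⟩ := KB hα0 hα1 hB
  refine ⟨C, hC, fun D hD x y => ?_⟩
  have hD0 : 0 < D := by linarith
  unfold KD
  have e1 : (D * (x + y * I) : ℂ) = ((D * x : ℝ) : ℂ) + ((D * y : ℝ) : ℂ) * I := by push_cast; ring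
  have h1 := h (D * (x + y * I))
  rw [e1, norm_sq_add] at h1
  have e2 : (((D * x : ℝ) : ℂ) + ((D * y : ℝ) : ℂ) * I).im = D * y := by simp
  rw [e2, abs_mul, abs_of_pos hD0] at h1
  rw [norm_mul, Complex.norm_real, Real.norm_eq_abs, abs_of_pos hD0, e1]
  have h2 : C * Real.exp (2 * Real.pi * (D * |y|)) / (1 + ((D * x) ^ 2 + (D * y) ^ 2)) ≤
      C * Real.exp (2 * Real.pi * (D * |y|)) * (1 + (D * x) ^ 2)⁻¹ := by
    rw [div_eq_mul_inv]
    gcongr
    nlinarith [sq_nonneg (D * y)]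
  calc _ ≤ D * (C * Real.exp (2 * Real.pi * (D * |y|)) * (1 + (D * x) ^ 2)⁻¹) := by gcongr; exact h1.trans h2
    _ = _ := by ring

lemma int_kernel {D Y : ℝ} (hY : 0 ≤ Y) : ∫ y in (-Y)..Y, D * (1 + (D * y) ^ 2)⁻¹ ≤ Real.pi := by
  rw [intervalIntegral.integral_const_mul, intervalIntegral.mul_integral_comp_mul_left (f := fun x => (1 + x ^ 2)⁻¹),
    integral_inv_one_add_sq]
  have h1 := Real.arctan_lt_pi_div_two (D * Y)
  have h2 := Real.neg_pi_div_two_lt_arctan (D * -Y)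
  linarith

/-- the error integral -/
theorem err_bound (h : RHz) (hn : 1 ≤ n) (hα0 : 0 < α) (hα1 : α < 1) (hB : bernoulliFun n α = 0) :
    ∃ C : ℝ, 0 < C ∧ ∀ e t D : ℝ, ∀ N : ℕ, 0 < e → e ≤ 1 → 6 ≤ t → 1 ≤ D → 1 ≤ N → Real.exp (2 * Real.pi * D) ≤ N →
      ‖∫ y in (-(t / 2))..(t / 2), Ph (n + 1) ((e : ℂ) + t * I - I * y) * KD n α D y‖ ≤
        C * (Real.sqrt N + (Real.log t + Real.sqrt N) * (N / t ^ 2)) := by
  obtain ⟨k, rfl⟩ : ∃ k, n = k + 1 := ⟨n - 1, by omega⟩
  obtain ⟨C1, hC1, h1⟩ := KD_bd hα0 hα1 hB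
  obtain ⟨C2, hC2, h2⟩ := Ph_bd h k
  set c : ℝ := (1 / Real.log 2) ^ (k + 1) with hc
  have hl2 : 0 < Real.log 2 := Real.log_pos (by norm_num)
  have hc0 : 0 < c := by positivity
  refine ⟨2 * c * C1 * Real.pi + 2 * c * C1 * Real.pi + 2 * ((2 * C2 + 2 * c) * C1 * 4), by positivity,
    fun e t D N he0 he1 ht hD hN hNe => ?_⟩
  have hD0 : 0 < D := by linarith
  have hN1 : (1:ℝ) ≤ N := by exact_mod_cast hN
  have hsN : 0 < Real.sqrt N := Real.sqrt_pos.2 (by linarith)
  have hlt : 0 < Real.log t := Real.log_pos (by linarith)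
  set Y : ℝ := t / 2 with hY
  have hY0 : 0 ≤ Y := by rw [hY]; linarith
  set z : ℂ := (e : ℂ) + t * I with hz
  have hpt : ∀ x y : ℝ, (z - I * (x + y * I)).re = e + y ∧ (z - I * (x + y * I)).im = t - x := by
    intro x y
    rw [hz]
    constructor
    · simp
    · simp
  -- the function
  set f : ℂ → ℂ := fun w => BN (k + 2) N (z - I * w) * KD (k + 1) α D w with hf
  have hfd : DifferentiableOn ℂ f (Set.uIcc (-Y) Y ×ℂ Set.uIcc (0:ℝ) 1) := by
    intro w hw
    rw [Complex.mem_reProdIm, Set.uIcc_of_le (by linarith), Set.uIcc_of_le (by norm_num)] at hw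
    obtain ⟨hw1, hw2⟩ := hw
    have hww : w = (w.re : ℂ) + w.im * I := (Complex.re_add_im w).symm
    obtain ⟨a1, a2⟩ := hpt w.re w.im
    rw [← hww] at a1 a2
    have hmem : z - I * w ∈ Om := ⟨by rw [a1]; linarith [hw2.1], by rw [a2]; linarith [hw1.2]⟩
    have d1 : DifferentiableAt ℂ (BN (k + 2) N) (z - I * w) :=
      (Ph_diffAt h (k + 2) hmem).sub (AN_diff (k + 2) N _)
    have d2 : DifferentiableAt ℂ (fun w : ℂ => z - I * w) w := by fun_prop
    exact ((d1.comp w d2).mul (KD_diff _ _ _ w)).differentiableWithinAt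
  have hrect := Complex.integral_boundary_rect_eq_zero_of_differentiableOn f ((-Y : ℝ) : ℂ) ((Y : ℂ) + (1:ℝ) * I) (by
    simpa using hfd)
  simp only [ofReal_re, ofReal_im, ofReal_zero, zero_mul, add_zero, add_re, mul_re, I_re, mul_zero, I_im, mul_one,
      sub_self, add_im, mul_im, zero_add, smul_eq_mul] at hrect
  -- top
  have htop : ‖∫ x in (-Y)..Y, f (x + (1:ℝ) * I)‖ ≤ 2 * c * C1 * Real.pi * Real.sqrt N := by
    have hb : ∀ x ∈ Set.Ioc (-Y) Y, ‖f (x + (1:ℝ) * I)‖ ≤ (2 * c * C1 * Real.sqrt N) * (D * (1 + (D * x) ^ 2)⁻¹) := by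
      intro x hx
      obtain ⟨a1, a2⟩ := hpt x 1
      have b1 := BN_bd h (k + 1) hN (z := z - I * (x + (1:ℝ) * I)) (by rw [a1]; linarith) (by
        rw [a2]; linarith [hx.2])
      rw [a1] at b1
      have b2 := h1 D hD x 1
      rw [abs_one, mul_one] at b2
      have b3 : (N:ℝ) ^ (-(e + 1)) ≤ (N:ℝ)⁻¹ := by
        rw [← Real.rpow_neg_one]
        exact Real.rpow_le_rpow_of_exponent_le hN1 (by linarith)
      have b4 : 0 ≤ D * (1 + (D * x) ^ 2)⁻¹ := by positivity
      rw [hf]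
      simp only
      rw [norm_mul]
      calc _ ≤ (c * (2 * Real.sqrt N * (N : ℝ) ^ (-(e + 1)))) * (C1 * Real.exp (2 * Real.pi * D) * (D * (1 + (D * x) ^ 2)⁻¹)) := by
            gcongr
        _ ≤ (c * (2 * Real.sqrt N * (N:ℝ)⁻¹)) * (C1 * N * (D * (1 + (D * x) ^ 2)⁻¹)) := by gcongr
        _ = (2 * c * C1 * Real.sqrt N) * (D * (1 + (D * x) ^ 2)⁻¹) * ((N:ℝ)⁻¹ * N) := by ring
        _ = _ := by rw [inv_mul_cancel₀ (by positivity), mul_one]
    have hi : IntervalIntegrable (fun x : ℝ => (2 * c * C1 * Real.sqrt N) * (D * (1 + (D * x) ^ 2)⁻¹)) volume (-Y) Y := by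
      refine Continuous.intervalIntegrable ?_ _ _
      have : Continuous fun x : ℝ => (1 + (D * x) ^ 2)⁻¹ := Continuous.inv₀ (by fun_prop) fun x => by positivity
      fun_prop
    refine (intervalIntegral.norm_integral_le_of_norm_le (by linarith) (ae_of_all _ hb) hi).trans ?_
    rw [intervalIntegral.integral_const_mul]
    have := int_kernel (D := D) hY0
    calc _ ≤ (2 * c * C1 * Real.sqrt N) * Real.pi := by gcongr
      _ = _ := by ring
  -- sides
  have hside : ∀ s : ℝ, |s| = Y → ‖∫ y in (0:ℝ)..1, f (s + y * I)‖ ≤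
      (2 * C2 + 2 * c) * C1 * 4 * ((Real.log t + Real.sqrt N) * (N / t ^ 2)) := by
    intro s hs
    have hsY : s ≤ Y ∧ -Y ≤ s := ⟨hs ▸ le_abs_self s, by linarith [neg_abs_le s]⟩
    have hb : ∀ y ∈ Set.uIoc (0:ℝ) 1, ‖f (s + y * I)‖ ≤ (2 * C2 + 2 * c) * C1 * 4 * ((Real.log t + Real.sqrt N) * (N / t ^ 2)) := by
      intro y hy
      rw [Set.uIoc_of_le (by norm_num)] at hy
      obtain ⟨a1, a2⟩ := hpt s y
      have b1 := h2 (z - I * (s + y * I)) (by rw [a1]; linarith [hy.1]) (by rw [a2]; linarith [hsY.1])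
      have b2 := AN_bd (k + 1) N (z := z - I * (s + y * I)) (by rw [a1]; linarith [hy.1])
      have b3 : Real.log (z - I * (s + y * I)).im ≤ 2 * Real.log t := by
        rw [a2]
        have : Real.log (t - s) ≤ Real.log (t ^ 2) := Real.log_le_log (by linarith [hsY.1]) (by nlinarith [hsY.2])
        rwa [Real.log_pow] at this
      have b4 := h1 D hD s y
      have b5 : Real.exp (2 * Real.pi * (D * |y|)) ≤ N := by
        refine le_trans (Real.exp_le_exp.2 ?_) hNe
        rw [abs_of_pos hy.1]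
        have : D * y ≤ D * 1 := by gcongr; exact hy.2
        nlinarith [Real.pi_pos]
      have b6 : D * (1 + (D * s) ^ 2)⁻¹ ≤ 4 / t ^ 2 := by
        have : s ^ 2 = t ^ 2 / 4 := by rw [← sq_abs, hs, hY]; ring
        rw [← div_eq_mul_inv, div_le_div_iff₀ (by positivity) (by positivity), mul_pow, this]
        have e1 : D * t ^ 2 ≤ D ^ 2 * t ^ 2 := by
          have : D ≤ D ^ 2 := by nlinarith
          gcongr
        nlinarith
      rw [hf]
      simp only
      rw [norm_mul]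
      have b7 : ‖BN (k + 2) N (z - I * (s + y * I))‖ ≤ (2 * C2 + 2 * c) * (Real.log t + Real.sqrt N) := by
        unfold BN
        refine (norm_sub_le _ _).trans ?_
        have e1 : ‖Ph (k + 2) (z - I * (s + y * I))‖ ≤ C2 * (2 * Real.log t) := b1.trans (by gcongr)
        have e2 : 0 ≤ 2 * C2 * Real.sqrt N := by positivity
        have e3 : 0 ≤ 2 * c * Real.log t := by positivity
        rw [← hc] at b2
        nlinarith
      calc _ ≤ ((2 * C2 + 2 * c) * (Real.log t + Real.sqrt N)) * (C1 * N * (4 / t ^ 2)) := by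
            gcongr
            exact b4.trans (by gcongr)
        _ = _ := by ring
    have := intervalIntegral.norm_integral_le_of_norm_le_const hb
    simpa using this
  have hs1 := hside Y (abs_of_nonneg hY0)
  have hs2 := hside (-Y) (by rw [abs_neg, abs_of_nonneg hY0])
  -- the middle part
  have hmid : ‖∫ y in (-Y)..Y, AN (k + 2) N (z - I * y) * KD (k + 1) α D y‖ ≤ 2 * c * C1 * Real.pi * Real.sqrt N := by
    have hb : ∀ x ∈ Set.Ioc (-Y) Y, ‖AN (k + 2) N (z - I * x) * KD (k + 1) α D x‖ ≤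
        (2 * c * C1 * Real.sqrt N) * (D * (1 + (D * x) ^ 2)⁻¹) := by
      intro x hx
      obtain ⟨a1, a2⟩ := hpt x 0
      simp only [ofReal_zero, zero_mul, add_zero] at a1 a2
      have b1 := AN_bd (k + 1) N (z := z - I * x) (by rw [a1]; linarith)
      have b2 := h1 D hD x 0
      simp only [ofReal_zero, zero_mul, add_zero, abs_zero, mul_zero, Real.exp_zero, mul_one] at b2
      rw [norm_mul]
      have b4 : 0 ≤ D * (1 + (D * x) ^ 2)⁻¹ := by positivity
      calc _ ≤ (c * (2 * Real.sqrt N)) * (C1 * (D * (1 + (D * x) ^ 2)⁻¹)) := by gcongr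
        _ = _ := by ring
    have hi : IntervalIntegrable (fun x : ℝ => (2 * c * C1 * Real.sqrt N) * (D * (1 + (D * x) ^ 2)⁻¹)) volume (-Y) Y := by
      refine Continuous.intervalIntegrable ?_ _ _
      have : Continuous fun x : ℝ => (1 + (D * x) ^ 2)⁻¹ := Continuous.inv₀ (by fun_prop) fun x => by positivity
      fun_prop
    refine (intervalIntegral.norm_integral_le_of_norm_le (by linarith) (ae_of_all _ hb) hi).trans ?_
    rw [intervalIntegral.integral_const_mul]
    have := int_kernel (D := D) hY0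
    calc _ ≤ (2 * c * C1 * Real.sqrt N) * Real.pi := by gcongr
      _ = _ := by ring
  -- assemble
  have hsplit : ∫ y in (-Y)..Y, Ph (k + 2) (z - I * y) * KD (k + 1) α D y =
      (∫ y in (-Y)..Y, f y) + ∫ y in (-Y)..Y, AN (k + 2) N (z - I * y) * KD (k + 1) α D y := by
    rw [← intervalIntegral.integral_add]
    · refine intervalIntegral.integral_congr fun y _ => ?_
      rw [hf]
      simp only [BN]
      ring
    · refine ContinuousOn.intervalIntegrable ?_
      rw [Set.uIcc_of_le (by linarith)]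
      intro y hy
      have hm : (y : ℂ) ∈ Set.uIcc (-Y) Y ×ℂ Set.uIcc (0:ℝ) 1 := by
        rw [Complex.mem_reProdIm, Set.uIcc_of_le (by linarith), Set.uIcc_of_le (by norm_num)]
        simpa using hy
      have hww := hfd.continuousOn (y : ℂ) hm
      refine ContinuousWithinAt.comp (f := fun y : ℝ => (y : ℂ)) (g := f) (t := Set.uIcc (-Y) Y ×ℂ Set.uIcc (0:ℝ) 1) hww
        Complex.continuous_ofReal.continuousWithinAt fun u hu => ?_
      rw [Complex.mem_reProdIm, Set.uIcc_of_le (by linarith), Set.uIcc_of_le (by norm_num)]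
      simpa using hu
    · refine Continuous.intervalIntegrable ?_ _ _
      exact ((AN_diff (k + 2) N).continuous.comp (by fun_prop : Continuous fun y : ℝ => (z - I * y : ℂ))).mul
        ((KD_diff (k + 1) α D).continuous.comp Complex.continuous_ofReal)
  have hf0 : ∫ y in (-Y)..Y, f y = (∫ x in (-Y)..Y, f (x + (1:ℝ) * I)) - I * (∫ y in (0:ℝ)..1, f (Y + y * I)) +
      I * ∫ y in (0:ℝ)..1, f (((-Y : ℝ) : ℂ) + y * I) := by
    linear_combination hrect
  rw [hsplit, hf0]
  refine (norm_add_le _ _).trans ?_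
  have n1 := norm_add_le ((∫ x in (-Y)..Y, f (x + (1:ℝ) * I)) - I * (∫ y in (0:ℝ)..1, f (Y + y * I)))
    (I * ∫ y in (0:ℝ)..1, f (((-Y : ℝ) : ℂ) + y * I))
  have n2 := norm_sub_le (∫ x in (-Y)..Y, f (x + (1:ℝ) * I)) (I * (∫ y in (0:ℝ)..1, f (Y + y * I)))
  rw [norm_mul, Complex.norm_I, one_mul] at n1 n2
  have p1 : 0 ≤ (Real.log t + Real.sqrt N) * (N / t ^ 2) := by positivity
  have p2 : 0 ≤ 2 * c * C1 * Real.pi * ((Real.log t + Real.sqrt N) * (N / t ^ 2)) := by positivity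
  have p3 : 0 ≤ 2 * ((2 * C2 + 2 * c) * C1 * 4) * Real.sqrt N := by positivity
  nlinarith
end Pool.Agent.V11273.SN
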