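import Pool.Agent.V11273.SN.Sinc

set_option autoImplicit false

namespace Pool.Agent.V11273.SN

open MeasureTheory Filter Topology Set Complex Metric

/-- `∑_{k ≥ 0} sinc²(z - α - k)` -/
noncomputable def GG (α : ℝ) (z : ℂ) : ℂ := ∑' k : ℕ, q (z - α - k)

/-- polynomial correction -/
noncomputable def RR (n : ℕ) (α : ℝ) (z : ℂ) : ℂ :=
  -∑ j ∈ Finset.range n, (bernoulliFun j α : ℂ) * z ^ (n - 1 - j)

/-- the approximation of the truncated power -/
noncomputable def FF (n : ℕ) (α : ℝ) (z : ℂ) : ℂ :=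
  z ^ n * GG α z - Complex.sin (Real.pi * (z - α)) ^ 2 / Real.pi ^ 2 * RR n α z

lemma GG_diff (α : ℝ) : Differentiable ℂ (GG α) := by
  intro u
  obtain ⟨C, hC, h⟩ := q_ball (‖u‖ + 1 + |α|) (by positivity)
  have hs : Summable fun k : ℕ => C * (1 / (1 + (k : ℝ) ^ 2)) := by
    have h1 := (sum_int.comp_injective Nat.cast_injective).mul_left C
    exact h1.congr fun k => by simp
  have h1 := differentiableOn_tsum_of_summable_norm (U := Metric.ball (0:ℂ) (‖u‖ + 1))
    (F := fun (k : ℕ) (u : ℂ) => q (u - α - k)) hs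
    (fun k => (q_diff.comp ((differentiable_id.sub_const _).sub_const _)).differentiableOn) Metric.isOpen_ball
    (fun k w hw => by
      have h2 := h (w - α) (by
        have h3 := norm_sub_le w (α : ℂ)
        rw [Complex.norm_real, Real.norm_eq_abs] at h3
        have h4 := (mem_ball_zero_iff.1 hw).le
        linarith) (-(k : ℤ))
      push_cast at h2
      rw [← sub_eq_add_neg] at h2
      simpa using h2)
  exact h1.differentiableAt (Metric.isOpen_ball.mem_nhds (by simp))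

lemma RR_diff (n : ℕ) (α : ℝ) : Differentiable ℂ (RR n α) := by
  unfold RR
  fun_prop

lemma FF_diff (n : ℕ) (α : ℝ) : Differentiable ℂ (FF n α) := by
  have h1 := GG_diff α
  have h2 := RR_diff n α
  unfold FF
  fun_prop

lemma q_shift {z : ℂ} {α : ℝ} {k : ℤ} (h : z - α + k ≠ 0) :
    q (z - α + k) = Complex.sin (Real.pi * (z - α)) ^ 2 / Real.pi ^ 2 * (1 / (z - α + k) ^ 2) := by
  rw [q_eq h, sin_shift]

lemma GG_neg {α : ℝ} (hα : 0 < α) {z : ℂ} (hz : z.re < 0) :
    GG α z = Complex.sin (Real.pi * (z - α)) ^ 2 / Real.pi ^ 2 * ZZ (-z + α) := by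
  unfold GG ZZ
  rw [← tsum_mul_left]
  refine tsum_congr fun k => ?_
  have hk : (0:ℝ) ≤ k := Nat.cast_nonneg k
  have hne : z - α + ((-(k:ℤ) : ℤ) : ℂ) ≠ 0 := by
    intro h0
    have := congrArg Complex.re h0
    simp at this
    linarith
  have h := q_shift hne
  push_cast at h
  rw [← sub_eq_add_neg] at h
  rw [h]
  congr 2
  ring

lemma split_int (f : ℤ → ℂ) (hf : Summable f) :
    ∑' k : ℤ, f k = (∑' k : ℕ, f (k : ℤ)) + ∑' k : ℕ, f (-((k : ℤ) + 1)) := by
  have s1 : Summable fun k : ℕ => f (k : ℤ) := hf.comp_injective Nat.cast_injective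
  have s2 : Summable fun k : ℕ => f (-((k : ℤ) + 1)) := by
    refine hf.comp_injective (i := fun k : ℕ => -((k : ℤ) + 1)) fun a b hab => ?_
    have : (a : ℤ) = b := by
      have h : -((a : ℤ) + 1) = -((b : ℤ) + 1) := hab
      linarith
    exact_mod_cast this
  exact tsum_of_nat_of_neg_add_one s1 s2

lemma GG_compl {α : ℝ} (hα : α < 1) {z : ℂ} (hz : 0 < z.re) :
    GG α z = 1 - Complex.sin (Real.pi * (z - α)) ^ 2 / Real.pi ^ 2 * ZZ (z + (1 - α : ℝ)) := by
  have hs := q_summable (z + 1 - α)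
  have h := q_sum (z + 1 - α)
  rw [split_int (fun k : ℤ => q (z + 1 - α + k)) hs] at h
  have e1 : ∑' k : ℕ, q (z + 1 - α + ((-((k : ℤ) + 1) : ℤ) : ℂ)) = GG α z := by
    unfold GG
    refine tsum_congr fun k => ?_
    have : z + 1 - α + ((-((k : ℤ) + 1) : ℤ) : ℂ) = z - α - k := by push_cast; ring
    rw [this]
  have e2 : ∑' k : ℕ, q (z + 1 - α + ((k : ℤ) : ℂ)) =
      Complex.sin (Real.pi * (z - α)) ^ 2 / Real.pi ^ 2 * ZZ (z + (1 - α : ℝ)) := by
    unfold ZZ
    rw [← tsum_mul_left]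
    refine tsum_congr fun k => ?_
    have hk : (0:ℝ) ≤ k := Nat.cast_nonneg k
    have hne : z - α + (((k : ℤ) + 1 : ℤ) : ℂ) ≠ 0 := by
      intro h0
      have h1 := congrArg Complex.re h0
      simp only [Complex.add_re, Complex.sub_re, Complex.ofReal_re, Int.cast_add, Int.cast_natCast, Int.cast_one,
        Complex.natCast_re, Complex.one_re, Complex.zero_re] at h1
      linarith
    have h3 := q_shift hne
    have e3 : z + 1 - α + ((k : ℤ) : ℂ) = z - α + (((k : ℤ) + 1 : ℤ) : ℂ) := by push_cast; ring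
    have e4 : z + ((1 - α : ℝ) : ℂ) + k = z - α + (((k : ℤ) + 1 : ℤ) : ℂ) := by push_cast; ring
    rw [e3, e4, h3]

  rw [e1, e2] at h
  linear_combination h

/-- the formula on the left -/
theorem FF_neg {n : ℕ} {α : ℝ} (hα0 : 0 < α) (hB : bernoulliFun n α = 0) {z : ℂ}
    (hz : z.re < 0) :
    FF n α z = Complex.sin (Real.pi * (z - α)) ^ 2 / Real.pi ^ 2 * (z ^ n * JJ n α (-z)) := by
  have hz0 : z ≠ 0 := by rintro rfl; simp at hz
  have hB' : bernoulliFun n (1 - α) = 0 := by rw [bernoulliFun_eval_one_sub, hB, mul_zero]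
  unfold FF
  rw [GG_neg hα0 hz, EMJ hα0 (w := -z) (by simpa using hz) n, Finset.sum_range_succ, hB']
  have h : z ^ n * ∑ j ∈ Finset.range n, (bernoulliFun j (1 - α) : ℂ) / (-z) ^ (j + 1) = RR n α z := by
    unfold RR
    rw [Finset.mul_sum, ← Finset.sum_neg_distrib]
    refine Finset.sum_congr rfl fun j hj => ?_
    rw [Finset.mem_range] at hj
    rw [bernoulliFun_eval_one_sub, neg_pow z (j + 1)]
    have e1 : z ^ n = z ^ (n - 1 - j) * z ^ (j + 1) := by rw [← pow_add]; congr 1; omega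
    have e2 : ((-1 : ℂ) ^ (j + 1)) = -((-1) ^ j) := by rw [pow_succ]; ring
    rw [e1, e2]
    have e3 : ((-1 : ℂ) ^ j) ≠ 0 := pow_ne_zero _ (by norm_num)
    push_cast
    field_simp
  rw [ofReal_zero, zero_div, add_zero]
  linear_combination (Complex.sin (Real.pi * (z - α)) ^ 2 / Real.pi ^ 2) * h

/-- the formula on the right -/
theorem FF_pos {n : ℕ} {α : ℝ} (hα1 : α < 1) (hB : bernoulliFun n α = 0) {z : ℂ}
    (hz : 0 < z.re) :
    FF n α z = z ^ n - Complex.sin (Real.pi * (z - α)) ^ 2 / Real.pi ^ 2 * (z ^ n * JJ n (1 - α) z) := by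
  have hz0 : z ≠ 0 := by rintro rfl; simp at hz
  unfold FF
  rw [GG_compl hα1 hz, EMJ (a := 1 - α) (by linarith) hz n, Finset.sum_range_succ, sub_sub_cancel, hB]
  have h : z ^ n * ∑ j ∈ Finset.range n, (bernoulliFun j α : ℂ) / z ^ (j + 1) = -RR n α z := by
    unfold RR
    rw [Finset.mul_sum, neg_neg]
    refine Finset.sum_congr rfl fun j hj => ?_
    rw [Finset.mem_range] at hj
    have e1 : z ^ n = z ^ (n - 1 - j) * z ^ (j + 1) := by rw [← pow_add]; congr 1; omega
    rw [e1]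
    field_simp
  rw [ofReal_zero, zero_div, add_zero]
  linear_combination (-(Complex.sin (Real.pi * (z - α)) ^ 2 / Real.pi ^ 2)) * h

end Pool.Agent.V11273.SN
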