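import Pool.Agent.V11273.SN.Ext

set_option autoImplicit false

namespace Pool.Agent.V11273.SN

open MeasureTheory Filter Topology Set Complex Metric

variable {n : ℕ} {α : ℝ}

lemma sin_fac_norm (α : ℝ) (z : ℂ) :
    ‖Complex.sin (Real.pi * (z - α)) ^ 2 / Real.pi ^ 2‖ ≤ Real.exp (2 * Real.pi * |z.im|) := by
  rw [norm_div, norm_pow (Real.pi : ℂ) 2, Complex.norm_real, Real.norm_of_nonneg Real.pi_pos.le]
  have h := norm_sinpi_sq (z - α)
  simp only [sub_im, ofReal_im, sub_zero] at h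
  have h3 : 1 ≤ Real.pi ^ 2 := by nlinarith [Real.pi_gt_three]
  rw [div_le_iff₀ (by positivity)]
  calc _ ≤ Real.exp (2 * Real.pi * |z.im|) := h
    _ = Real.exp (2 * Real.pi * |z.im|) * 1 := (mul_one _).symm
    _ ≤ _ := by gcongr

lemma FN (hα0 : 0 < α) (hα1 : α < 1) (hB : bernoulliFun n α = 0) : ∃ C : ℝ, 0 < C ∧ ∀ z : ℂ, z.re < 0 →
    ‖FF n α z‖ ≤ C * Real.exp (2 * Real.pi * |z.im|) / ‖z‖ ^ 2 := by
  obtain ⟨C, hC, h⟩ := JJ_norm n hα0 hα1
  refine ⟨C, hC, fun z hz => ?_⟩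
  have hz0 : 0 < ‖z‖ := norm_pos_iff.2 (by rintro rfl; simp at hz)
  rw [FF_neg hα0 hB hz, norm_mul, norm_mul, norm_pow]
  have h1 := h (-z) (by simpa using hz)
  rw [norm_neg] at h1
  calc _ ≤ Real.exp (2 * Real.pi * |z.im|) * (‖z‖ ^ n * (C / ‖z‖ ^ (n + 2))) := by
        gcongr
        exact sin_fac_norm α z
    _ = _ := by rw [pow_add]; field_simp

lemma FP (hα0 : 0 < α) (hα1 : α < 1) (hB : bernoulliFun n α = 0) : ∃ C : ℝ, 0 < C ∧ ∀ z : ℂ, 0 < z.re →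
    ‖FF n α z - z ^ n‖ ≤ C * Real.exp (2 * Real.pi * |z.im|) / ‖z‖ ^ 2 := by
  obtain ⟨C, hC, h⟩ := JJ_norm n (a := 1 - α) (by linarith) (by linarith)
  refine ⟨C, hC, fun z hz => ?_⟩
  have hz0 : 0 < ‖z‖ := norm_pos_iff.2 (by rintro rfl; simp at hz)
  rw [FF_pos hα1 hB hz, sub_sub_cancel_left, norm_neg, norm_mul, norm_mul, norm_pow]
  have h1 := h z hz
  calc _ ≤ Real.exp (2 * Real.pi * |z.im|) * (‖z‖ ^ n * (C / ‖z‖ ^ (n + 2))) := by
        gcongr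
        exact sin_fac_norm α z
    _ = _ := by rw [pow_add]; field_simp

lemma pow_exp (m : ℕ) : ∃ C : ℝ, 0 < C ∧ ∀ z : ℂ, |z.re| ≤ 3 → ‖z‖ ^ m ≤ C * Real.exp (2 * Real.pi * |z.im|) := by
  refine ⟨m.factorial * Real.exp 3, by positivity, fun z hz => ?_⟩
  have h1 : ‖z‖ ≤ 3 + |z.im| := (Complex.norm_le_abs_re_add_abs_im z).trans (by linarith)
  have h2 := Real.pow_div_factorial_le_exp (x := 3 + |z.im|) (by positivity) m
  rw [div_le_iff₀ (by positivity)] at h2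
  calc ‖z‖ ^ m ≤ (3 + |z.im|) ^ m := by gcongr
    _ ≤ Real.exp (3 + |z.im|) * m.factorial := h2
    _ = m.factorial * Real.exp 3 * Real.exp (1 * |z.im|) := by rw [Real.exp_add]; ring_nf
    _ ≤ _ := by
      gcongr
      linarith [Real.pi_gt_three]

lemma FM (hα0 : 0 < α) (hα1 : α < 1) (hB : bernoulliFun n α = 0) : ∃ C : ℝ, 0 < C ∧ ∀ z : ℂ, |z.re| ≤ 3 →
    ‖FF n α z‖ ≤ C * Real.exp (2 * Real.pi * |z.im|) / (1 + ‖z‖ ^ 2) := by
  obtain ⟨C1, hC1, h1⟩ := FN hα0 hα1 hB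
  obtain ⟨C2, hC2, h2⟩ := FP hα0 hα1 hB
  obtain ⟨C3, hC3, h3⟩ := pow_exp n
  obtain ⟨C4, hC4, h4⟩ := pow_exp (n + 2)
  obtain ⟨C5, h5⟩ := (isCompact_closedBall (0:ℂ) 1).exists_bound_of_continuousOn (FF_diff n α).continuous.continuousOn
  have hC5 : 0 ≤ C5 := (norm_nonneg _).trans (h5 0 (by simp))
  -- off the imaginary axis
  have key : ∀ z : ℂ, |z.re| ≤ 3 → z.re ≠ 0 →
      ‖FF n α z‖ ≤ (2 * C1 + 2 * C2 + C3 + C4 + 2 * C5) * Real.exp (2 * Real.pi * |z.im|) / (1 + ‖z‖ ^ 2) := by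
    intro z hz hz0
    have he : 1 ≤ Real.exp (2 * Real.pi * |z.im|) := Real.one_le_exp (by positivity)
    set e := Real.exp (2 * Real.pi * |z.im|) with hedef
    rw [le_div_iff₀ (by positivity)]
    rcases le_or_gt ‖z‖ 1 with h | h
    · have a1 := h5 z (by simpa using h)
      have a2 : ‖z‖ ^ 2 ≤ 1 := by nlinarith [norm_nonneg z]
      calc ‖FF n α z‖ * (1 + ‖z‖ ^ 2) ≤ C5 * 2 := mul_le_mul a1 (by linarith) (by positivity) hC5
        _ ≤ (2 * C1 + 2 * C2 + C3 + C4 + 2 * C5) * 1 := by linarith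
        _ ≤ _ := by gcongr
    · have hz2 : 1 ≤ ‖z‖ ^ 2 := by nlinarith
      have a0 : 1 + ‖z‖ ^ 2 ≤ 2 * ‖z‖ ^ 2 := by linarith
      have a3 := h3 z hz
      have a4 := h4 z hz
      rcases lt_or_gt_of_ne hz0 with hlt | hgt
      · have a1 := h1 z hlt
        rw [le_div_iff₀ (by positivity)] at a1
        calc ‖FF n α z‖ * (1 + ‖z‖ ^ 2) ≤ ‖FF n α z‖ * (2 * ‖z‖ ^ 2) := by gcongr
          _ = 2 * (‖FF n α z‖ * ‖z‖ ^ 2) := by ring
          _ ≤ 2 * (C1 * e) := by gcongr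
          _ = (2 * C1) * e := by ring
          _ ≤ _ := by
            gcongr
            linarith
      · have a1 := h2 z hgt
        rw [le_div_iff₀ (by positivity)] at a1
        have a2 : ‖FF n α z‖ ≤ ‖FF n α z - z ^ n‖ + ‖z‖ ^ n := by
          rw [← norm_pow]
          calc ‖FF n α z‖ = ‖(FF n α z - z ^ n) + z ^ n‖ := by ring_nf
            _ ≤ _ := norm_add_le _ _
        calc ‖FF n α z‖ * (1 + ‖z‖ ^ 2) ≤ (‖FF n α z - z ^ n‖ + ‖z‖ ^ n) * (1 + ‖z‖ ^ 2) := by gcongr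
          _ = ‖FF n α z - z ^ n‖ * (1 + ‖z‖ ^ 2) + (‖z‖ ^ n + ‖z‖ ^ (n + 2)) := by ring
          _ ≤ ‖FF n α z - z ^ n‖ * (2 * ‖z‖ ^ 2) + (C3 * e + C4 * e) := by gcongr
          _ = 2 * (‖FF n α z - z ^ n‖ * ‖z‖ ^ 2) + (C3 * e + C4 * e) := by ring
          _ ≤ 2 * (C2 * e) + (C3 * e + C4 * e) := by gcongr
          _ = (2 * C2 + C3 + C4) * e := by ring
          _ ≤ _ := mul_le_mul_of_nonneg_right (by linarith) (by positivity)
  refine ⟨2 * C1 + 2 * C2 + C3 + C4 + 2 * C5, by positivity, fun z hz => ?_⟩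
  by_cases hz0 : z.re = 0
  · have hc : Continuous fun δ : ℝ => z + δ := by fun_prop
    have t1 : Tendsto (fun δ : ℝ => ‖FF n α (z + δ)‖) (𝓝[>] 0) (𝓝 ‖FF n α (z + (0:ℝ))‖) :=
      (((FF_diff n α).continuous.comp hc).norm.tendsto 0).mono_left nhdsWithin_le_nhds
    have t2 : Tendsto (fun δ : ℝ => (2 * C1 + 2 * C2 + C3 + C4 + 2 * C5) * Real.exp (2 * Real.pi * |(z + δ).im|) /
        (1 + ‖z + δ‖ ^ 2)) (𝓝[>] 0) (𝓝 ((2 * C1 + 2 * C2 + C3 + C4 + 2 * C5) *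
          Real.exp (2 * Real.pi * |(z + (0:ℝ)).im|) / (1 + ‖z + (0:ℝ)‖ ^ 2))) := by
      have hcc : Continuous fun δ : ℝ => (2 * C1 + 2 * C2 + C3 + C4 + 2 * C5) *
          Real.exp (2 * Real.pi * |(z + δ).im|) / (1 + ‖z + δ‖ ^ 2) := by
        refine Continuous.div ?_ ?_ fun δ => by positivity
        · have : Continuous fun δ : ℝ => (z + δ : ℂ).im := Complex.continuous_im.comp hc
          fun_prop
        · fun_prop
      exact (hcc.tendsto 0).mono_left nhdsWithin_le_nhds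
    have h := le_of_tendsto_of_tendsto t1 t2 (by
      have h0 : ∀ᶠ δ : ℝ in 𝓝[>] 0, δ ∈ Set.Ioo (0:ℝ) 3 := Ioo_mem_nhdsGT (by norm_num)
      filter_upwards [h0] with δ hδ
      refine key (z + δ) ?_ ?_
      · simp only [add_re, ofReal_re, hz0, zero_add]
        rw [abs_of_pos hδ.1]; exact hδ.2.le
      · simp only [add_re, ofReal_re, hz0, zero_add]
        exact hδ.1.ne')
    simpa using h
  · exact key z hz hz0

lemma diffCl {f : ℂ → ℂ} (hf : Differentiable ℂ f) (c : ℂ) (R : ℝ) : DiffContOnCl ℂ f (ball c R) :=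
  hf.diffContOnCl

lemma FD_sub (n : ℕ) (α : ℝ) : Differentiable ℂ (fun z => FF n α z - z ^ n) := by
  have := FF_diff n α
  fun_prop

lemma iter_sub (n : ℕ) (α : ℝ) (j : ℕ) (z : ℂ) :
    iteratedDeriv j (fun z => FF n α z - z ^ n) z = iteratedDeriv j (FF n α) z - n.descFactorial j * z ^ (n - j) := by
  rw [iteratedDeriv_fun_sub (FF_diff n α).contDiff.contDiffAt (by fun_prop)]
  congr 1
  exact iteratedDeriv_pow n j

lemma circ_bound {z w : ℂ} (hw : w ∈ sphere z 1) :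
    Real.exp (2 * Real.pi * |w.im|) ≤ Real.exp (2 * Real.pi) * Real.exp (2 * Real.pi * |z.im|) ∧
      ‖z‖ ≤ ‖w‖ + 1 ∧ ‖w‖ ≤ ‖z‖ + 1 ∧ |w.re - z.re| ≤ 1 := by
  rw [mem_sphere, Complex.dist_eq] at hw
  have h1 : |w.im - z.im| ≤ 1 := by
    have := Complex.abs_im_le_norm (w - z)
    rwa [hw, sub_im] at this
  have h2 : |w.re - z.re| ≤ 1 := by
    have := Complex.abs_re_le_norm (w - z)
    rwa [hw, sub_re] at this
  refine ⟨?_, ?_, ?_, h2⟩
  · rw [← Real.exp_add]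
    apply Real.exp_le_exp.2
    have : |w.im| ≤ |z.im| + 1 := by
      have := abs_sub_abs_le_abs_sub w.im z.im
      linarith
    nlinarith [Real.pi_pos]
  · calc ‖z‖ = ‖w - (w - z)‖ := by ring_nf
      _ ≤ ‖w‖ + ‖w - z‖ := norm_sub_le _ _
      _ = _ := by rw [hw]
  · calc ‖w‖ = ‖z + (w - z)‖ := by ring_nf
      _ ≤ ‖z‖ + ‖w - z‖ := norm_add_le _ _
      _ = _ := by rw [hw]

/-- derivatives on the left and on the right -/
lemma EB (hα0 : 0 < α) (hα1 : α < 1) (hB : bernoulliFun n α = 0) (j : ℕ) : ∃ C : ℝ, 0 < C ∧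
    (∀ z : ℂ, z.re ≤ -2 → ‖iteratedDeriv j (FF n α) z‖ ≤ C * Real.exp (2 * Real.pi * |z.im|) / (1 + ‖z‖ ^ 2)) ∧
    (∀ z : ℂ, 2 ≤ z.re → ‖iteratedDeriv j (fun z => FF n α z - z ^ n) z‖ ≤
      C * Real.exp (2 * Real.pi * |z.im|) / (1 + ‖z‖ ^ 2)) := by
  obtain ⟨C1, hC1, h1⟩ := FN hα0 hα1 hB
  obtain ⟨C2, hC2, h2⟩ := FP hα0 hα1 hB
  have gen : ∀ (f : ℂ → ℂ) (C : ℝ) (z : ℂ), 0 < C → Differentiable ℂ f → 2 ≤ |z.re| →
      (∀ w ∈ sphere z 1, ‖f w‖ ≤ C * Real.exp (2 * Real.pi * |w.im|) / ‖w‖ ^ 2) →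
      ‖iteratedDeriv j f z‖ ≤ (j.factorial * (C * Real.exp (2 * Real.pi) * 5)) *
        Real.exp (2 * Real.pi * |z.im|) / (1 + ‖z‖ ^ 2) := by
    intro f C z hC hf hz hw
    have hz2 : 2 ≤ ‖z‖ := hz.trans (Complex.abs_re_le_norm z)
    have h := norm_iteratedDeriv_le_of_forall_mem_sphere_norm_le (R := 1)
      (C := C * (Real.exp (2 * Real.pi) * Real.exp (2 * Real.pi * |z.im|)) * (5 / (1 + ‖z‖ ^ 2))) j one_pos
      (diffCl hf z 1) fun w hw' => by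
        obtain ⟨a1, a2, a3, a4⟩ := circ_bound hw'
        have b1 : 1 ≤ ‖w‖ := by linarith
        refine (hw w hw').trans ?_
        rw [div_le_iff₀ (by positivity)]
        have b2 : 1 ≤ 5 / (1 + ‖z‖ ^ 2) * ‖w‖ ^ 2 := by
          rw [div_mul_eq_mul_div, le_div_iff₀ (by positivity), one_mul]
          nlinarith
        calc C * Real.exp (2 * Real.pi * |w.im|)
            ≤ C * (Real.exp (2 * Real.pi) * Real.exp (2 * Real.pi * |z.im|)) * 1 := by
              rw [mul_one]; gcongr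
          _ ≤ C * (Real.exp (2 * Real.pi) * Real.exp (2 * Real.pi * |z.im|)) * (5 / (1 + ‖z‖ ^ 2) * ‖w‖ ^ 2) := by
              gcongr
          _ = _ := by ring
    refine h.trans (le_of_eq ?_)
    rw [one_pow]; ring
  refine ⟨(j.factorial * ((C1 + C2) * Real.exp (2 * Real.pi) * 5)), by positivity, fun z hz => ?_, fun z hz => ?_⟩
  · refine gen (FF n α) (C1 + C2) z (by positivity) (FF_diff n α) (by rw [abs_of_nonpos (by linarith)]; linarith)
      fun w hw => ?_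
    obtain ⟨a1, a2, a3, a4⟩ := circ_bound hw
    have := h1 w (by linarith [(abs_le.1 a4).2])
    refine this.trans ?_
    gcongr
    linarith
  · refine gen _ (C1 + C2) z (by positivity) (FD_sub n α) (by rw [abs_of_nonneg (by linarith)]; linarith)
      fun w hw => ?_
    obtain ⟨a1, a2, a3, a4⟩ := circ_bound hw
    have := h2 w (by linarith [(abs_le.1 a4).1])
    refine this.trans ?_
    gcongr
    linarith

/-- the bandlimited kernel -/
lemma KB (hα0 : 0 < α) (hα1 : α < 1) (hB : bernoulliFun n α = 0) : ∃ C : ℝ, 0 < C ∧ ∀ z : ℂ,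
    ‖iteratedDeriv (n + 1) (FF n α) z‖ ≤ C * Real.exp (2 * Real.pi * |z.im|) / (1 + ‖z‖ ^ 2) := by
  obtain ⟨C1, hC1, h1, h2⟩ := EB hα0 hα1 hB (n + 1)
  obtain ⟨C2, hC2, h3⟩ := FM hα0 hα1 hB
  refine ⟨C1 + (n + 1).factorial * (C2 * Real.exp (2 * Real.pi) * 3), by positivity, fun z => ?_⟩
  by_cases hz1 : z.re ≤ -2
  · refine (h1 z hz1).trans ?_
    gcongr
    have : 0 ≤ ((n + 1).factorial : ℝ) * (C2 * Real.exp (2 * Real.pi) * 3) := by positivity
    linarith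
  by_cases hz2 : 2 ≤ z.re
  · have := h2 z hz2
    rw [iter_sub, Nat.descFactorial_of_lt (by omega), Nat.cast_zero, zero_mul, sub_zero] at this
    refine this.trans ?_
    gcongr
    have : 0 ≤ ((n + 1).factorial : ℝ) * (C2 * Real.exp (2 * Real.pi) * 3) := by positivity
    linarith
  push Not at hz1 hz2
  have h := norm_iteratedDeriv_le_of_forall_mem_sphere_norm_le (R := 1)
      (C := C2 * (Real.exp (2 * Real.pi) * Real.exp (2 * Real.pi * |z.im|)) * (3 / (1 + ‖z‖ ^ 2))) (n + 1) one_pos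
      (diffCl (FF_diff n α) z 1) fun w hw' => by
        obtain ⟨a1, a2, a3, a4⟩ := circ_bound hw'
        obtain ⟨a5, a6⟩ := abs_le.1 a4
        refine (h3 w (abs_le.2 ⟨by linarith, by linarith⟩)).trans ?_
        rw [div_le_iff₀ (by positivity)]
        have b2 : 1 ≤ 3 / (1 + ‖z‖ ^ 2) * (1 + ‖w‖ ^ 2) := by
          rw [div_mul_eq_mul_div, le_div_iff₀ (by positivity), one_mul]
          nlinarith [sq_nonneg (‖w‖ - 1), norm_nonneg z, norm_nonneg w]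
        calc C2 * Real.exp (2 * Real.pi * |w.im|)
            ≤ C2 * (Real.exp (2 * Real.pi) * Real.exp (2 * Real.pi * |z.im|)) * 1 := by
              rw [mul_one]; gcongr
          _ ≤ C2 * (Real.exp (2 * Real.pi) * Real.exp (2 * Real.pi * |z.im|)) * (3 / (1 + ‖z‖ ^ 2) * (1 + ‖w‖ ^ 2)) := by
              gcongr
          _ = _ := by ring
  calc _ ≤ _ := h
    _ = ((n + 1).factorial * (C2 * Real.exp (2 * Real.pi) * 3)) * Real.exp (2 * Real.pi * |z.im|) / (1 + ‖z‖ ^ 2) := by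
        rw [one_pow]; ring
    _ ≤ _ := by
        gcongr
        linarith

end Pool.Agent.V11273.SN
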