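import Mathlib

set_option autoImplicit false

namespace Pool.Agent.V11273.SN

open MeasureTheory Filter Topology Set Complex

lemma parts (G H : ℕ → ℝ → ℂ) {a b : ℝ} (hab : a ≤ b) (m : ℕ)
    (hG : ∀ j ≤ m, ∀ y ∈ Set.Icc a b, HasDerivAt (G j) (G (j + 1) y) y)
    (hH : ∀ j ≤ m, ∀ y ∈ Set.Icc a b, HasDerivAt (H j) (H (j + 1) y) y)
    (hGc : ContinuousOn (G (m + 1)) (Set.Icc a b)) (hHc : ContinuousOn (H (m + 1)) (Set.Icc a b)) :
    ∫ y in a..b, G (m + 1) y * H 0 y =
      (∑ i ∈ Finset.range (m + 1), (-1) ^ i * (G (m - i) b * H i b - G (m - i) a * H i a)) +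
        (-1) ^ (m + 1) * ∫ y in a..b, G 0 y * H (m + 1) y := by
  have cG : ∀ j ≤ m + 1, ContinuousOn (G j) (Set.Icc a b) := by
    intro j hj
    rcases Nat.lt_or_ge j (m + 1) with h | h
    · exact fun y hy => (hG j (by omega) y hy).continuousAt.continuousWithinAt
    · rw [show j = m + 1 by omega]; exact hGc
  have cH : ∀ j ≤ m + 1, ContinuousOn (H j) (Set.Icc a b) := by
    intro j hj
    rcases Nat.lt_or_ge j (m + 1) with h | h
    · exact fun y hy => (hH j (by omega) y hy).continuousAt.continuousWithinAt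
    · rw [show j = m + 1 by omega]; exact hHc
  have key : ∀ k ≤ m + 1, ∫ y in a..b, G (m + 1) y * H 0 y =
      (∑ i ∈ Finset.range k, (-1) ^ i * (G (m - i) b * H i b - G (m - i) a * H i a)) +
        (-1) ^ k * ∫ y in a..b, G (m + 1 - k) y * H k y := by
    intro k
    induction k with
    | zero => intro _; simp
    | succ k ih =>
      intro hk
      rw [ih (by omega), Finset.sum_range_succ]
      have e : m + 1 - k = (m - k) + 1 := by omega
      have h := intervalIntegral.integral_mul_deriv_eq_deriv_mul (a := a) (b := b) (u := H k) (v := G (m - k))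
        (u' := H (k + 1)) (v' := G (m - k + 1))
        (fun y hy => hH k (by omega) y (by rwa [Set.uIcc_of_le hab] at hy))
        (fun y hy => hG (m - k) (by omega) y (by rwa [Set.uIcc_of_le hab] at hy))
        (ContinuousOn.intervalIntegrable (by rw [Set.uIcc_of_le hab]; exact cH (k + 1) hk))
        (ContinuousOn.intervalIntegrable (by rw [Set.uIcc_of_le hab]; exact cG (m - k + 1) (by omega)))
      have h1 : ∫ y in a..b, G (m + 1 - k) y * H k y = ∫ y in a..b, H k y * G (m - k + 1) y := by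
        rw [e]
        exact intervalIntegral.integral_congr fun y _ => mul_comm _ _
      have h2 : ∫ y in a..b, G (m + 1 - (k + 1)) y * H (k + 1) y = ∫ y in a..b, H (k + 1) y * G (m - k) y := by
        rw [show m + 1 - (k + 1) = m - k by omega]
        exact intervalIntegral.integral_congr fun y _ => mul_comm _ _
      rw [h1, h2, h]
      ring
  have h := key (m + 1) le_rfl
  rwa [Nat.sub_self] at h

lemma iter_deriv {F : ℂ → ℂ} (hF : Differentiable ℂ F) (j : ℕ) (y : ℝ) :
    HasDerivAt (fun y : ℝ => iteratedDeriv j F (y : ℂ)) (iteratedDeriv (j + 1) F (y : ℂ)) y := by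
  have h1 : Differentiable ℂ (iteratedDeriv j F) :=
    (hF.contDiff (n := ⊤)).differentiable_iteratedDeriv j (by exact_mod_cast WithTop.coe_lt_top _)
  have h2 : HasDerivAt (iteratedDeriv j F) (iteratedDeriv (j + 1) F y) (y : ℂ) := by
    rw [iteratedDeriv_succ]
    exact (h1 (y : ℂ)).hasDerivAt
  exact h2.comp_ofReal

lemma iter_cont {F : ℂ → ℂ} (hF : Differentiable ℂ F) (j : ℕ) : Continuous fun y : ℝ => iteratedDeriv j F (y : ℂ) :=
  continuous_iff_continuousAt.2 fun y => (iter_deriv hF j y).continuousAt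

/-- the two-sided formula -/
theorem two_sided {F : ℂ → ℂ} (hF : Differentiable ℂ F) (n : ℕ) (G : ℕ → ℝ → ℂ) {Y : ℝ} (hY : 0 ≤ Y)
    (hG : ∀ j ≤ n, ∀ y ∈ Set.Icc (-Y) Y, HasDerivAt (G j) (G (j + 1) y) y)
    (hGc : ContinuousOn (G (n + 1)) (Set.Icc (-Y) Y)) :
    (∫ y in (-Y)..0, G (n + 1) y * F y) + ∫ y in (0:ℝ)..Y, G (n + 1) y * (F y - (y : ℂ) ^ n) =
      (-1) ^ n * n.factorial * G 0 0 + (-1) ^ (n + 1) * (∫ y in (-Y)..Y, G 0 y * iteratedDeriv (n + 1) F y) +
      ∑ i ∈ Finset.range (n + 1), (-1) ^ i * (G (n - i) Y * iteratedDeriv i (fun z => F z - z ^ n) Y -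
        G (n - i) (-Y) * iteratedDeriv i F ((-Y : ℝ) : ℂ)) := by
  have hF2 : Differentiable ℂ (fun z => F z - z ^ n) := by fun_prop
  have s1 : Set.Icc (-Y) 0 ⊆ Set.Icc (-Y) Y := Set.Icc_subset_Icc le_rfl hY
  have s2 : Set.Icc 0 Y ⊆ Set.Icc (-Y) Y := Set.Icc_subset_Icc (by linarith) le_rfl
  have p1 := parts G (fun j y => iteratedDeriv j F (y : ℂ)) (a := -Y) (b := 0) (by linarith) n
    (fun j hj y hy => hG j hj y (s1 hy)) (fun j _ y _ => iter_deriv hF j y) (hGc.mono s1) (iter_cont hF _).continuousOn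
  have p2 := parts G (fun j y => iteratedDeriv j (fun z => F z - z ^ n) (y : ℂ)) (a := 0) (b := Y) hY n
    (fun j hj y hy => hG j hj y (s2 hy)) (fun j _ y _ => iter_deriv hF2 j y) (hGc.mono s2)
    (iter_cont hF2 _).continuousOn
  have isub : ∀ (j : ℕ) (z : ℂ), iteratedDeriv j (fun z => F z - z ^ n) z =
      iteratedDeriv j F z - n.descFactorial j * z ^ (n - j) := by
    intro j z
    rw [iteratedDeriv_fun_sub hF.contDiff.contDiffAt (by fun_prop)]
    congr 1
    exact iteratedDeriv_pow n j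
  simp only [iteratedDeriv_zero] at p1 p2
  rw [p1, p2]
  have e1 : ∀ y : ℝ, iteratedDeriv (n + 1) (fun z => F z - z ^ n) (y : ℂ) = iteratedDeriv (n + 1) F (y : ℂ) := by
    intro y
    rw [isub, Nat.descFactorial_of_lt (by omega)]
    simp
  simp_rw [e1]
  have cG0 : ContinuousOn (G 0) (Set.Icc (-Y) Y) := fun y hy => (hG 0 (by omega) y hy).continuousAt.continuousWithinAt
  have hint : ∀ c d : ℝ, c ≤ d → Set.Icc c d ⊆ Set.Icc (-Y) Y →
      IntervalIntegrable (fun y : ℝ => G 0 y * iteratedDeriv (n + 1) F (y : ℂ)) volume c d := by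
    intro c d hcd hs
    refine ContinuousOn.intervalIntegrable ?_
    rw [Set.uIcc_of_le hcd]
    exact (cG0.mono hs).mul (iter_cont hF _).continuousOn
  have e2 := intervalIntegral.integral_add_adjacent_intervals (hint (-Y) 0 (by linarith) s1) (hint 0 Y hY s2)
  rw [← e2]
  have e3 : ∑ i ∈ Finset.range (n + 1), (-1 : ℂ) ^ i * (G (n - i) 0 * iteratedDeriv i F ((0 : ℝ) : ℂ) -
      G (n - i) 0 * iteratedDeriv i (fun z => F z - z ^ n) ((0 : ℝ) : ℂ)) = (-1) ^ n * n.factorial * G 0 0 := by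
    rw [Finset.sum_eq_single n]
    · rw [isub, Nat.sub_self, Nat.descFactorial_self]
      simp; ring
    · intro i hi hne
      rw [Finset.mem_range] at hi
      rw [isub]
      have : n - i ≠ 0 := by omega
      simp [this]
    · intro h
      simp at h
  rw [← e3]
  simp only [mul_add, mul_sub, Finset.sum_add_distrib, Finset.sum_sub_distrib]
  ring

end Pool.Agent.V11273.SN
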