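import Mathlib

set_option autoImplicit false

namespace Pool.Agent.V11273.SN

open MeasureTheory Filter Topology Set Complex

/-- moving the line of integration -/
lemma shift_line {f : ℂ → ℂ} (hf : Differentiable ℂ f) {h C : ℝ}
    (hb : ∀ x y : ℝ, |y| ≤ |h| → ‖f (x + y * I)‖ ≤ C / (1 + x ^ 2)) :
    ∫ x : ℝ, f x = ∫ x : ℝ, f (x + h * I) := by
  have hC : 0 ≤ C := by
    have := (norm_nonneg _).trans (hb 0 0 (by simp))
    simpa using this
  have hint : ∀ y : ℝ, |y| ≤ |h| → Integrable fun x : ℝ => f (x + y * I) := by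
    intro y hy
    refine Integrable.mono' (integrable_inv_one_add_sq.const_mul C)
      (hf.continuous.comp (by fun_prop)).aestronglyMeasurable (ae_of_all _ fun x => ?_)
    rw [← div_eq_mul_inv]
    exact hb x y hy
  have h0 : Integrable fun x : ℝ => f x := by simpa using hint 0 (by simp)
  have hh := hint h le_rfl
  have t1 : Tendsto (fun R : ℝ => ∫ x in (-R)..R, f x) atTop (𝓝 (∫ x : ℝ, f x)) :=
    intervalIntegral_tendsto_integral h0 tendsto_neg_atTop_atBot tendsto_id
  have t2 : Tendsto (fun R : ℝ => ∫ x in (-R)..R, f (x + h * I)) atTop (𝓝 (∫ x : ℝ, f (x + h * I))) :=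
    intervalIntegral_tendsto_integral hh tendsto_neg_atTop_atBot tendsto_id
  have hside : ∀ R : ℝ, ‖∫ y in (0:ℝ)..h, f (R + y * I)‖ ≤ C / (1 + R ^ 2) * |h| := by
    intro R
    have := intervalIntegral.norm_integral_le_of_norm_le_const (a := (0:ℝ)) (b := h)
      (f := fun y : ℝ => f (R + y * I)) (C := C / (1 + R ^ 2)) fun y hy => hb R y (by
        rcases le_total 0 h with h1 | h1
        · rw [Set.uIoc_of_le h1] at hy
          rw [abs_of_pos hy.1, abs_of_nonneg h1]; exact hy.2
        · rw [Set.uIoc_of_ge h1] at hy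
          rw [abs_of_nonpos hy.2, abs_of_nonpos h1]; linarith [hy.1])
    simpa using this
  have t3 : Tendsto (fun R : ℝ => C / (1 + R ^ 2) * |h|) atTop (𝓝 0) := by
    have : Tendsto (fun R : ℝ => 1 + R ^ 2) atTop atTop :=
      tendsto_atTop_add_const_left _ _ (tendsto_pow_atTop (by norm_num))
    have := (tendsto_const_nhds (x := C)).div_atTop this
    simpa using this.mul_const |h|
  have t4 : Tendsto (fun R : ℝ => I * ∫ y in (0:ℝ)..h, f (R + y * I)) atTop (𝓝 0) := by
    have : Tendsto (fun R : ℝ => ∫ y in (0:ℝ)..h, f (R + y * I)) atTop (𝓝 0) :=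
      squeeze_zero_norm hside t3
    simpa using this.const_mul I
  have t5 : Tendsto (fun R : ℝ => I * ∫ y in (0:ℝ)..h, f (((-R : ℝ) : ℂ) + y * I)) atTop (𝓝 0) := by
    have : Tendsto (fun R : ℝ => ∫ y in (0:ℝ)..h, f (((-R : ℝ) : ℂ) + y * I)) atTop (𝓝 0) :=
      squeeze_zero_norm (fun R => by simpa using hside (-R)) t3
    simpa using this.const_mul I
  have key : ∀ R : ℝ, ((∫ x in (-R)..R, f x) - ∫ x in (-R)..R, f (x + h * I)) =
      I * (∫ y in (0:ℝ)..h, f (((-R : ℝ) : ℂ) + y * I)) - I * ∫ y in (0:ℝ)..h, f (R + y * I) := by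
    intro R
    have := Complex.integral_boundary_rect_eq_zero_of_differentiableOn f ((-R : ℝ) : ℂ) (R + h * I)
      hf.differentiableOn
    simp only [ofReal_re, ofReal_im, ofReal_zero, zero_mul, add_zero, add_re, mul_re, I_re, mul_zero, I_im, mul_one,
      sub_self, add_im, mul_im, zero_add, smul_eq_mul] at this
    linear_combination this
  have t6 := t5.sub t4
  rw [sub_zero] at t6
  have t7 := tendsto_nhds_unique (t1.sub t2) (t6.congr fun R => (key R).symm)
  exact sub_eq_zero.1 t7

end Pool.Agent.V11273.SN
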