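import Pool.Agent.V11273.SN.Ext2
import Pool.Agent.V11273.SN.Parts
import Pool.Agent.V11273.SN.Shift

set_option autoImplicit false

namespace Pool.Agent.V11273.SN

open MeasureTheory Filter Topology Set Complex Metric
open scoped FourierTransform

variable {n : ℕ} {α : ℝ}

/-- the difference between the approximation and the truncated power -/
noncomputable def Ec (n : ℕ) (α y : ℝ) : ℂ := FF n α y - (((max y 0) ^ n : ℝ) : ℂ)

lemma Ec_cont (n : ℕ) (α : ℝ) : Continuous (Ec n α) := by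
  unfold Ec
  exact ((FF_diff n α).continuous.comp Complex.continuous_ofReal).sub
    (Complex.continuous_ofReal.comp ((continuous_id.max continuous_const).pow n))

lemma Ec_neg (hn : 0 < n) {y : ℝ} (hy : y ≤ 0) : Ec n α y = FF n α y := by
  unfold Ec
  rw [max_eq_right hy, zero_pow hn.ne', ofReal_zero, sub_zero]

lemma Ec_pos {y : ℝ} (hy : 0 ≤ y) : Ec n α y = FF n α y - (y : ℂ) ^ n := by
  unfold Ec
  rw [max_eq_left hy, ofReal_pow]

lemma Ec_bound (hn : 0 < n) (hα0 : 0 < α) (hα1 : α < 1) (hB : bernoulliFun n α = 0) : ∃ C : ℝ, 0 < C ∧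
    ∀ y : ℝ, ‖Ec n α y‖ ≤ C / (1 + y ^ 2) := by
  obtain ⟨C1, hC1, h1⟩ := FN hα0 hα1 hB
  obtain ⟨C2, hC2, h2⟩ := FP hα0 hα1 hB
  obtain ⟨C5, h5⟩ := (isCompact_Icc (a := (-1:ℝ)) (b := 1)).exists_bound_of_continuousOn (Ec_cont n α).continuousOn
  have hC5 : 0 ≤ C5 := (norm_nonneg _).trans (h5 0 (by norm_num))
  refine ⟨2 * C1 + 2 * C2 + 2 * C5, by positivity, fun y => ?_⟩
  rw [le_div_iff₀ (by positivity)]
  by_cases hy : |y| ≤ 1
  · have a1 := h5 y (abs_le.1 hy)
    have a2 : y ^ 2 ≤ 1 := by rw [← sq_abs]; nlinarith [abs_nonneg y]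
    calc ‖Ec n α y‖ * (1 + y ^ 2) ≤ C5 * 2 := mul_le_mul a1 (by linarith) (by positivity) hC5
      _ ≤ _ := by linarith
  · push Not at hy
    have a2 : 1 ≤ y ^ 2 := by rw [← sq_abs]; nlinarith [abs_nonneg y]
    rcases lt_trichotomy y 0 with h | h | h
    · have := h1 (y : ℂ) (by simpa using h)
      rw [← Ec_neg hn h.le, Complex.norm_real, Real.norm_eq_abs, sq_abs, ofReal_im, abs_zero, mul_zero, Real.exp_zero,
        mul_one, le_div_iff₀ (by positivity)] at this
      nlinarith [norm_nonneg (Ec n α y)]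
    · rw [h, abs_zero] at hy; linarith
    · have := h2 (y : ℂ) (by simpa using h)
      rw [← Ec_pos h.le, Complex.norm_real, Real.norm_eq_abs, sq_abs, ofReal_im, abs_zero, mul_zero, Real.exp_zero,
        mul_one, le_div_iff₀ (by positivity)] at this
      nlinarith [norm_nonneg (Ec n α y)]

lemma Ec_integrable (hn : 0 < n) (hα0 : 0 < α) (hα1 : α < 1) (hB : bernoulliFun n α = 0) : Integrable (Ec n α) := by
  obtain ⟨C, hC, h⟩ := Ec_bound hn hα0 hα1 hB
  refine Integrable.mono' (integrable_inv_one_add_sq.const_mul C) (Ec_cont n α).aestronglyMeasurable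
    (ae_of_all _ fun y => ?_)
  rw [← div_eq_mul_inv]
  exact h y

lemma norm_sq_add (x y : ℝ) : ‖(x + y * I : ℂ)‖ ^ 2 = x ^ 2 + y ^ 2 := by
  rw [← Complex.normSq_eq_norm_sq, Complex.normSq_apply]
  simp; ring

lemma K_hat (hα0 : 0 < α) (hα1 : α < 1) (hB : bernoulliFun n α = 0) {m : ℤ} (hm : m ≠ 0) :
    ∫ y : ℝ, cexp (-(2 * Real.pi * I * m) * y) * iteratedDeriv (n + 1) (FF n α) y = 0 := by
  obtain ⟨C, hC, h⟩ := KB hα0 hα1 hB
  have hKd : Differentiable ℂ (iteratedDeriv (n + 1) (FF n α)) :=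
    ((FF_diff n α).contDiff (n := ⊤)).differentiable_iteratedDeriv (n + 1) (by exact_mod_cast WithTop.coe_lt_top _)
  set f : ℂ → ℂ := fun z => cexp (-(2 * Real.pi * I * m) * z) * iteratedDeriv (n + 1) (FF n α) z with hf
  have hfd : Differentiable ℂ f := by
    rw [hf]
    exact (by fun_prop : Differentiable ℂ fun z : ℂ => cexp (-(2 * Real.pi * I * m) * z)).mul hKd
  have hfn : ∀ x y : ℝ, ‖f (x + y * I)‖ ≤ C * Real.exp (2 * Real.pi * (m * y + |y|)) / (1 + (x ^ 2 + y ^ 2)) := by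
    intro x y
    rw [hf]
    simp only
    rw [norm_mul, Complex.norm_exp]
    have e1 : (-(2 * Real.pi * I * m) * (x + y * I) : ℂ).re = 2 * Real.pi * (m * y) := by
      have : (-(2 * Real.pi * I * m) * (x + y * I) : ℂ) =
          ((2 * Real.pi * (m * y) : ℝ) : ℂ) + ((-(2 * Real.pi * m * x) : ℝ) : ℂ) * I := by
        push_cast
        linear_combination (-(2 * Real.pi * m * y : ℂ)) * Complex.I_sq
      rw [this]; simp
    rw [e1]
    have h1 := h (x + y * I)
    rw [norm_sq_add] at h1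
    have e2 : (x + y * I : ℂ).im = y := by simp
    rw [e2] at h1
    calc _ ≤ Real.exp (2 * Real.pi * (m * y)) * (C * Real.exp (2 * Real.pi * |y|) / (1 + (x ^ 2 + y ^ 2))) := by
          gcongr
      _ = _ := by rw [mul_add (2 * Real.pi), Real.exp_add]; ring
  -- the moved lines
  have hm1 : (1:ℝ) ≤ |(m:ℝ)| := by
    have : (1:ℤ) ≤ |m| := Int.one_le_abs hm
    exact_mod_cast this
  set s : ℝ := if 0 < m then -1 else 1 with hs
  have hms : (m:ℝ) * s = -|(m:ℝ)| := by
    rw [hs]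
    split_ifs with h0
    · have : (0:ℝ) < m := by exact_mod_cast h0
      rw [abs_of_pos this]; ring
    · have : (m:ℝ) ≤ 0 := by exact_mod_cast not_lt.1 h0
      rw [abs_of_nonpos this]; ring
  have hsa : |s| = 1 := by rw [hs]; split_ifs <;> simp
  have hmove : ∀ R : ℝ, 0 ≤ R → ∫ x : ℝ, f x = ∫ x : ℝ, f (x + ((s * R : ℝ) : ℂ) * I) := by
    intro R hR
    refine shift_line hfd (C := C * Real.exp (2 * Real.pi * (|(m:ℝ)| * R + R))) fun x y hy => ?_
    rw [abs_mul, hsa, one_mul, abs_of_nonneg hR] at hy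
    refine (hfn x y).trans ?_
    have e1 : (m:ℝ) * y ≤ |(m:ℝ)| * R := by
      calc (m:ℝ) * y ≤ |(m:ℝ) * y| := le_abs_self _
        _ = |(m:ℝ)| * |y| := abs_mul _ _
        _ ≤ _ := by gcongr
    have e2 : 1 + x ^ 2 ≤ 1 + (x ^ 2 + y ^ 2) := by nlinarith [sq_nonneg y]
    gcongr
  have hlim : Tendsto (fun R : ℝ => ∫ x : ℝ, f (x + ((s * R : ℝ) : ℂ) * I)) atTop (𝓝 (∫ _ : ℝ, (0:ℂ))) := by
    have hb : ∀ R : ℝ, 0 ≤ R → ∀ x : ℝ, ‖f (x + ((s * R : ℝ) : ℂ) * I)‖ ≤ C / (1 + (x ^ 2 + R ^ 2)) := by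
      intro R hR x
      refine (hfn x (s * R)).trans ?_
      have e1 : (m:ℝ) * (s * R) + |s * R| ≤ 0 := by
        rw [abs_mul, hsa, one_mul, abs_of_nonneg hR, ← mul_assoc, hms]
        nlinarith
      have e2 : (s * R) ^ 2 = R ^ 2 := by rw [mul_pow, ← sq_abs s, hsa]; ring
      rw [e2]
      have e3 : Real.exp (2 * Real.pi * ((m:ℝ) * (s * R) + |s * R|)) ≤ 1 := by
        rw [Real.exp_le_one_iff]
        exact mul_nonpos_of_nonneg_of_nonpos (by positivity) e1
      calc _ ≤ C * 1 / (1 + (x ^ 2 + R ^ 2)) := by gcongr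
        _ = _ := by rw [mul_one]
    refine tendsto_integral_filter_of_dominated_convergence (fun x => C * (1 + x ^ 2)⁻¹) ?_ ?_
      (integrable_inv_one_add_sq.const_mul C) ?_
    · exact Eventually.of_forall fun R => (hfd.continuous.comp (by fun_prop)).aestronglyMeasurable
    · filter_upwards [eventually_ge_atTop 0] with R hR
      refine ae_of_all _ fun x => (hb R hR x).trans ?_
      rw [div_eq_mul_inv]
      have : 1 + x ^ 2 ≤ 1 + (x ^ 2 + R ^ 2) := by nlinarith [sq_nonneg R]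
      gcongr
    · refine ae_of_all _ fun x => ?_
      have h2 : Tendsto (fun R : ℝ => C / (1 + (x ^ 2 + R ^ 2))) atTop (𝓝 0) := by
        refine tendsto_const_nhds.div_atTop ?_
        exact tendsto_atTop_add_const_left _ _ (tendsto_atTop_add_const_left _ _ (tendsto_pow_atTop (by norm_num)))
      refine squeeze_zero_norm' ?_ h2
      filter_upwards [eventually_ge_atTop 0] with R hR
      exact hb R hR x
  have h3 : Tendsto (fun R : ℝ => ∫ x : ℝ, f (x + ((s * R : ℝ) : ℂ) * I)) atTop (𝓝 (∫ x : ℝ, f x)) := by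
    refine tendsto_const_nhds.congr' ?_
    filter_upwards [eventually_ge_atTop 0] with R hR
    exact hmove R hR
  have h4 := tendsto_nhds_unique h3 hlim
  rw [integral_zero] at h4
  exact h4

end Pool.Agent.V11273.SN
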