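import Pool.Agent.V11273.SN.IntE

set_option autoImplicit false

namespace Pool.Agent.V11273.SN

open MeasureTheory Filter Topology Set Complex Metric
open scoped FourierTransform

variable {n : ℕ} {α : ℝ}

lemma K_integrable (hα0 : 0 < α) (hα1 : α < 1) (hB : bernoulliFun n α = 0) :
    Integrable fun y : ℝ => iteratedDeriv (n + 1) (FF n α) y := by
  obtain ⟨C, hC, h⟩ := KB hα0 hα1 hB
  refine Integrable.mono' (integrable_inv_one_add_sq.const_mul C) (iter_cont (FF_diff n α) _).aestronglyMeasurable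
    (ae_of_all _ fun y => ?_)
  have := h (y : ℂ)
  rw [Complex.norm_real, Real.norm_eq_abs, sq_abs, ofReal_im, abs_zero, mul_zero, Real.exp_zero, mul_one] at this
  rw [← div_eq_mul_inv]
  exact this

lemma bd_small {g : ℝ → ℂ} {C : ℝ} (hg : ∀ᶠ Y : ℝ in atTop, ‖g Y‖ ≤ C / (1 + Y ^ 2)) : Tendsto g atTop (𝓝 0) := by
  refine squeeze_zero_norm' hg ?_
  refine tendsto_const_nhds.div_atTop ?_
  exact tendsto_atTop_add_const_left _ _ (tendsto_pow_atTop (by norm_num))

lemma E_hat (hn : Even n) (hn0 : 0 < n) (hα0 : 0 < α) (hα1 : α < 1) (hB : bernoulliFun n α = 0) {m : ℤ} (hm : m ≠ 0) :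
    𝓕 (Ec n α) (m : ℝ) = -(n.factorial : ℂ) / (2 * Real.pi * I) ^ (n + 1) * (1 / (m : ℂ) ^ (n + 1)) := by
  set c : ℂ := -(2 * Real.pi * I * m) with hc
  have hc0 : c ≠ 0 := by
    rw [hc, neg_ne_zero]
    have h1 : (Real.pi : ℂ) ≠ 0 := by exact_mod_cast Real.pi_ne_zero
    have h2 : (m : ℂ) ≠ 0 := by exact_mod_cast hm
    simp [h1, h2]
  set G : ℕ → ℝ → ℂ := fun j y => cexp (c * y) / c ^ (n + 1 - j) with hG
  have hGd : ∀ j ≤ n, ∀ y : ℝ, HasDerivAt (G j) (G (j + 1) y) y := by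
    intro j hj y
    have h1 : HasDerivAt (fun y : ℝ => cexp (c * y)) (cexp (c * y) * (c * 1)) y :=
      ((Complex.hasDerivAt_exp _).comp (y : ℂ) ((hasDerivAt_id (y : ℂ)).const_mul c)).comp_ofReal
    have h2 := h1.div_const (c ^ (n + 1 - j))
    refine h2.congr_deriv ?_
    rw [hG]
    simp only
    rw [show n + 1 - j = (n + 1 - (j + 1)) + 1 by omega, pow_succ]
    field_simp
  have hnorm : ∀ y : ℝ, ‖cexp (c * y)‖ = 1 := by
    intro y
    have : c * y = ((-(2 * Real.pi * m * y) : ℝ) : ℂ) * I := by rw [hc]; push_cast; ring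
    rw [this, Complex.norm_exp_ofReal_mul_I]
  have hts := fun Y : ℝ => fun hY : 0 ≤ Y => two_sided (FF_diff n α) n G hY (fun j hj y _ => hGd j hj y)
    ((by rw [hG]; simp only; fun_prop : Continuous (G (n + 1))).continuousOn)
  -- left side
  have hL : ∀ Y : ℝ, 0 ≤ Y → (∫ y in (-Y)..0, G (n + 1) y * FF n α y) +
      (∫ y in (0:ℝ)..Y, G (n + 1) y * (FF n α y - (y : ℂ) ^ n)) = ∫ y in (-Y)..Y, cexp (c * y) * Ec n α y := by
    intro Y hY
    have hcont : Continuous fun y : ℝ => cexp (c * y) * Ec n α y := (by fun_prop : Continuous fun y : ℝ =>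
      cexp (c * y)).mul (Ec_cont n α)
    rw [← intervalIntegral.integral_add_adjacent_intervals (hcont.intervalIntegrable (-Y) 0)
      (hcont.intervalIntegrable 0 Y)]
    congr 1
    · refine intervalIntegral.integral_congr fun y hy => ?_
      rw [Set.uIcc_of_le (by linarith)] at hy
      rw [hG]
      simp only [Nat.sub_self, pow_zero, div_one]
      rw [Ec_neg hn0 hy.2]
    · refine intervalIntegral.integral_congr fun y hy => ?_
      rw [Set.uIcc_of_le hY] at hy
      rw [hG]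
      simp only [Nat.sub_self, pow_zero, div_one]
      rw [Ec_pos hy.1]
  have hEi : Integrable fun y : ℝ => cexp (c * y) * Ec n α y := by
    refine (Ec_integrable hn0 hα0 hα1 hB).norm.mono' ((by fun_prop : Continuous fun y : ℝ =>
      cexp (c * y)).mul (Ec_cont n α)).aestronglyMeasurable (ae_of_all _ fun y => ?_)
    rw [norm_mul, hnorm, one_mul]
  have hKi : Integrable fun y : ℝ => G 0 y * iteratedDeriv (n + 1) (FF n α) y := by
    have h1 : Integrable fun y : ℝ => cexp (c * y) * iteratedDeriv (n + 1) (FF n α) y := by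
      refine (K_integrable hα0 hα1 hB).norm.mono' ((by fun_prop : Continuous fun y : ℝ =>
        cexp (c * y)).mul (iter_cont (FF_diff n α) _)).aestronglyMeasurable (ae_of_all _ fun y => ?_)
      rw [norm_mul, hnorm, one_mul]
    refine (h1.div_const (c ^ (n + 1))).congr (ae_of_all _ fun y => ?_)
    rw [hG]
    simp only [Nat.sub_zero]
    ring
  have hK0 : ∫ y : ℝ, G 0 y * iteratedDeriv (n + 1) (FF n α) y = 0 := by
    have h1 := K_hat hα0 hα1 hB hm
    have h2 : (fun y : ℝ => G 0 y * iteratedDeriv (n + 1) (FF n α) y) =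
        fun y : ℝ => (cexp (-(2 * Real.pi * I * m) * y) * iteratedDeriv (n + 1) (FF n α) y) / c ^ (n + 1) := by
      funext y
      rw [hG, ← hc]
      simp only [Nat.sub_zero]
      ring
    rw [h2, integral_div, h1, zero_div]
  have t1 : Tendsto (fun Y : ℝ => ∫ y in (-Y)..Y, cexp (c * y) * Ec n α y) atTop
      (𝓝 (∫ y : ℝ, cexp (c * y) * Ec n α y)) :=
    intervalIntegral_tendsto_integral hEi tendsto_neg_atTop_atBot tendsto_id
  have t2 : Tendsto (fun Y : ℝ => ∫ y in (-Y)..Y, G 0 y * iteratedDeriv (n + 1) (FF n α) y) atTop (𝓝 0) := by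
    rw [← hK0]
    exact intervalIntegral_tendsto_integral hKi tendsto_neg_atTop_atBot tendsto_id
  have hGn : ∀ (j : ℕ) (y : ℝ), ‖G j y‖ = 1 / ‖c‖ ^ (n + 1 - j) := by
    intro j y
    rw [hG]
    simp only
    rw [norm_div, hnorm, norm_pow]
  have t3 : Tendsto (fun Y : ℝ => ∑ i ∈ Finset.range (n + 1), (-1 : ℂ) ^ i *
      (G (n - i) Y * iteratedDeriv i (fun z => FF n α z - z ^ n) Y -
        G (n - i) (-Y) * iteratedDeriv i (FF n α) ((-Y : ℝ) : ℂ))) atTop (𝓝 (∑ i ∈ Finset.range (n + 1), 0)) := by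
    refine tendsto_finsetSum _ fun i _ => ?_
    obtain ⟨C, hC, h1, h2⟩ := EB hα0 hα1 hB i
    refine bd_small (C := (1 / ‖c‖ ^ (n + 1 - (n - i))) * (2 * C)) ?_
    filter_upwards [eventually_ge_atTop 2] with Y hY
    have a1 := h2 (Y : ℂ) (by simpa using hY)
    have a2 := h1 ((-Y : ℝ) : ℂ) (by rw [ofReal_re]; linarith)
    rw [Complex.norm_real, Real.norm_eq_abs, sq_abs, ofReal_im, abs_zero, mul_zero, Real.exp_zero, mul_one] at a1 a2
    rw [neg_sq] at a2
    rw [norm_mul, norm_pow, norm_neg, norm_one, one_pow, one_mul]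
    refine (norm_sub_le _ _).trans ?_
    rw [norm_mul, norm_mul, hGn, hGn]
    calc _ ≤ 1 / ‖c‖ ^ (n + 1 - (n - i)) * (C / (1 + Y ^ 2)) + 1 / ‖c‖ ^ (n + 1 - (n - i)) * (C / (1 + Y ^ 2)) := by
          gcongr
      _ = _ := by ring
  rw [Finset.sum_const_zero] at t3
  have hmain : ∫ y : ℝ, cexp (c * y) * Ec n α y = (-1) ^ n * n.factorial * G 0 0 := by
    have t4 : Tendsto (fun Y : ℝ => (-1 : ℂ) ^ n * n.factorial * G 0 0 +
        (-1) ^ (n + 1) * (∫ y in (-Y)..Y, G 0 y * iteratedDeriv (n + 1) (FF n α) y) +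
        ∑ i ∈ Finset.range (n + 1), (-1 : ℂ) ^ i * (G (n - i) Y * iteratedDeriv i (fun z => FF n α z - z ^ n) Y -
          G (n - i) (-Y) * iteratedDeriv i (FF n α) ((-Y : ℝ) : ℂ))) atTop
        (𝓝 ((-1 : ℂ) ^ n * n.factorial * G 0 0 + (-1) ^ (n + 1) * 0 + 0)) :=
      (tendsto_const_nhds.add (t2.const_mul _)).add t3
    rw [mul_zero, add_zero, add_zero] at t4
    refine tendsto_nhds_unique t1 (t4.congr' ?_)
    filter_upwards [eventually_ge_atTop 0] with Y hY
    rw [← hts Y hY, hL Y hY]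
  rw [Real.fourier_real_eq_integral_exp_smul]
  have e1 : ∀ y : ℝ, cexp (((-2 * Real.pi * y * m : ℝ) : ℂ) * I) • Ec n α y = cexp (c * y) * Ec n α y := by
    intro y
    rw [smul_eq_mul, hc]
    congr 2
    push_cast; ring
  simp_rw [e1]
  rw [hmain, hn.neg_one_pow, hG]
  simp only [ofReal_zero, mul_zero, Complex.exp_zero, Nat.sub_zero, one_mul]
  rw [hc, neg_pow, mul_pow, (Even.add_one hn).neg_one_pow]
  field_simp

lemma GG_int (α : ℝ) (k : ℤ) : GG α ((α + k : ℝ) : ℂ) = if 0 ≤ k then 1 else 0 := by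
  unfold GG
  have h1 : ∀ j : ℕ, q (((α + k : ℝ) : ℂ) - α - j) = if ((k : ℤ) = j) then 1 else 0 := by
    intro j
    have e : (((α + k : ℝ) : ℂ) - α - j) = ((k - j : ℤ) : ℂ) := by push_cast; ring
    rw [e]
    split_ifs with h
    · rw [h, sub_self, Int.cast_zero, q_zero]
    · have hne : ((k - j : ℤ) : ℂ) ≠ 0 := by
        rw [Ne, Int.cast_eq_zero]; omega
      rw [q_eq hne, mul_comm (Real.pi : ℂ), Complex.sin_int_mul_pi]
      simp
  simp_rw [h1]
  split_ifs with h
  · rw [tsum_eq_single k.toNat]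
    · rw [if_pos (by omega)]
    · intro j hj
      rw [if_neg]
      intro hk
      apply hj
      omega
  · rw [tsum_congr (fun j : ℕ => if_neg (by omega)), tsum_zero]

lemma Ec_int (hn0 : 0 < n) (hα0 : 0 < α) (hα1 : α < 1) (k : ℤ) : Ec n α (α + k) = 0 := by
  have h1 : Complex.sin (Real.pi * (((α + k : ℝ) : ℂ) - α)) = 0 := by
    have : (Real.pi * (((α + k : ℝ) : ℂ) - α) : ℂ) = k * Real.pi := by push_cast; ring
    rw [this, Complex.sin_int_mul_pi]
  unfold Ec FF
  rw [h1, GG_int]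
  split_ifs with h
  · have : (0:ℝ) ≤ k := by exact_mod_cast h
    rw [max_eq_left (by linarith)]
    push_cast
    ring
  · have : (k:ℝ) ≤ -1 := by
      have : k ≤ -1 := by omega
      exact_mod_cast this
    rw [max_eq_right (by linarith), zero_pow hn0.ne']
    simp

/-- the integral of the difference -/
theorem Ec_integral (hn : Even n) (hn0 : 0 < n) (hα0 : 0 < α) (hα1 : α < 1) (hB : bernoulliFun n α = 0) :
    ∫ y : ℝ, Ec n α y = -(bernoulliFun (n + 1) α : ℂ) / (n + 1) := by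
  obtain ⟨C, hC, hb⟩ := Ec_bound hn0 hα0 hα1 hB
  have hS := (hasSum_one_div_pow_mul_fourier_mul_bernoulliFun (k := n + 1) (by omega) (x := α)
    ⟨hα0.le, hα1.le⟩).mul_left (-(n.factorial : ℂ) / (2 * Real.pi * I) ^ (n + 1))
  have h0 : 𝓕 (Ec n α) ((0:ℤ) : ℝ) = ∫ y : ℝ, Ec n α y := by
    rw [Real.fourier_real_eq_integral_exp_smul]
    refine integral_congr_ae (ae_of_all _ fun y => ?_)
    simp
  have hterm : ∀ m : ℤ, 𝓕 (Ec n α) (m : ℝ) * fourier m (α : UnitAddCircle) =
      (if m = 0 then ∫ y : ℝ, Ec n α y else 0) +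
        -(n.factorial : ℂ) / (2 * Real.pi * I) ^ (n + 1) * (1 / (m : ℂ) ^ (n + 1) * fourier m (α : UnitAddCircle)) := by
    intro m
    split_ifs with hm
    · rw [hm, h0]
      simp
    · rw [E_hat hn hn0 hα0 hα1 hB hm, zero_add]; ring
  have hsum : HasSum (fun m : ℤ => 𝓕 (Ec n α) (m : ℝ) * fourier m (α : UnitAddCircle))
      ((∫ y : ℝ, Ec n α y) + -(n.factorial : ℂ) / (2 * Real.pi * I) ^ (n + 1) *
        (-(2 * Real.pi * I) ^ (n + 1) / (n + 1).factorial * bernoulliFun (n + 1) α)) := by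
    simp_rw [hterm]
    exact (hasSum_ite_eq 0 _).add hS
  have hFs : Summable fun m : ℤ => 𝓕 (Ec n α) (m : ℝ) := by
    have h1 : Summable fun m : ℤ => ‖𝓕 (Ec n α) (m : ℝ) * fourier m (α : UnitAddCircle)‖ := hsum.summable.norm
    refine Summable.of_norm (h1.congr fun m => ?_)
    rw [norm_mul]
    have : ‖(fourier m (α : UnitAddCircle) : ℂ)‖ = 1 := by
      rw [fourier_apply]; exact Circle.norm_coe _
    rw [this, mul_one]
  have hP := Real.tsum_eq_tsum_fourier_of_rpow_decay_of_summable (Ec_cont n α) (b := 2) (by norm_num) (by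
    refine Asymptotics.IsBigO.of_bound C ?_
    have h1 : ∀ᶠ x : ℝ in cocompact ℝ, 1 ≤ ‖x‖ := (tendsto_norm_cocompact_atTop (E := ℝ)).eventually_ge_atTop 1
    filter_upwards [h1] with x hx
    rw [Real.norm_eq_abs] at hx
    refine (hb x).trans ?_
    rw [Real.norm_of_nonneg (by positivity), Real.rpow_neg (abs_nonneg x), Real.rpow_two, sq_abs, div_eq_mul_inv]
    have : 0 < x ^ 2 := by rw [← sq_abs]; positivity
    gcongr
    linarith) hFs α
  rw [hsum.tsum_eq] at hP
  have hz : ∀ k : ℤ, Ec n α (α + k) = 0 := Ec_int hn0 hα0 hα1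
  simp_rw [hz, tsum_zero] at hP
  have hpi : (2 * Real.pi * I : ℂ) ^ (n + 1) ≠ 0 := by
    apply pow_ne_zero
    have h1 : (Real.pi : ℂ) ≠ 0 := by exact_mod_cast Real.pi_ne_zero
    simp [h1]
  have hfac : ((n + 1).factorial : ℂ) = (n + 1) * n.factorial := by
    rw [Nat.factorial_succ]; push_cast; ring
  have hf0 : (n.factorial : ℂ) ≠ 0 := by exact_mod_cast n.factorial_ne_zero
  have hn1 : (n + 1 : ℂ) ≠ 0 := by exact_mod_cast Nat.succ_ne_zero n
  have e : -(n.factorial : ℂ) / (2 * Real.pi * I) ^ (n + 1) *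
        (-(2 * Real.pi * I) ^ (n + 1) / (n + 1).factorial * bernoulliFun (n + 1) α) =
      (bernoulliFun (n + 1) α : ℂ) / (n + 1) := by
    rw [hfac]
    field_simp
  rw [e] at hP
  linear_combination -hP

end Pool.Agent.V11273.SN
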