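import Pool.Agent.V11273.SN.Asym

set_option autoImplicit false

namespace Pool.Agent.V11273.SN

open MeasureTheory Filter Topology Set Complex Metric

/-- continuity up to the boundary -/
lemma tend_shift {f : ℂ → ℂ} {z : ℂ} (hi : IntegrableOn (fun u : ℝ => f (z + u)) (Set.Ioi 0)) :
    Tendsto (fun e : ℝ => Pr f (e + z)) (𝓝[>] 0) (𝓝 (Pr f z)) := by
  have h1 : Tendsto (fun e : ℝ => ∫ u in (0:ℝ)..e, f (z + u)) (𝓝[>] 0) (𝓝 0) := by
    have hint : IntervalIntegrable (fun u : ℝ => f (z + u)) volume 0 1 := by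
      rw [intervalIntegrable_iff_integrableOn_Ioc_of_le (by norm_num)]
      exact hi.mono_set Set.Ioc_subset_Ioi_self
    have hc : ContinuousOn (fun e : ℝ => ∫ u in (0:ℝ)..e, f (z + u)) (Set.uIcc 0 1) :=
      intervalIntegral.continuousOn_primitive_interval (by
        rw [Set.uIcc_of_le (by norm_num), ← intervalIntegrable_iff_integrableOn_Icc_of_le (by norm_num)]
        exact hint)
    have h2 := hc 0 (by simp)
    have h3 : Tendsto (fun e : ℝ => ∫ u in (0:ℝ)..e, f (z + u)) (𝓝[Set.Ioc 0 1] 0) (𝓝 (∫ u in (0:ℝ)..0, f (z + u))) :=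
      h2.mono_left (nhdsWithin_mono _ (by rw [Set.uIcc_of_le (by norm_num)]; exact Set.Ioc_subset_Icc_self))
    rw [intervalIntegral.integral_same, nhdsWithin_Ioc_eq_nhdsGT (by norm_num)] at h3
    exact h3
  have h2 : Tendsto (fun e : ℝ => Pr f z - ∫ u in (0:ℝ)..e, f (z + u)) (𝓝[>] 0) (𝓝 (Pr f z - 0)) :=
    tendsto_const_nhds.sub h1
  rw [sub_zero] at h2
  refine h2.congr' ?_
  filter_upwards [self_mem_nhdsWithin] with e he
  rw [← Pr_shift hi (le_of_lt he), add_comm (e : ℂ) z]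
  ring

/-- the real quantity -/
noncomputable def qn (n : ℕ) (z : ℂ) : ℝ := (I ^ n * Ph (n + 1) z).im

lemma qn_le (n : ℕ) (z : ℂ) : |qn n z| ≤ ‖Ph (n + 1) z‖ := by
  unfold qn
  refine (Complex.abs_im_le_norm _).trans ?_
  rw [norm_mul, norm_pow, Complex.norm_I, one_pow, one_mul]

lemma line_mem {e t : ℝ} (he : 0 < e) (ht : 2 < t) : (e + t * I : ℂ) ∈ Om :=
  ⟨by simpa using he, by simpa using ht⟩

lemma qn_cont (h : RHz) (n : ℕ) {e T : ℝ} (he : 0 < e) : ContinuousOn (fun t : ℝ => qn n (e + t * I)) (Set.Icc 3 T) := by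
  intro t ht
  have c1 : ContinuousAt (Ph (n + 1)) (e + t * I) := (Ph_diffAt h _ (line_mem he (by linarith [ht.1]))).continuousAt
  have c2 : ContinuousAt (fun t : ℝ => (e + t * I : ℂ)) t := by fun_prop
  have c3 : ContinuousAt (fun t : ℝ => Ph (n + 1) (e + t * I)) t :=
    ContinuousAt.comp (f := fun t : ℝ => (e + t * I : ℂ)) c1 c2
  have c4 : ContinuousAt (fun t : ℝ => I ^ n * Ph (n + 1) (e + t * I)) t := continuousAt_const.mul c3
  exact (Complex.continuous_im.continuousAt.comp c4).continuousWithinAt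

lemma qn_ftc (h : RHz) (n : ℕ) {e T : ℝ} (he : 0 < e) (hT : 3 ≤ T) :
    ∫ t in (3:ℝ)..T, qn n (e + t * I) = qn (n + 1) (e + T * I) - qn (n + 1) (e + (3:ℝ) * I) := by
  refine intervalIntegral.integral_eq_sub_of_hasDerivAt (f := fun t : ℝ => qn (n + 1) (e + t * I)) (fun t ht => ?_) ?_
  · rw [Set.uIcc_of_le hT] at ht
    have d1 := Ph_deriv h (n + 1) (line_mem he (show 2 < t by linarith [ht.1]))
    have d2 : HasDerivAt (fun w : ℂ => e + w * I) (1 * I) (t : ℂ) := ((hasDerivAt_id (t : ℂ)).mul_const I).const_add _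
    have d3 := ((d1.comp (t : ℂ) d2).const_mul (I ^ (n + 1))).comp_ofReal
    have d4 := Complex.imCLM.hasFDerivAt.comp_hasDerivAt t d3
    simp only [Complex.imCLM_apply] at d4
    unfold qn
    refine d4.congr_deriv ?_
    congr 1
    rw [pow_succ]
    linear_combination (-(I ^ n * Ph (n + 1) (e + t * I))) * Complex.I_sq
  · refine ContinuousOn.intervalIntegrable ?_
    rw [Set.uIcc_of_le hT]
    exact qn_cont h n he

lemma qn_lim {n : ℕ} {z : ℂ} (hi : IntegrableOn (fun u : ℝ => Ph n (z + u)) (Set.Ioi 0)) :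
    Tendsto (fun e : ℝ => qn n (e + z)) (𝓝[>] 0) (𝓝 (qn n z)) := by
  have h1 : Tendsto (fun e : ℝ => Ph (n + 1) (e + z)) (𝓝[>] 0) (𝓝 (Ph (n + 1) z)) := tend_shift hi
  exact (Complex.continuous_im.tendsto _).comp (h1.const_mul (I ^ n))

/-- the boundary formula, given a dominated limit -/
lemma qn_line (h : RHz) (n : ℕ) {T C : ℝ} (hT : 3 ≤ T)
    (hi : ∀ᵐ t : ℝ, t ∈ Set.Icc 3 T → IntegrableOn (fun u : ℝ => Ph n (t * I + u)) (Set.Ioi 0))
    (hb : ∀ e : ℝ, 0 < e → e < 1 → ∀ᵐ t : ℝ, t ∈ Set.Icc 3 T → |qn n (e + t * I)| ≤ C) :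
    IntervalIntegrable (fun t : ℝ => qn n (t * I)) volume 3 T ∧
    ∫ t in (3:ℝ)..T, qn n (t * I) = qn (n + 1) (T * I) - qn (n + 1) ((3:ℝ) * I) := by
  have hIoc : Set.uIoc 3 T ⊆ Set.Icc 3 T := by
    rw [Set.uIoc_of_le hT]; exact Set.Ioc_subset_Icc_self
  have hptw : ∀ᵐ t : ℝ, t ∈ Set.uIoc 3 T → Tendsto (fun e : ℝ => qn n (e + t * I)) (𝓝[>] 0) (𝓝 (qn n (t * I))) := by
    filter_upwards [hi] with t ht htm
    exact qn_lim (ht (hIoc htm))
  have hbd : ∀ᶠ e : ℝ in 𝓝[>] 0, ∀ᵐ t : ℝ, t ∈ Set.uIoc 3 T → ‖qn n (e + t * I)‖ ≤ C := by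
    filter_upwards [Ioo_mem_nhdsGT (show (0:ℝ) < 1 by norm_num)] with e he
    filter_upwards [hb e he.1 he.2] with t ht htm
    rw [Real.norm_eq_abs]
    exact ht (hIoc htm)
  have hms : ∀ᶠ e : ℝ in 𝓝[>] 0, AEStronglyMeasurable (fun t : ℝ => qn n (e + t * I)) (volume.restrict (Set.uIoc 3 T)) := by
    filter_upwards [self_mem_nhdsWithin] with e he
    exact ((qn_cont h n he).mono hIoc).aestronglyMeasurable measurableSet_uIoc
  have t1 := intervalIntegral.tendsto_integral_filter_of_dominated_convergence (μ := volume) (a := 3) (b := T)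
    (l := 𝓝[>] (0:ℝ)) (F := fun (e : ℝ) (t : ℝ) => qn n (e + t * I)) (f := fun t : ℝ => qn n (t * I))
    (fun _ => C) hms hbd intervalIntegrable_const hptw
  have hmem : ∀ t : ℝ, 3 ≤ t → IntegrableOn (fun u : ℝ => Ph (n + 1) (t * I + u)) (Set.Ioi 0) := by
    intro t ht
    exact ray_int2 h n (by simp) (by simp; linarith)
  have t2 : Tendsto (fun e : ℝ => qn (n + 1) (e + T * I) - qn (n + 1) (e + (3:ℝ) * I)) (𝓝[>] 0)
      (𝓝 (qn (n + 1) (T * I) - qn (n + 1) ((3:ℝ) * I))) :=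
    (qn_lim (hmem T hT)).sub (qn_lim (hmem 3 le_rfl))
  constructor
  · -- integrability of the limit
    rw [intervalIntegrable_iff]
    refine Integrable.mono' (g := fun _ => C) (by
      rw [← IntegrableOn, ← intervalIntegrable_iff]; exact intervalIntegrable_const) ?_ ?_
    · -- measurable limit
      have hseq : Tendsto (fun k : ℕ => 1 / ((k : ℝ) + 1)) atTop (𝓝[>] 0) := by
        rw [tendsto_nhdsWithin_iff]
        exact ⟨tendsto_one_div_add_atTop_nhds_zero_nat, Eventually.of_forall fun k => by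
          show (0:ℝ) < 1 / ((k : ℝ) + 1); positivity⟩
      refine aestronglyMeasurable_of_tendsto_ae (atTop : Filter ℕ)
        (f := fun (k : ℕ) (t : ℝ) => qn n (((1 / ((k : ℝ) + 1) : ℝ) : ℂ) + t * I)) (fun k => ?_) ?_
      · exact ((qn_cont h n (by positivity)).mono hIoc).aestronglyMeasurable measurableSet_uIoc
      · rw [ae_restrict_iff' measurableSet_uIoc]
        filter_upwards [hptw] with t ht htm
        exact (ht htm).comp hseq
    · rw [ae_restrict_iff' measurableSet_uIoc]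
      have hall : ∀ᵐ t : ℝ, ∀ k : ℕ, t ∈ Set.uIoc 3 T → |qn n (((1 / ((k : ℝ) + 2) : ℝ) : ℂ) + t * I)| ≤ C := by
        rw [ae_all_iff]
        intro k
        filter_upwards [hb (1 / ((k : ℝ) + 2)) (by positivity) (by
          rw [div_lt_one (by positivity)]; have : (0:ℝ) ≤ k := Nat.cast_nonneg k; linarith)] with t ht htm
        exact ht (hIoc htm)
      have hseq : Tendsto (fun k : ℕ => 1 / ((k : ℝ) + 2)) atTop (𝓝[>] 0) := by
        rw [tendsto_nhdsWithin_iff]
        refine ⟨?_, Eventually.of_forall fun k => by show (0:ℝ) < 1 / ((k : ℝ) + 2); positivity⟩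
        refine tendsto_const_nhds.div_atTop ?_
        exact tendsto_atTop_add_const_right _ _ tendsto_natCast_atTop_atTop
      filter_upwards [hptw, hall] with t ht ha htm
      rw [Real.norm_eq_abs]
      exact le_of_tendsto ((continuous_abs.tendsto _).comp ((ht htm).comp hseq)) (Eventually.of_forall fun k => ha k htm)
  · refine tendsto_nhds_unique t1 (t2.congr' ?_)
    filter_upwards [self_mem_nhdsWithin] with e he
    exact (qn_ftc h n he hT).symm

/-- higher levels -/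
lemma qn_line_succ (h : RHz) (n : ℕ) {T : ℝ} (hT : 3 ≤ T) :
    IntervalIntegrable (fun t : ℝ => qn (n + 1) (t * I)) volume 3 T ∧
    ∫ t in (3:ℝ)..T, qn (n + 1) (t * I) = qn (n + 2) (T * I) - qn (n + 2) ((3:ℝ) * I) := by
  obtain ⟨C, hC, h1⟩ := Ph_bd h n
  refine qn_line h (n + 1) (C := C * Real.log T) hT (ae_of_all _ fun t ht => ?_) fun e he _ => ae_of_all _ fun t ht => ?_
  · exact ray_int2 h n (by simp) (by simp; linarith [ht.1])
  · refine (qn_le _ _).trans ?_
    have := h1 (e + t * I) (by simpa using he.le) (by simp; linarith [ht.1])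
    refine this.trans ?_
    have him : (e + t * I : ℂ).im = t := by simp
    rw [him]
    have : Real.log t ≤ Real.log T := Real.log_le_log (by linarith [ht.1]) ht.2
    gcongr

end Pool.Agent.V11273.SN
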