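import Pool.Agent.V11273.SN.Lnk1
import Pool.Agent.W186.LH.Fac

set_option autoImplicit false

namespace Pool.Agent.V11273.SN

open MeasureTheory Filter Topology Set Complex Metric
open Pool.Agent.H24R2.JP (XX)

/-- an entire function equal to `(4z²-1) ζ(1/2+z)` -/
noncomputable def PZ (z : ℂ) : ℂ := XX z * (Gammaℝ (1 / 2 + z))⁻¹

lemma PZ_diff : Differentiable ℂ PZ := by
  unfold PZ
  exact XX_diff.mul (differentiable_Gammaℝ_inv.comp (by fun_prop : Differentiable ℂ fun z : ℂ => (1 / 2 + z : ℂ)))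

lemma PZ_eq {z : ℂ} (h1 : (1 / 2 + z : ℂ) ≠ 0) (h2 : (1 / 2 + z : ℂ) ≠ 1) :
    PZ z = (4 * z ^ 2 - 1) * riemannZeta (1 / 2 + z) := by
  unfold PZ
  rw [XX_Lam h1 h2, riemannZeta_def_of_ne_zero h1]
  ring

lemma PZ_ne (h : RHz) {z : ℂ} (hz : 0 < z.re) (hz1 : 0 < z.im) : PZ z ≠ 0 := by
  have h0 : (1 / 2 + z : ℂ) ≠ 0 := by
    intro h0
    have := congrArg Complex.re h0
    rw [half_re] at this
    simp at this; linarith
  have h1 : (1 / 2 + z : ℂ) ≠ 1 := ne_one_of_im (by rw [half_im]; exact hz1.ne')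
  rw [PZ_eq h0 h1]
  refine mul_ne_zero ?_ (h _ (by rw [half_re]; linarith) h1)
  intro h2
  have : (1 / 2 + z) * (z - 1 / 2) = 0 := by linear_combination h2 / 4
  rcases mul_eq_zero.1 this with h4 | h4
  · exact h0 h4
  · exact h1 (by linear_combination h4)

lemma Lf_PZ (h : RHz) {z : ℂ} (hz : 0 < z.re) (hz1 : 0 < z.im) :
    Lf z = 1 / (z - 1 / 2) + 1 / (z + 1 / 2) - logDeriv PZ z := by
  have him : z.im ≠ 0 := hz1.ne'
  have hs0 : (1 / 2 + z : ℂ) ≠ 0 := by
    intro h0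
    have := congrArg Complex.im h0
    rw [half_im] at this
    simp at this; exact him this
  have hs1 : (1 / 2 + z : ℂ) ≠ 1 := ne_one_of_im (by rw [half_im]; exact him)
  have hzeta : riemannZeta (1 / 2 + z) ≠ 0 := h _ (by rw [half_re]; linarith) hs1
  have hev : PZ =ᶠ[𝓝 z] fun w => (4 * w ^ 2 - 1) * riemannZeta (1 / 2 + w) := by
    have : ∀ᶠ w : ℂ in 𝓝 z, w.im ≠ 0 := (isOpen_ne_fun Complex.continuous_im continuous_const).mem_nhds him
    filter_upwards [this] with w hw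
    have h1 : (1 / 2 + w : ℂ) ≠ 0 := by
      intro h0
      have := congrArg Complex.im h0
      rw [half_im] at this
      simp at this; exact hw this
    have h2 : (1 / 2 + w : ℂ) ≠ 1 := ne_one_of_im (by rw [half_im]; exact hw)
    exact PZ_eq h1 h2
  have hq1 : (z - 1 / 2 : ℂ) ≠ 0 := by
    intro h4
    exact hs1 (by linear_combination h4)
  have hq2 : (z + 1 / 2 : ℂ) ≠ 0 := by
    intro h4
    exact hs0 (by linear_combination h4)
  have hq : (4 * z ^ 2 - 1 : ℂ) ≠ 0 := by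
    have : (4 * z ^ 2 - 1 : ℂ) = 4 * ((z - 1 / 2) * (z + 1 / 2)) := by ring
    rw [this]
    exact mul_ne_zero (by norm_num) (mul_ne_zero hq1 hq2)
  have hZd : DifferentiableAt ℂ (fun w : ℂ => riemannZeta (1 / 2 + w)) z :=
    (differentiableAt_riemannZeta hs1).comp z (by fun_prop)
  have e1 : logDeriv PZ z = 8 * z / (4 * z ^ 2 - 1) + logDeriv riemannZeta (1 / 2 + z) := by
    rw [(logDeriv_congr_nhds hev).self_of_nhds]
    rw [logDeriv_mul (f := fun w : ℂ => 4 * w ^ 2 - 1) (g := fun w : ℂ => riemannZeta (1 / 2 + w))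
      z hq hzeta (by fun_prop) hZd]
    congr 1
    · rw [logDeriv_apply]
      congr 1
      have : HasDerivAt (fun w : ℂ => 4 * w ^ 2 - 1) (4 * ((2 : ℕ) * z ^ (2 - 1))) z :=
        ((hasDerivAt_pow 2 z).const_mul 4).sub_const 1
      rw [this.deriv]
      push_cast; ring
    · rw [logDeriv_apply, logDeriv_apply, deriv_comp_const_add]
  have e2 : 8 * z / (4 * z ^ 2 - 1) = 1 / (z - 1 / 2) + 1 / (z + 1 / 2) := by
    have : (4 * z ^ 2 - 1 : ℂ) = 4 * ((z - 1 / 2) * (z + 1 / 2)) := by ring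
    rw [this, div_add_div _ _ hq1 hq2, div_eq_div_iff (mul_ne_zero (by norm_num) (mul_ne_zero hq1 hq2))
      (mul_ne_zero hq1 hq2)]
    ring
  rw [e1, e2]
  unfold Lf
  ring

/-- the elementary integral -/
lemma inv_im (a : ℂ) (t u : ℝ) : |(1 / ((u : ℂ) + t * I - a)).im| = |t - a.im| / ((u - a.re) ^ 2 + (t - a.im) ^ 2) := by
  have e1 : (1 / ((u : ℂ) + t * I - a)).im = -(t - a.im) / ((u - a.re) ^ 2 + (t - a.im) ^ 2) := by
    rw [one_div, Complex.inv_im, Complex.normSq_apply]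
    simp
    ring
  rw [e1, abs_div, abs_neg, abs_of_nonneg (by positivity : 0 ≤ (u - a.re) ^ 2 + (t - a.im) ^ 2)]

lemma inv_int (a : ℂ) (t : ℝ) : IntervalIntegrable (fun u : ℝ => |(1 / ((u : ℂ) + t * I - a)).im|) volume 0 (3 / 2) ∧
    ∫ u in (0:ℝ)..(3 / 2), |(1 / ((u : ℂ) + t * I - a)).im| ≤ Real.pi := by
  have hfun : (fun u : ℝ => |(1 / ((u : ℂ) + t * I - a)).im|) = fun u : ℝ => |t - a.im| / ((u - a.re) ^ 2 + (t - a.im) ^ 2) :=
    funext fun u => inv_im a t u
  rw [hfun]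
  set c := t - a.im with hc
  by_cases hc0 : c = 0
  · rw [hc0]
    simp [Real.pi_pos.le]
  · have hcp : 0 < |c| := abs_pos.2 hc0
    have hcont : Continuous fun u : ℝ => |c| / ((u - a.re) ^ 2 + c ^ 2) := by
      refine Continuous.div continuous_const (by fun_prop) fun u => ?_
      positivity
    refine ⟨hcont.intervalIntegrable _ _, ?_⟩
    have hd : ∀ u : ℝ, HasDerivAt (fun u : ℝ => Real.arctan ((u - a.re) / |c|)) (|c| / ((u - a.re) ^ 2 + c ^ 2)) u := by
      intro u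
      have h1 : HasDerivAt (fun u : ℝ => (u - a.re) / |c|) (1 / |c|) u := ((hasDerivAt_id u).sub_const a.re).div_const |c|
      refine h1.arctan.congr_deriv ?_
      have : c ^ 2 = |c| ^ 2 := (sq_abs c).symm
      rw [this]
      field_simp
      ring
    rw [intervalIntegral.integral_eq_sub_of_hasDerivAt (fun u _ => hd u) (hcont.intervalIntegrable _ _)]
    have h1 := Real.arctan_lt_pi_div_two ((3 / 2 - a.re) / |c|)
    have h2 := Real.neg_pi_div_two_lt_arctan ((0 - a.re) / |c|)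
    linarith

lemma sum_ii (Z : Finset ℂ) (m : ℂ → ℕ) (t : ℝ) :
    IntervalIntegrable (fun u : ℝ => ∑ a ∈ Z, (m a : ℝ) * |(1 / ((u : ℂ) + t * I - a)).im|) volume 0 (3 / 2) := by
  have := IntervalIntegrable.sum (μ := volume) (a := 0) (b := 3 / 2) Z
    (f := fun (a : ℂ) (u : ℝ) => (m a : ℝ) * |(1 / ((u : ℂ) + t * I - a)).im|) fun a _ => (inv_int a t).1.const_mul _
  have e : (fun u : ℝ => ∑ a ∈ Z, (m a : ℝ) * |(1 / ((u : ℂ) + t * I - a)).im|) =
      ∑ a ∈ Z, fun u : ℝ => (m a : ℝ) * |(1 / ((u : ℂ) + t * I - a)).im| := by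
    funext u
    rw [Finset.sum_apply]
  rw [e]
  exact this

/-- the uniform bound -/
theorem im_bd (h : RHz) (T : ℝ) : ∃ (C : ℝ) (B : ℝ → ℝ → ℝ), ∀ t : ℝ, 0 < t → t ≤ T →
    (∀ u ∈ Set.Ioc (0:ℝ) (3 / 2), |(Lf ((u : ℂ) + t * I)).im| ≤ B t u) ∧
    IntervalIntegrable (B t) volume 0 (3 / 2) ∧ ∫ u in (0:ℝ)..(3 / 2), B t u ≤ C := by
  classical
  set K : Set ℂ := Set.Icc (0:ℝ) (3 / 2) ×ℂ Set.Icc (0:ℝ) T with hK
  have hKc : IsCompact K := isCompact_Icc.reProdIm isCompact_Icc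
  have hne : ∃ u, PZ u ≠ 0 := ⟨1 + I, PZ_ne h (by simp) (by simp)⟩
  have hfin := Pool.Agent.W186.LH.zfin PZ_diff hne hKc
  set Z : Finset ℂ := hfin.toFinset with hZ
  obtain ⟨g, hg, hgZ, hfac⟩ := Pool.Agent.W186.LH.fac Z PZ_diff hne
  have hgK : ∀ z ∈ K, g z ≠ 0 := by
    intro z hz h0
    by_cases hzZ : z ∈ Z
    · exact hgZ z hzZ h0
    · apply hzZ
      rw [hZ, Set.Finite.mem_toFinset]
      refine ⟨hz, ?_⟩
      rw [hfac z, h0, mul_zero]
  have hgc : ContinuousOn (logDeriv g) K := by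
    intro z hz
    have ha : AnalyticAt ℂ g z := hg.analyticAt z
    have : AnalyticAt ℂ (fun s => deriv g s / g s) z := ha.deriv.div ha (hgK z hz)
    exact this.continuousAt.continuousWithinAt
  obtain ⟨Cg, hCg⟩ := hKc.exists_bound_of_continuousOn hgc
  set m : ℂ → ℕ := fun a => analyticOrderNatAt PZ a with hm
  set B : ℝ → ℝ → ℝ := fun t u => |(1 / ((u : ℂ) + t * I - 1 / 2)).im| + 2 +
    (∑ a ∈ Z, (m a : ℝ) * |(1 / ((u : ℂ) + t * I - a)).im|) + Cg with hB
  refine ⟨Real.pi + 3 + (∑ a ∈ Z, (m a : ℝ) * Real.pi) + 3 / 2 * Cg, B, fun t ht htT => ⟨fun u hu => ?_, ?_, ?_⟩⟩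
  · set z : ℂ := (u : ℂ) + t * I with hz
    have hre : z.re = u := by simp [hz]
    have him : z.im = t := by simp [hz]
    have hzK : z ∈ K := by
      rw [hK, Complex.mem_reProdIm, hre, him]
      exact ⟨⟨hu.1.le, hu.2⟩, ⟨ht.le, htT⟩⟩
    have hPz : PZ z ≠ 0 := PZ_ne h (by rw [hre]; exact hu.1) (by rw [him]; exact ht)
    have hza : ∀ a ∈ Z, z - a ≠ 0 := by
      intro a ha h0
      apply hPz
      rw [sub_eq_zero.1 h0]
      rw [hZ, Set.Finite.mem_toFinset] at ha
      exact ha.2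
    have e1 : logDeriv PZ z = (∑ a ∈ Z, (m a : ℂ) * (1 / (z - a))) + logDeriv g z := by
      have hfun : PZ = fun u => (∏ a ∈ Z, (u - a) ^ (m a)) * g u := funext fun u => hfac u
      rw [hfun]
      rw [logDeriv_mul (f := fun u => ∏ a ∈ Z, (u - a) ^ (m a)) z
        (Finset.prod_ne_zero_iff.2 fun a ha => pow_ne_zero _ (hza a ha)) (hgK z hzK) (by fun_prop) (hg z)]
      congr 1
      rw [logDeriv_prod (f := fun a u => (u - a) ^ (m a)) (fun a ha => pow_ne_zero _ (hza a ha))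
        (fun a _ => by fun_prop)]
      refine Finset.sum_congr rfl fun a ha => ?_
      rw [logDeriv_fun_pow (f := fun u => u - a) (by fun_prop)]
      congr 1
      rw [logDeriv_apply, deriv_sub_const, deriv_id'']
    rw [Lf_PZ h (by rw [hre]; exact hu.1) (by rw [him]; exact ht), e1]
    rw [hB]
    simp only [sub_im, add_im]
    have b1 : |(1 / (z + 1 / 2)).im| ≤ 2 := by
      refine (Complex.abs_im_le_norm _).trans ?_
      rw [norm_div, norm_one, one_div]
      have : 1 / 2 ≤ ‖z + 1 / 2‖ := by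
        have h3 : (z + 1 / 2).re = u + 1 / 2 := by simp [hre]
        have := Complex.abs_re_le_norm (z + 1 / 2)
        rw [h3, abs_of_pos (by linarith [hu.1])] at this
        linarith [hu.1]
      rw [inv_le_comm₀ (by linarith) (by norm_num)]
      linarith
    have b2 : |(logDeriv g z).im| ≤ Cg := (Complex.abs_im_le_norm _).trans (hCg z hzK)
    have b3 : |(∑ a ∈ Z, (m a : ℂ) * (1 / (z - a))).im| ≤ ∑ a ∈ Z, (m a : ℝ) * |(1 / (z - a)).im| := by
      rw [Complex.im_sum]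
      refine (Finset.abs_sum_le_sum_abs _ _).trans (Finset.sum_le_sum fun a _ => ?_)
      have : ((m a : ℂ) * (1 / (z - a))).im = (m a : ℝ) * (1 / (z - a)).im := by
        have : (m a : ℂ) = ((m a : ℝ) : ℂ) := by push_cast; rfl
        rw [this, Complex.im_ofReal_mul]
      rw [this, abs_mul, abs_of_nonneg (Nat.cast_nonneg _)]
    have e5 := abs_add_le ((1 / (z - 1 / 2)).im) ((1 / (z + 1 / 2)).im)
    have e6 := abs_sub (((1 / (z - 1 / 2)).im) + ((1 / (z + 1 / 2)).im))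
      ((∑ a ∈ Z, (m a : ℂ) * (1 / (z - a))).im + (logDeriv g z).im)
    have e7 := abs_add_le ((∑ a ∈ Z, (m a : ℂ) * (1 / (z - a))).im) ((logDeriv g z).im)
    linarith
  · rw [hB]
    exact ((((inv_int (1 / 2) t).1.add intervalIntegrable_const).add (sum_ii Z m t)).add intervalIntegrable_const)
  · rw [hB]
    simp only
    have i1 := (inv_int (1 / 2) t).1
    have i2 := sum_ii Z m t
    rw [intervalIntegral.integral_add ((i1.add intervalIntegrable_const).add i2) intervalIntegrable_const,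
      intervalIntegral.integral_add (i1.add intervalIntegrable_const) i2,
      intervalIntegral.integral_add i1 intervalIntegrable_const, intervalIntegral.integral_finsetSum fun a _ => (inv_int a t).1.const_mul _]
    simp only [intervalIntegral.integral_const, intervalIntegral.integral_const_mul, smul_eq_mul]
    have s1 := (inv_int (1 / 2) t).2
    have s2 : ∑ a ∈ Z, (m a : ℝ) * ∫ u in (0:ℝ)..(3 / 2), |(1 / ((u : ℂ) + t * I - a)).im| ≤ ∑ a ∈ Z, (m a : ℝ) * Real.pi :=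
      Finset.sum_le_sum fun a _ => by
        have := (inv_int a t).2
        gcongr
    linarith

end Pool.Agent.V11273.SN
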