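import Pool.Agent.V11273.SN.Lnk2
import Pool.Agent.V11273.SN.Defs

set_option autoImplicit false

namespace Pool.Agent.V11273.SN

open MeasureTheory Filter Topology Set Complex Metric

/-- uniqueness of the argument -/
lemma IsArg_unique {t θ θ' : ℝ} (h : IsArg t θ) (h' : IsArg t θ') : θ = θ' := by
  obtain ⟨φ, hc, h0, h2, hφ⟩ := h
  obtain ⟨φ', hc', h0', h2', hφ'⟩ := h'
  set T : Set ℝ := Set.range fun k : ℤ => (k : ℝ) * (2 * Real.pi) with hT
  have hmap : MapsTo (fun s => φ s - φ' s) (Set.Icc 0 2) T := by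
    intro s hs
    obtain ⟨a1, a2⟩ := hφ s hs
    obtain ⟨_, b2⟩ := hφ' s hs
    have hn : (‖riemannZeta (path t s)‖ : ℂ) ≠ 0 := by
      rw [Ne, Complex.ofReal_eq_zero, norm_eq_zero]; exact a1
    have h3 : cexp ((φ s : ℂ) * I) = cexp ((φ' s : ℂ) * I) := mul_left_cancel₀ hn (a2.symm.trans b2)
    obtain ⟨k, hk⟩ := Complex.exp_eq_exp_iff_exists_int.1 h3
    refine ⟨k, ?_⟩
    have h4 : ((φ s : ℂ) - φ' s) * I = ((k : ℂ) * (2 * Real.pi)) * I := by rw [sub_mul, hk]; ring
    have h5 := mul_right_cancel₀ Complex.I_ne_zero h4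
    have h6 : (((φ s - φ' s : ℝ)) : ℂ) = (((k : ℝ) * (2 * Real.pi) : ℝ) : ℂ) := by push_cast; exact h5
    exact (Complex.ofReal_injective h6).symm
  have hdisc : IsDiscrete T := by
    have : T = (AddSubgroup.zmultiples (2 * Real.pi) : Set ℝ) := by
      ext x
      rw [hT, SetLike.mem_coe, AddSubgroup.mem_zmultiples_iff]
      simp [zsmul_eq_mul]
    rw [this, isDiscrete_iff_discreteTopology]
    exact inferInstanceAs (DiscreteTopology (AddSubgroup.zmultiples (2 * Real.pi)))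
  have h3 : φ 0 - φ' 0 = φ 2 - φ' 2 :=
    (isPreconnected_Icc (a := (0:ℝ)) (b := 2)).constant_of_mapsTo hdisc (f := fun s => φ s - φ' s) (hc.sub hc') hmap
      (x := 0) (y := 2) (by simp) (by simp)
  rw [h0, h0', h2, h2'] at h3
  linarith

lemma zeta_near_one {s : ℂ} (hs : 2 ≤ s.re) : ‖riemannZeta s - 1‖ ≤ (Real.pi ^ 2 / 6 - 1) * 2 ^ (2 - s.re) := by
  have h1 := zeta_eq_tsum_one_div_nat_add_one_cpow (s := s) (by linarith)
  have hterm : ∀ n : ℕ, ‖1 / ((n : ℂ) + 1 + 1) ^ s‖ ≤ 2 ^ (2 - s.re) * (1 / ((n : ℝ) + 2) ^ 2) := by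
    intro n
    have e1 : ((n : ℂ) + 1 + 1) = (((n : ℝ) + 2 : ℝ) : ℂ) := by push_cast; ring
    rw [e1, norm_div, norm_one, Complex.norm_cpow_eq_rpow_re_of_pos (by positivity)]
    have h2 := two_rpow_le (k := n) hs
    rw [Real.rpow_neg (by positivity), Real.rpow_neg (by positivity)] at h2
    rw [one_div, one_div, ← Real.rpow_natCast]
    exact_mod_cast h2
  have hs2 : HasSum (fun n : ℕ => 1 / ((n : ℝ) + 2) ^ 2) (Real.pi ^ 2 / 6 - 1) := by
    have := hasSum_zeta_two
    have h3 := (hasSum_nat_add_iff' 2).2 this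
    simp [Finset.sum_range_succ] at h3
    simpa using h3
  have hsumm : Summable fun n : ℕ => 1 / ((n : ℂ) + 1 + 1) ^ s :=
    Summable.of_norm_bounded (hs2.summable.mul_left _) hterm
  have hsumm0 : Summable fun n : ℕ => 1 / ((n : ℂ) + 1) ^ s := by
    rw [← summable_nat_add_iff 1]
    refine hsumm.congr fun n => ?_
    push_cast; rfl
  have h4 : riemannZeta s - 1 = ∑' n : ℕ, 1 / ((n : ℂ) + 1 + 1) ^ s := by
    rw [h1, hsumm0.tsum_eq_zero_add]
    have : ∀ n : ℕ, 1 / (((n + 1 : ℕ) : ℂ) + 1) ^ s = 1 / ((n : ℂ) + 1 + 1) ^ s := fun n => by push_cast; rfl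
    simp_rw [this]
    simp
  rw [h4]
  have h5 := tsum_of_norm_bounded (hs2.mul_left (2 ^ (2 - s.re))) hterm
  linarith

lemma pi_sq_bound : 0 < Real.pi ^ 2 / 6 - 1 ∧ Real.pi ^ 2 / 6 - 1 < 1 := by
  have h1 := Real.pi_gt_three
  have h2 := Real.pi_lt_d2
  constructor <;> nlinarith

lemma zeta_slit {s : ℂ} (hs : 2 ≤ s.re) : riemannZeta s ∈ Complex.slitPlane := by
  have h1 := zeta_near_one hs
  obtain ⟨h2, h3⟩ := pi_sq_bound
  have h4 : (2:ℝ) ^ (2 - s.re) ≤ 1 := Real.rpow_le_one_of_one_le_of_nonpos (by norm_num) (by linarith)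
  have h5 : ‖riemannZeta s - 1‖ < 1 := by nlinarith
  left
  have h6 := Complex.abs_re_le_norm (riemannZeta s - 1)
  rw [sub_re, one_re] at h6
  have := (abs_le.1 (h6.trans h5.le)).1
  by_contra hle
  push Not at hle
  have h7 : (riemannZeta s).re = 0 := le_antisymm hle (by linarith)
  rw [h7] at h6
  norm_num at h6
  linarith

lemma tends_two : Tendsto (fun u : ℝ => (2:ℝ) ^ (-u)) atTop (𝓝 0) := by
  simp_rw [two_rpow_exp]
  refine Real.tendsto_exp_atBot.comp ?_
  have h0 : -Real.log 2 < 0 := by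
    have := Real.log_pos (show (1:ℝ) < 2 by norm_num)
    linarith
  exact tendsto_id.const_mul_atTop_of_neg h0

/-- `Ph 1` is the principal logarithm far to the right -/
theorem Ph1_log (h : RHz) {z : ℂ} (hz : 3 / 2 ≤ z.re) (hz2 : 2 < z.im) : Ph 1 z = Complex.log (riemannZeta (1 / 2 + z)) := by
  have hmem : ∀ u : ℝ, 0 ≤ u → z + u ∈ Om := fun u hu =>
    ⟨by rw [add_re']; linarith, by rw [add_im']; exact hz2⟩
  have hsre : ∀ u : ℝ, 0 ≤ u → 2 ≤ (1 / 2 + (z + u)).re := fun u hu => by rw [half_re, add_re']; linarith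
  set D : ℝ → ℂ := fun u => Complex.log (riemannZeta (1 / 2 + (z + u))) - Ph 1 (z + u) with hD
  have hd : ∀ u : ℝ, 0 ≤ u → HasDerivAt D 0 u := by
    intro u hu
    have hs1 : (1 / 2 + (z + u) : ℂ) ≠ 1 := ne_one_of_im (by rw [half_im, add_im']; linarith)
    have h1 : HasDerivAt (fun w : ℂ => Ph 1 (z + w)) (-Ph 0 (z + u)) (u : ℂ) :=
      (Ph_deriv h 0 (hmem u hu)).comp_const_add z (u : ℂ)
    have h2 : HasDerivAt riemannZeta (deriv riemannZeta (1 / 2 + (z + u))) (1 / 2 + (z + u)) :=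
      (differentiableAt_riemannZeta hs1).hasDerivAt
    have h4 : HasDerivAt (fun w : ℂ => (1 / 2 + (z + w) : ℂ)) 1 (u : ℂ) :=
      ((hasDerivAt_id (u : ℂ)).const_add z).const_add (1 / 2)
    have h2' : HasDerivAt (fun w : ℂ => riemannZeta (1 / 2 + (z + w))) (deriv riemannZeta (1 / 2 + (z + u)) * 1) (u : ℂ) :=
      HasDerivAt.comp (h₂ := riemannZeta) (u : ℂ) h2 h4
    have h5 : HasDerivAt (fun w : ℂ => Complex.log (riemannZeta (1 / 2 + (z + w))))
        (deriv riemannZeta (1 / 2 + (z + u)) * 1 / riemannZeta (1 / 2 + (z + u))) (u : ℂ) :=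
      h2'.clog (zeta_slit (hsre u hu))
    have h6 := (h5.sub h1).comp_ofReal
    refine h6.congr_deriv ?_
    show _ - -Lf (z + u) = 0
    unfold Lf
    rw [logDeriv_apply]
    ring
  have hconst : ∀ u : ℝ, 0 ≤ u → D u = D 0 := by
    intro u hu
    have := constant_of_has_deriv_right_zero (f := D) (a := 0) (b := u)
      (fun x hx => (hd x hx.1).continuousAt.continuousWithinAt) (fun x hx => (hd x hx.1).hasDerivWithinAt)
    exact this u ⟨hu, le_rfl⟩
  have htend : Tendsto D atTop (𝓝 (0 - 0)) := by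
    refine Tendsto.sub ?_ ?_
    · have t1 : Tendsto (fun u : ℝ => riemannZeta (1 / 2 + (z + u))) atTop (𝓝 1) := by
        rw [tendsto_iff_norm_sub_tendsto_zero]
        have t2 : Tendsto (fun u : ℝ => (Real.pi ^ 2 / 6 - 1) * (2 ^ (2 - (1 / 2 + z.re) : ℝ) * (2:ℝ) ^ (-u))) atTop (𝓝 0) := by
          simpa using (tends_two.const_mul (2 ^ (2 - (1 / 2 + z.re) : ℝ))).const_mul (Real.pi ^ 2 / 6 - 1)
        refine squeeze_zero' (Eventually.of_forall fun u => norm_nonneg _) ?_ t2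
        filter_upwards [eventually_ge_atTop 0] with u hu
        refine (zeta_near_one (hsre u hu)).trans (le_of_eq ?_)
        rw [half_re, add_re', ← Real.rpow_add (by norm_num)]
        congr 2; ring
      have t3 := (continuousAt_clog (x := 1) (by simp [Complex.one_mem_slitPlane])).tendsto.comp t1
      rw [Complex.log_one] at t3
      exact t3
    · obtain ⟨C, hC, h1⟩ := Ph1_bd h
      obtain ⟨C2, hC2⟩ := Ph1_cls h
      have t2 : Tendsto (fun u : ℝ => (C2 * Real.log z.im * ps z.re) * (2:ℝ) ^ (-u)) atTop (𝓝 0) := by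
        simpa using tends_two.const_mul (C2 * Real.log z.im * ps z.re)
      refine squeeze_zero_norm' ?_ t2
      filter_upwards [eventually_ge_atTop 0] with u hu
      have b1 := hC2.bd (z + u) (hmem u hu)
      rw [add_re', add_im'] at b1
      refine b1.trans ?_
      have b3 : (2:ℝ) ^ (-(z.re + u)) ≤ 2 ^ (-u) := Real.rpow_le_rpow_of_exponent_le (by norm_num) (by linarith)
      have b5 : ps (z.re + u) ≤ ps z.re := hC2.anti _ _ (by linarith) (by linarith)
      have b6 := hC2.nonneg z.re (by linarith)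
      have b7 := hC2.nonneg (z.re + u) (by linarith)
      have b8 := Real.log_nonneg (show (1:ℝ) ≤ z.im by linarith)
      have b9 : 0 ≤ C2 * Real.log z.im := mul_nonneg hC2.pos.le b8
      gcongr
  rw [sub_zero] at htend
  have h0 : D 0 = 0 := by
    have : Tendsto D atTop (𝓝 (D 0)) := by
      refine tendsto_const_nhds.congr' ?_
      filter_upwards [eventually_ge_atTop 0] with u hu
      exact (hconst u hu).symm
    exact tendsto_nhds_unique this htend
  rw [hD] at h0
  simp only [ofReal_zero, add_zero] at h0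
  exact (sub_eq_zero.1 h0).symm

/-- `t` is not an ordinate: nonvanishing on the horizontal segment -/
def Good (t : ℝ) : Prop := ∀ u : ℝ, 0 ≤ u → riemannZeta (1 / 2 + ((u : ℂ) + t * I)) ≠ 0

lemma Lf_contAt {t u : ℝ} (ht : 0 < t) (hg : riemannZeta (1 / 2 + ((u : ℂ) + t * I)) ≠ 0) :
    ContinuousAt Lf ((u : ℂ) + t * I) := by
  have hs1 : (1 / 2 + ((u : ℂ) + t * I) : ℂ) ≠ 1 := ne_one_of_im (by rw [half_im]; simpa using ht.ne')
  have ha := zeta_an hs1
  have h1 : AnalyticAt ℂ (logDeriv riemannZeta) (1 / 2 + ((u : ℂ) + t * I)) := by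
    have : logDeriv riemannZeta = fun s => deriv riemannZeta s / riemannZeta s := rfl
    rw [this]
    exact ha.deriv.div ha hg
  unfold Lf
  have h2 : ContinuousAt (fun z : ℂ => (1 / 2 + z : ℂ)) ((u : ℂ) + t * I) := by fun_prop
  exact (ContinuousAt.comp (f := fun z : ℂ => (1 / 2 + z : ℂ)) h1.continuousAt h2).neg

lemma Lf_seg {t : ℝ} (ht : 0 < t) (hg : Good t) : ContinuousOn (fun u : ℝ => Lf ((u : ℂ) + t * I)) (Set.Ici 0) := by
  intro u hu
  have c2 : ContinuousAt (fun u : ℝ => ((u : ℂ) + t * I : ℂ)) u := by fun_prop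
  exact (ContinuousAt.comp (f := fun u : ℝ => ((u : ℂ) + t * I : ℂ)) (Lf_contAt ht (hg u hu)) c2).continuousWithinAt

lemma zeta_seg {t : ℝ} (ht : 0 < t) (hg : Good t) {v : ℝ} (hv : 0 ≤ v) (hv2 : v ≤ 3 / 2) :
    riemannZeta (1 / 2 + ((v : ℂ) + t * I)) =
      riemannZeta (1 / 2 + (((3 / 2 : ℝ) : ℂ) + t * I)) * cexp (∫ u in v..(3 / 2), Lf ((u : ℂ) + t * I)) := by
  have hc : ContinuousOn (fun u : ℝ => Lf ((u : ℂ) + t * I)) (Set.Icc v (3 / 2)) :=
    (Lf_seg ht hg).mono fun u hu => hv.trans hu.1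
  set E : ℝ → ℂ := fun x => riemannZeta (1 / 2 + ((x : ℂ) + t * I)) * cexp (-∫ u in x..(3 / 2), Lf ((u : ℂ) + t * I)) with hE
  have hder : ∀ x ∈ Set.Ico v (3 / 2), HasDerivWithinAt E 0 (Set.Ici x) x := by
    intro x hx
    have hx0 : 0 ≤ x := hv.trans hx.1
    have hs1 : (1 / 2 + ((x : ℂ) + t * I) : ℂ) ≠ 1 := ne_one_of_im (by rw [half_im]; simpa using ht.ne')
    have h2 : HasDerivAt riemannZeta (deriv riemannZeta (1 / 2 + ((x : ℂ) + t * I))) (1 / 2 + ((x : ℂ) + t * I)) :=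
      (differentiableAt_riemannZeta hs1).hasDerivAt
    have h4 : HasDerivAt (fun w : ℂ => (1 / 2 + (w + t * I) : ℂ)) 1 (x : ℂ) :=
      ((hasDerivAt_id (x : ℂ)).add_const (t * I)).const_add (1 / 2)
    have h5 : HasDerivAt (fun x : ℝ => riemannZeta (1 / 2 + ((x : ℂ) + t * I)))
        (deriv riemannZeta (1 / 2 + ((x : ℂ) + t * I)) * 1) x :=
      (HasDerivAt.comp (h₂ := riemannZeta) (x : ℂ) h2 h4).comp_ofReal
    have h6 : HasDerivWithinAt (fun x : ℝ => ∫ u in x..(3 / 2), Lf ((u : ℂ) + t * I)) (-Lf ((x : ℂ) + t * I)) (Set.Ici x) x := by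
      refine intervalIntegral.integral_hasDerivWithinAt_left ?_ ?_ ?_
      · refine ContinuousOn.intervalIntegrable ?_
        rw [Set.uIcc_of_le hx.2.le]
        exact hc.mono (Set.Icc_subset_Icc hx.1 le_rfl)
      · have h9 : ContinuousOn (fun u : ℝ => Lf ((u : ℂ) + t * I)) (Set.Ioi x) :=
          (Lf_seg ht hg).mono fun u hu => hx0.trans (le_of_lt hu)
        exact h9.stronglyMeasurableAtFilter_nhdsWithin measurableSet_Ioi x
      · exact ((Lf_seg ht hg) x hx0).mono fun u hu => hx0.trans (le_of_lt hu)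
    have h7 : HasDerivWithinAt E (deriv riemannZeta (1 / 2 + ((x : ℂ) + t * I)) * 1 *
        cexp (-∫ u in x..(3 / 2), Lf ((u : ℂ) + t * I)) + riemannZeta (1 / 2 + ((x : ℂ) + t * I)) *
        (cexp (-∫ u in x..(3 / 2), Lf ((u : ℂ) + t * I)) * -(-Lf ((x : ℂ) + t * I)))) (Set.Ici x) x :=
      (h5.hasDerivWithinAt (s := Set.Ici x)).mul h6.neg.cexp
    refine h7.congr_deriv ?_
    have hz := hg x hx0
    have h8 : deriv riemannZeta (1 / 2 + ((x : ℂ) + t * I)) =
        -(Lf ((x : ℂ) + t * I)) * riemannZeta (1 / 2 + ((x : ℂ) + t * I)) := by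
      unfold Lf
      rw [logDeriv_apply, neg_neg, div_mul_cancel₀ _ hz]
    rw [h8]
    ring
  have hcE : ContinuousOn E (Set.Icc v (3 / 2)) := by
    rw [hE]
    refine ContinuousOn.mul ?_ ?_
    · intro x hx
      have hs1 : (1 / 2 + ((x : ℂ) + t * I) : ℂ) ≠ 1 := ne_one_of_im (by rw [half_im]; simpa using ht.ne')
      have c1 : ContinuousAt riemannZeta (1 / 2 + ((x : ℂ) + t * I)) := (differentiableAt_riemannZeta hs1).continuousAt
      have c2 : ContinuousAt (fun u : ℝ => (1 / 2 + ((u : ℂ) + t * I) : ℂ)) x := by fun_prop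
      exact (ContinuousAt.comp (f := fun u : ℝ => (1 / 2 + ((u : ℂ) + t * I) : ℂ)) c1 c2).continuousWithinAt
    · have hi : IntegrableOn (fun u : ℝ => Lf ((u : ℂ) + t * I)) (Set.uIcc v (3 / 2)) := by
        rw [Set.uIcc_of_le hv2]
        exact hc.integrableOn_Icc
      have := intervalIntegral.continuousOn_primitive_interval_left hi
      rw [Set.uIcc_of_le hv2] at this
      exact (this.neg).cexp
  have h1 := constant_of_has_deriv_right_zero hcE hder (3 / 2) ⟨hv2, le_rfl⟩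
  rw [hE] at h1
  simp only [intervalIntegral.integral_same, neg_zero, Complex.exp_zero, mul_one] at h1
  rw [h1, mul_assoc, ← Complex.exp_add, neg_add_cancel, Complex.exp_zero, mul_one]

lemma path_one {t s : ℝ} (hs : s ≤ 1) : path t s = 2 + ((s * t : ℝ) : ℂ) * I := by
  unfold path
  rw [max_eq_right (by linarith), min_eq_left hs]
  push_cast; ring

lemma path_two {t s : ℝ} (hs : 1 ≤ s) : path t s = 1 / 2 + (((3 / 2 - 3 / 2 * (s - 1) : ℝ) : ℂ) + t * I) := by
  unfold path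
  rw [max_eq_left (by linarith), min_eq_right hs]
  push_cast; ring

/-- the explicit argument -/
noncomputable def th (t : ℝ) : ℝ :=
  Complex.arg (riemannZeta (1 / 2 + (((3 / 2 : ℝ) : ℂ) + t * I))) + ∫ u in (0:ℝ)..(3 / 2), (Lf ((u : ℂ) + t * I)).im

lemma im_int {t : ℝ} (ht : 0 < t) (hg : Good t) {v : ℝ} (hv : 0 ≤ v) (hv2 : v ≤ 3 / 2) :
    (∫ u in v..(3 / 2), Lf ((u : ℂ) + t * I)).im = ∫ u in v..(3 / 2), (Lf ((u : ℂ) + t * I)).im := by
  have hi : IntervalIntegrable (fun u : ℝ => Lf ((u : ℂ) + t * I)) volume v (3 / 2) := by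
    refine ContinuousOn.intervalIntegrable ?_
    rw [Set.uIcc_of_le hv2]
    exact (Lf_seg ht hg).mono fun u hu => hv.trans hu.1
  have := Complex.imCLM.intervalIntegral_comp_comm hi
  simp only [Complex.imCLM_apply] at this
  exact this.symm

theorem IsArg_th {t : ℝ} (ht : 0 < t) (hg : Good t) : IsArg t (th t) := by
  have hci : ContinuousOn (fun u : ℝ => (Lf ((u : ℂ) + t * I)).im) (Set.Icc 0 (3 / 2)) :=
    Complex.continuous_im.comp_continuousOn ((Lf_seg ht hg).mono fun u hu => hu.1)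
  set ψ : ℝ → ℝ := fun v => ∫ u in v..(3 / 2), (Lf ((u : ℂ) + t * I)).im with hψ
  have hψc : ContinuousOn ψ (Set.Icc 0 (3 / 2)) := by
    have hi : IntegrableOn (fun u : ℝ => (Lf ((u : ℂ) + t * I)).im) (Set.uIcc 0 (3 / 2)) := by
      rw [Set.uIcc_of_le (by norm_num)]
      exact hci.integrableOn_Icc
    have := intervalIntegral.continuousOn_primitive_interval_left hi
    rwa [Set.uIcc_of_le (by norm_num)] at this
  refine ⟨fun s => Complex.arg (riemannZeta (2 + ((min s 1 * t : ℝ) : ℂ) * I)) + ψ (3 / 2 - 3 / 2 * max (s - 1) 0),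
    ?_, ?_, ?_, fun s hs => ?_⟩
  · refine ContinuousOn.add ?_ ?_
    · refine Continuous.continuousOn (continuous_iff_continuousAt.2 fun s => ?_)
      have hre : (2 + ((min s 1 * t : ℝ) : ℂ) * I).re = 2 := by simp
      have hs1 : (2 + ((min s 1 * t : ℝ) : ℂ) * I : ℂ) ≠ 1 := by
        intro h1
        have := congrArg Complex.re h1
        rw [hre] at this
        norm_num at this
      have c1 := Complex.continuousAt_arg (zeta_slit (s := 2 + ((min s 1 * t : ℝ) : ℂ) * I) (by rw [hre]))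
      have c2 : ContinuousAt riemannZeta (2 + ((min s 1 * t : ℝ) : ℂ) * I) := (differentiableAt_riemannZeta hs1).continuousAt
      have c3 : ContinuousAt (fun s : ℝ => (2 + ((min s 1 * t : ℝ) : ℂ) * I : ℂ)) s := by fun_prop
      exact ContinuousAt.comp (f := fun s : ℝ => riemannZeta (2 + ((min s 1 * t : ℝ) : ℂ) * I)) c1
        (ContinuousAt.comp (f := fun s : ℝ => (2 + ((min s 1 * t : ℝ) : ℂ) * I : ℂ)) c2 c3)
    · refine hψc.comp (f := fun s : ℝ => 3 / 2 - 3 / 2 * max (s - 1) 0) (by fun_prop) fun s hs => ?_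
      have h1 : 0 ≤ max (s - 1) 0 := le_max_right _ _
      have h2 : max (s - 1) 0 ≤ 1 := max_le (by linarith [hs.2]) (by norm_num)
      exact ⟨by linarith, by linarith⟩
  · have h1 : max ((0:ℝ) - 1) 0 = 0 := max_eq_right (by norm_num)
    have h2 : min (0:ℝ) 1 = 0 := min_eq_left (by norm_num)
    simp only [h1, h2, zero_mul, ofReal_zero, add_zero, mul_zero, sub_zero, hψ, intervalIntegral.integral_same]
    rw [riemannZeta_two]
    have : ((Real.pi : ℂ) ^ 2 / 6) = ((Real.pi ^ 2 / 6 : ℝ) : ℂ) := by push_cast; ring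
    rw [this]
    exact Complex.arg_ofReal_of_nonneg (by positivity)
  · have h1 : max ((2:ℝ) - 1) 0 = 1 := by rw [max_eq_left (by norm_num)]; norm_num
    have h2 : min (2:ℝ) 1 = 1 := min_eq_right (by norm_num)
    simp only [h1, h2, one_mul]
    unfold th
    rw [hψ]
    have e1 : (2 + (t : ℂ) * I) = 1 / 2 + (((3 / 2 : ℝ) : ℂ) + t * I) := by push_cast; ring
    have e2 : (3 / 2 - 3 / 2 * 1 : ℝ) = 0 := by norm_num
    rw [e1, e2]
  · rcases le_total s 1 with h1 | h1
    · have hre : (path t s).re = 2 := by rw [path_one h1]; simp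
      have hsl := zeta_slit (s := path t s) (by rw [hre])
      refine ⟨Complex.slitPlane_ne_zero hsl, ?_⟩
      have e1 : max (s - 1) 0 = 0 := max_eq_right (by linarith)
      have e2 : min s 1 = s := min_eq_left h1
      simp only [e1, e2, mul_zero, sub_zero, hψ, intervalIntegral.integral_same, add_zero]
      rw [← path_one h1]
      exact (Complex.norm_mul_exp_arg_mul_I _).symm
    · have e1 : max (s - 1) 0 = s - 1 := max_eq_left (by linarith)
      have e2 : min s 1 = 1 := min_eq_right h1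
      have hv : 0 ≤ 3 / 2 - 3 / 2 * (s - 1) := by linarith [hs.2]
      have hv2 : 3 / 2 - 3 / 2 * (s - 1) ≤ 3 / 2 := by linarith
      set v := 3 / 2 - 3 / 2 * (s - 1) with hvd
      rw [path_two h1, ← hvd]
      refine ⟨hg v hv, ?_⟩
      simp only [e1, e2, one_mul]
      rw [← hvd]
      have e3 : (2 + (t : ℂ) * I) = 1 / 2 + (((3 / 2 : ℝ) : ℂ) + t * I) := by push_cast; ring
      rw [e3]
      have h3 := zeta_seg ht hg hv hv2
      have h4 := im_int ht hg hv hv2
      rw [hψ]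
      simp only
      rw [← h4]
      set W : ℂ := ∫ u in v..(3 / 2), Lf ((u : ℂ) + t * I) with hW
      set a : ℂ := riemannZeta (1 / 2 + (((3 / 2 : ℝ) : ℂ) + t * I)) with ha
      rw [h3, norm_mul, Complex.norm_exp]
      conv_lhs => rw [← Complex.norm_mul_exp_arg_mul_I a, ← Complex.re_add_im W]
      rw [Complex.exp_add]
      push_cast
      rw [add_mul, Complex.exp_add]
      ring

end Pool.Agent.V11273.SN
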