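import Pool.Agent.V11273.SN.Lnk3

set_option autoImplicit false

namespace Pool.Agent.V11273.SN

open MeasureTheory Filter Topology Set Complex Metric

lemma PZ_line {t : ℝ} (ht : 0 < t) : PZ (t * I) = 0 ↔ riemannZeta (1 / 2 + t * I) = 0 := by
  have h0 : (1 / 2 + t * I : ℂ) ≠ 0 := by
    intro h0
    have := congrArg Complex.im h0
    simp at this; exact ht.ne' this
  have h1 : (1 / 2 + t * I : ℂ) ≠ 1 := ne_one_of_im (by simpa using ht.ne')
  rw [PZ_eq h0 h1, mul_eq_zero]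
  constructor
  · rintro (h2 | h2)
    · exfalso
      have e : (4 * (t * I) ^ 2 - 1 : ℂ) = ((-(4 * t ^ 2 + 1) : ℝ) : ℂ) := by
        push_cast
        rw [mul_pow, Complex.I_sq]; ring
      rw [e, Complex.ofReal_eq_zero] at h2
      have : 0 < 4 * t ^ 2 + 1 := by positivity
      linarith
    · exact h2
  · exact fun h2 => Or.inr h2

lemma good_of {h : RHz} {t : ℝ} (ht : 0 < t) (hP : PZ (t * I) ≠ 0) : Good t := by
  intro u hu
  rcases hu.eq_or_lt with h0 | h0
  · rw [← h0, ofReal_zero, zero_add]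
    exact fun h1 => hP ((PZ_line ht).2 h1)
  · exact h _ (by rw [half_re]; simpa using h0) (ne_one_of_im (by rw [half_im]; simpa using ht.ne'))

lemma not_ord (hRH : RiemannHypothesis) {t : ℝ} (ht : 0 < t) (hP : PZ (t * I) ≠ 0) : ¬ IsOrd t := by
  rintro ⟨β, hβ⟩
  have him : ((β : ℂ) + (t : ℂ) * I).im = t := by simp
  have h1 := hRH _ hβ (by
    rintro ⟨n, hn⟩
    have h2 := congrArg Complex.im hn
    rw [him] at h2
    simp at h2
    exact ht.ne' h2) (ne_one_of_im (by rw [him]; exact ht.ne'))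
  have h2 : β = 1 / 2 := by simpa using h1
  apply hP
  rw [PZ_line ht, ← hβ, h2]
  push_cast; rfl

lemma ae_ne (h : RHz) (T : ℝ) : ∀ᵐ t : ℝ, t ∈ Set.Icc 0 T → PZ (t * I) ≠ 0 := by
  have hK : IsCompact ((fun t : ℝ => (t * I : ℂ)) '' Set.Icc 0 T) :=
    isCompact_Icc.image (by fun_prop)
  have hne : ∃ u, PZ u ≠ 0 := ⟨1 + I, PZ_ne h (by simp) (by simp)⟩
  have hfin := Pool.Agent.W186.LH.zfin PZ_diff hne hK
  have hfin2 : {t : ℝ | t ∈ Set.Icc 0 T ∧ PZ (t * I) = 0}.Finite := by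
    refine Set.Finite.of_finite_image (f := fun t : ℝ => (t * I : ℂ)) (hfin.subset ?_) ?_
    · rintro _ ⟨t, ⟨ht1, ht2⟩, rfl⟩
      exact ⟨⟨t, ht1, rfl⟩, ht2⟩
    · intro a _ b _ hab
      have := congrArg Complex.im hab
      simpa using this
  have h0 : volume {t : ℝ | t ∈ Set.Icc 0 T ∧ PZ (t * I) = 0} = 0 := hfin2.measure_zero volume
  rw [ae_iff]
  convert h0 using 2
  ext t
  simp [and_assoc]

lemma Szero_eq (hRH : RiemannHypothesis) {t : ℝ} (ht : 0 < t) (hP : PZ (t * I) ≠ 0) :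
    Szero t = 1 / Real.pi * th t := by
  have hg : Good t := good_of (h := of_RH hRH) ht hP
  unfold Szero
  rw [if_neg (not_ord hRH ht hP)]
  unfold Sarg
  have h1 : IsArg t (Classical.epsilon fun θ : ℝ => IsArg t θ) := Classical.epsilon_spec (p := fun θ : ℝ => IsArg t θ)
    ⟨th t, IsArg_th ht hg⟩
  rw [IsArg_unique h1 (IsArg_th ht hg)]

lemma zeta_meas : Measurable riemannZeta :=
  measurable_of_continuousOn_compl_singleton 1 fun _ hs => (differentiableAt_riemannZeta hs).continuousAt.continuousWithinAt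

lemma Lf_meas : Measurable Lf := by
  unfold Lf
  have h1 : Measurable (logDeriv riemannZeta) := by
    have : logDeriv riemannZeta = fun s => deriv riemannZeta s / riemannZeta s := rfl
    rw [this]
    exact (measurable_deriv riemannZeta).div zeta_meas
  exact (h1.comp (by fun_prop : Measurable fun z : ℂ => (1 / 2 + z : ℂ))).neg

lemma th_meas : Measurable th := by
  unfold th
  refine Measurable.add ?_ ?_
  · exact Complex.measurable_arg.comp (zeta_meas.comp (by fun_prop))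
  · have h1 : StronglyMeasurable (fun p : ℝ × ℝ => (Lf ((p.2 : ℂ) + p.1 * I)).im) := by
      refine Measurable.stronglyMeasurable ?_
      exact Complex.measurable_im.comp (Lf_meas.comp (by fun_prop))
    have h2 := h1.integral_prod_right' (ν := volume.restrict (Set.Ioc (0:ℝ) (3 / 2)))
    have h3 : (fun t : ℝ => ∫ u in (0:ℝ)..(3 / 2), (Lf ((u : ℂ) + t * I)).im) =
        fun t : ℝ => ∫ u in Set.Ioc (0:ℝ) (3 / 2), (Lf ((u : ℂ) + t * I)).im := by
      funext t
      rw [intervalIntegral.integral_of_le (by norm_num)]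
    rw [h3]
    exact h2.measurable

lemma th_bd (h : RHz) (T : ℝ) : ∃ C : ℝ, ∀ t : ℝ, 0 < t → t ≤ T → |th t| ≤ C := by
  obtain ⟨C, B, hB⟩ := im_bd h T
  refine ⟨Real.pi + C, fun t ht htT => ?_⟩
  obtain ⟨b1, b2, b3⟩ := hB t ht htT
  unfold th
  refine (abs_add_le _ _).trans (add_le_add (Complex.abs_arg_le_pi _) ?_)
  have h1 : ‖∫ u in (0:ℝ)..(3 / 2), (Lf ((u : ℂ) + t * I)).im‖ ≤ ∫ u in (0:ℝ)..(3 / 2), B t u :=
    intervalIntegral.norm_integral_le_of_norm_le (by norm_num) (ae_of_all _ fun u hu => b1 u hu) b2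
  exact h1.trans b3

/-- integrability of `S` -/
theorem Szero_int (hRH : RiemannHypothesis) {T : ℝ} (hT : 0 ≤ T) : IntervalIntegrable Szero volume 0 T := by
  obtain ⟨C, hC⟩ := th_bd (of_RH hRH) T
  rw [intervalIntegrable_iff_integrableOn_Ioc_of_le hT]
  have h1 : IntegrableOn (fun t => 1 / Real.pi * th t) (Set.Ioc 0 T) := by
    refine Integrable.mono' (g := fun _ => 1 / Real.pi * C) (by
      simp [integrable_const_iff, isFiniteMeasure_restrict]) (th_meas.const_mul _).aestronglyMeasurable ?_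
    rw [ae_restrict_iff' measurableSet_Ioc]
    refine ae_of_all _ fun t ht => ?_
    rw [Real.norm_eq_abs, abs_mul, abs_of_pos (by positivity : (0:ℝ) < 1 / Real.pi)]
    have := hC t ht.1 ht.2
    gcongr
  refine h1.congr ?_
  rw [Filter.EventuallyEq, ae_restrict_iff' measurableSet_Ioc]
  filter_upwards [ae_ne (of_RH hRH) T] with t ht htm
  exact (Szero_eq hRH htm.1 (ht ⟨htm.1.le, htm.2⟩)).symm

lemma ray0 (h : RHz) {t : ℝ} (ht : 3 ≤ t) (hg : Good t) : IntegrableOn (fun u : ℝ => Ph 0 (t * I + u)) (Set.Ioi 0) := by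
  obtain ⟨C, hC⟩ := Lf_cls h
  have hfun : (fun u : ℝ => Ph 0 (t * I + u)) = fun u : ℝ => Lf ((u : ℂ) + t * I) := by
    funext u; rw [add_comm]; rfl
  rw [hfun]
  have hcont := Lf_seg (by linarith : 0 < t) hg
  have hsplit : Set.Ioi (0:ℝ) = Set.Ioc 0 (3 / 2) ∪ Set.Ioi (3 / 2) := (Set.Ioc_union_Ioi_eq_Ioi (by norm_num)).symm
  rw [hsplit]
  refine IntegrableOn.union ?_ ?_
  · have h1 : ContinuousOn (fun u : ℝ => Lf ((u : ℂ) + t * I)) (Set.Icc 0 (3 / 2)) := hcont.mono fun u hu => hu.1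
    exact h1.integrableOn_Icc.mono_set Set.Ioc_subset_Icc_self
  · have h2 : IntegrableOn (fun u : ℝ => (C * Real.log t * 2) * (2:ℝ) ^ (-u)) (Set.Ioi (3 / 2)) :=
      (two_int.mono_set (Set.Ioi_subset_Ioi (by norm_num))).const_mul _
    refine Integrable.mono' h2 ?_ ?_
    · refine (hcont.mono ?_).aestronglyMeasurable measurableSet_Ioi
      intro u hu
      have : (3 / 2 : ℝ) < u := hu
      show (0:ℝ) ≤ u
      linarith
    · rw [ae_restrict_iff' measurableSet_Ioi]
      refine ae_of_all _ fun u hu => ?_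
      have hu' : (3 / 2 : ℝ) < u := hu
      have hm : ((u : ℂ) + t * I) ∈ Om := line_mem (by linarith) (by linarith)
      have b1 := hC.bd _ hm
      have hre : ((u : ℂ) + t * I).re = u := by simp
      have him : ((u : ℂ) + t * I).im = t := by simp
      rw [hre, him] at b1
      refine b1.trans ?_
      have b8 := Real.log_nonneg (show (1:ℝ) ≤ t by linarith)
      have b9 := hC.pos
      have b10 : 1 + 1 / u ≤ 2 := by
        have : 1 / u ≤ 1 := by rw [div_le_one (by linarith)]; linarith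
        linarith
      gcongr

lemma th_qn (h : RHz) {t : ℝ} (ht : 3 ≤ t) (hg : Good t) : th t = qn 0 (t * I) := by
  have hi := ray0 h ht hg
  have h1 := Pr_shift (f := Ph 0) hi (e := 3 / 2) (by norm_num)
  have h2 : Pr (Ph 0) (t * I + ((3 / 2 : ℝ) : ℂ)) = Complex.log (riemannZeta (1 / 2 + (((3 / 2 : ℝ) : ℂ) + t * I))) := by
    rw [add_comm (((3 / 2 : ℝ) : ℂ))]
    exact Ph1_log h (by simp) (by simp; linarith)
  unfold qn th
  have h3 : Ph (0 + 1) (t * I) = Complex.log (riemannZeta (1 / 2 + (((3 / 2 : ℝ) : ℂ) + t * I))) +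
      ∫ u in (0:ℝ)..(3 / 2), Lf ((u : ℂ) + t * I) := by
    have e1 : Ph (0 + 1) (t * I) = Pr (Ph 0) (t * I) := rfl
    have e2 : (∫ u in (0:ℝ)..(3 / 2), Ph 0 (t * I + u)) = ∫ u in (0:ℝ)..(3 / 2), Lf ((u : ℂ) + t * I) := by
      refine intervalIntegral.integral_congr fun u _ => ?_
      show Lf (t * I + u) = Lf (u + t * I)
      rw [add_comm]
    rw [e1, ← h2, ← e2, ← h1]; ring
  rw [h3, pow_zero, one_mul, add_im, Complex.log_im, im_int (by linarith) hg le_rfl (by norm_num)]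

lemma qn0_bd (h : RHz) (T : ℝ) : ∃ C : ℝ, ∀ e : ℝ, 0 < e → e < 1 → ∀ t ∈ Set.Icc 3 T, |qn 0 (e + t * I)| ≤ C := by
  obtain ⟨C, B, hB⟩ := im_bd h T
  obtain ⟨C1, hC1, h1⟩ := Ph1_bd h
  refine ⟨C + C1 * Real.log T * 2, fun e he he1 t ht => ?_⟩
  obtain ⟨b1, b2, b3⟩ := hB t (by linarith [ht.1]) ht.2
  have hm : (e + t * I : ℂ) ∈ Om := line_mem he (by linarith [ht.1])
  obtain ⟨C2, hC2⟩ := Lf_cls h
  have hi : IntegrableOn (fun u : ℝ => Ph 0 ((e : ℂ) + t * I + u)) (Set.Ioi 0) := by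
    refine ray_int (ψ := fun x => 1 + 1 / x) hC2 (fun u hu => ?_) hm.1.le hm.2
    have e1 : 0 < 1 / ((e : ℂ) + t * I).re := one_div_pos.2 hm.1
    have e2 : 1 / (((e : ℂ) + t * I).re + u) ≤ 1 / ((e : ℂ) + t * I).re :=
      one_div_le_one_div_of_le hm.1 (by linarith)
    have e3 : 0 ≤ u ^ (-(1 / 2 : ℝ)) := by positivity
    show 1 + 1 / (((e : ℂ) + t * I).re + u) ≤ (1 + 1 / ((e : ℂ) + t * I).re) * (1 + u ^ (-(1 / 2 : ℝ)))
    nlinarith
  have h2 := Pr_shift (f := Ph 0) hi (e := 3 / 2 - e) (by linarith)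
  have h3 : Ph 1 (e + t * I) = Ph 1 (((3 / 2 : ℝ) : ℂ) + t * I) + ∫ u in e..(3 / 2), Lf ((u : ℂ) + t * I) := by
    have e1 : Ph 1 (((3 / 2 : ℝ) : ℂ) + t * I) = Pr (Ph 0) ((e : ℂ) + t * I + ((3 / 2 - e : ℝ) : ℂ)) := by
      show Pr (Ph 0) _ = _
      congr 1; push_cast; ring
    have e2 : (∫ u in (0:ℝ)..(3 / 2 - e), Ph 0 ((e : ℂ) + t * I + u)) = ∫ u in e..(3 / 2), Lf ((u : ℂ) + t * I) := by
      have := intervalIntegral.integral_comp_add_right (a := 0) (b := 3 / 2 - e) (fun u : ℝ => Lf ((u : ℂ) + t * I)) e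
      rw [zero_add, sub_add_cancel] at this
      rw [← this]
      refine intervalIntegral.integral_congr fun u _ => ?_
      show Lf _ = Lf _
      congr 1; push_cast; ring
    rw [e1, ← e2, ← h2]
    show Ph 1 _ = _ + (Ph 1 _ - _)
    ring
  have hbig : |(Ph 1 (((3 / 2 : ℝ) : ℂ) + t * I)).im| ≤ C1 * Real.log T * 2 := by
    refine (Complex.abs_im_le_norm _).trans ?_
    have := h1 (((3 / 2 : ℝ) : ℂ) + t * I) (by simp) (by simp; linarith [ht.1])
    refine this.trans ?_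
    have hre : (((3 / 2 : ℝ) : ℂ) + t * I).re = 3 / 2 := by simp
    have him : (((3 / 2 : ℝ) : ℂ) + t * I).im = t := by simp
    rw [hre, him]
    have e1 : (3 / 2 : ℝ) ^ (-(1 / 2 : ℝ)) ≤ 1 := Real.rpow_le_one_of_one_le_of_nonpos (by norm_num) (by norm_num)
    have e2 : Real.log t ≤ Real.log T := Real.log_le_log (by linarith [ht.1]) ht.2
    have e3 : 0 ≤ Real.log t := Real.log_nonneg (by linarith [ht.1])
    have e4 : (1:ℝ) + (3 / 2 : ℝ) ^ (-(1 / 2 : ℝ)) ≤ 2 := by linarith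
    have e5 : 0 ≤ C1 * Real.log T := mul_nonneg hC1.le (e3.trans e2)
    gcongr
  have hint : |(∫ u in e..(3 / 2), Lf ((u : ℂ) + t * I)).im| ≤ C := by
    have hc : IntervalIntegrable (fun u : ℝ => Lf ((u : ℂ) + t * I)) volume e (3 / 2) := by
      refine ContinuousOn.intervalIntegrable fun u hu => ?_
      rw [Set.uIcc_of_le (by linarith)] at hu
      have hm2 : ((u : ℂ) + t * I) ∈ Om := line_mem (by linarith [hu.1]) (by linarith [ht.1])
      have c1 : ContinuousAt Lf ((u : ℂ) + t * I) := (Ph_diffAt h 0 hm2).continuousAt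
      have c2 : ContinuousAt (fun u : ℝ => ((u : ℂ) + t * I : ℂ)) u := by fun_prop
      exact (ContinuousAt.comp (f := fun u : ℝ => ((u : ℂ) + t * I : ℂ)) c1 c2).continuousWithinAt
    have e1 := Complex.imCLM.intervalIntegral_comp_comm hc
    simp only [Complex.imCLM_apply] at e1
    rw [← e1]
    have hsub : IntervalIntegrable (B t) volume e (3 / 2) := b2.mono_set (by
      rw [Set.uIcc_of_le (by linarith), Set.uIcc_of_le (by norm_num)]
      exact Set.Icc_subset_Icc he.le le_rfl)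
    have hsub0 : IntervalIntegrable (B t) volume 0 e := b2.mono_set (by
      rw [Set.uIcc_of_le he.le, Set.uIcc_of_le (by norm_num)]
      exact Set.Icc_subset_Icc le_rfl (by linarith))
    have e2 : ‖∫ u in e..(3 / 2), (Lf ((u : ℂ) + t * I)).im‖ ≤ ∫ u in e..(3 / 2), B t u :=
      intervalIntegral.norm_integral_le_of_norm_le (by linarith) (ae_of_all _ fun u hu =>
        b1 u ⟨by linarith [hu.1], hu.2⟩) hsub
    have e3 : 0 ≤ ∫ u in (0:ℝ)..e, B t u := by
      rw [intervalIntegral.integral_of_le he.le]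
      refine setIntegral_nonneg measurableSet_Ioc fun u hu => ?_
      exact (abs_nonneg _).trans (b1 u ⟨hu.1, by linarith [hu.2]⟩)
    have e4 := intervalIntegral.integral_add_adjacent_intervals hsub0 hsub
    rw [Real.norm_eq_abs] at e2
    linarith
  unfold qn
  rw [pow_zero, one_mul]
  show |(Ph 1 (e + t * I)).im| ≤ _
  rw [h3, add_im]
  refine (abs_add_le _ _).trans ?_
  linarith

/-- the base formula -/
theorem base (hRH : RiemannHypothesis) {T : ℝ} (hT : 3 ≤ T) :
    ∫ t in (3:ℝ)..T, Szero t = 1 / Real.pi * (qn 1 (T * I) - qn 1 ((3:ℝ) * I)) := by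
  have h := of_RH hRH
  obtain ⟨C, hC⟩ := qn0_bd h T
  have h1 := qn_line h 0 hT (C := C) (by
    filter_upwards [ae_ne h T] with t ht htm
    exact ray0 h htm.1 (good_of (h := h) (by linarith [htm.1]) (ht ⟨by linarith [htm.1], htm.2⟩)))
    (fun e he he1 => ae_of_all _ fun t ht => hC e he he1 t ht)
  rw [← h1.2, ← intervalIntegral.integral_const_mul]
  refine intervalIntegral.integral_congr_ae ?_
  filter_upwards [ae_ne h T] with t ht htm
  rw [Set.uIoc_of_le hT] at htm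
  have hP := ht ⟨by linarith [htm.1], htm.2⟩
  rw [Szero_eq hRH (by linarith [htm.1]) hP, th_qn h htm.1.le (good_of (h := h) (by linarith [htm.1]) hP)]

end Pool.Agent.V11273.SN
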