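import Pool.Agent.V11273.SN.Lnk4

set_option autoImplicit false

namespace Pool.Agent.V11273.SN

open MeasureTheory Filter Topology Set Complex Metric

/-- the properties carried by the induction -/
structure Ok (n : ℕ) (f : ℝ → ℝ) : Prop where
  int : ∀ T : ℝ, 0 ≤ T → IntervalIntegrable f volume 0 T
  eq : ∀ T : ℝ, 3 ≤ T → ∫ t in (3:ℝ)..T, f t = 1 / Real.pi * (qn (n + 1) (T * I) - qn (n + 1) ((3:ℝ) * I))

lemma Ok.int2 {n : ℕ} {f : ℝ → ℝ} (h : Ok n f) {a b : ℝ} (ha : 0 ≤ a) (hab : a ≤ b) : IntervalIntegrable f volume a b :=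
  (h.int b (ha.trans hab)).mono_set (by
    rw [Set.uIcc_of_le hab, Set.uIcc_of_le (ha.trans hab)]
    exact Set.Icc_subset_Icc ha le_rfl)

lemma ok_zero (hRH : RiemannHypothesis) : Ok 0 Szero :=
  ⟨fun _ hT => Szero_int hRH hT, fun _ hT => base hRH hT⟩

/-- the next antiderivative -/
noncomputable def nxt (f : ℝ → ℝ) (d : ℝ) (t : ℝ) : ℝ := (∫ τ in (0:ℝ)..t, f τ) + d

lemma nxt_eq {n : ℕ} {f : ℝ → ℝ} (h : Ok n f) (d : ℝ) {t : ℝ} (ht : 3 ≤ t) :
    nxt f d t = 1 / Real.pi * qn (n + 1) (t * I) + (nxt f d 3 - 1 / Real.pi * qn (n + 1) ((3:ℝ) * I)) := by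
  have h1 := intervalIntegral.integral_add_adjacent_intervals (h.int2 le_rfl (by norm_num : (0:ℝ) ≤ 3)) (h.int2 (by norm_num) ht)
  unfold nxt
  rw [← h1, h.eq t ht]
  ring

lemma nxt_int {n : ℕ} {f : ℝ → ℝ} (h : Ok n f) (d : ℝ) (T : ℝ) (hT : 0 ≤ T) :
    IntervalIntegrable (nxt f d) volume 0 T := by
  refine ContinuousOn.intervalIntegrable ?_
  unfold nxt
  refine ContinuousOn.add ?_ continuousOn_const
  refine intervalIntegral.continuousOn_primitive_interval ?_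
  rw [Set.uIcc_of_le hT, ← intervalIntegrable_iff_integrableOn_Icc_of_le hT]
  exact h.int T hT

lemma qn_log (h : RHz) (n : ℕ) : ∃ C : ℝ, 0 < C ∧ ∀ T : ℝ, 3 ≤ T → |qn (n + 1) (T * I)| ≤ C * Real.log T := by
  obtain ⟨C, hC, h1⟩ := Ph_bd h n
  refine ⟨C, hC, fun T hT => (qn_le _ _).trans ?_⟩
  have := h1 (T * I) (by simp) (by simp; linarith)
  have him : (T * I : ℂ).im = T := by simp
  rwa [him] at this

/-- the mean value of the next antiderivative -/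
lemma nxt_mean (h : RHz) {n : ℕ} {f : ℝ → ℝ} (hf : Ok n f) (d : ℝ) :
    Tendsto (fun T : ℝ => (1 / T) * ∫ t in (0:ℝ)..T, nxt f d t) atTop
      (𝓝 (nxt f d 3 - 1 / Real.pi * qn (n + 1) ((3:ℝ) * I))) := by
  set c : ℝ := nxt f d 3 - 1 / Real.pi * qn (n + 1) ((3:ℝ) * I) with hc
  obtain ⟨C, hC, h1⟩ := qn_log h (n + 1)
  have hint := nxt_int hf d
  set A : ℝ := (∫ t in (0:ℝ)..3, nxt f d t) - 1 / Real.pi * qn (n + 2) ((3:ℝ) * I) - 3 * c with hA
  have key : ∀ T : ℝ, 3 ≤ T → ∫ t in (0:ℝ)..T, nxt f d t = A + 1 / Real.pi * qn (n + 2) (T * I) + c * T := by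
    intro T hT
    obtain ⟨i1, i2⟩ := qn_line_succ h n hT
    have h3 : IntervalIntegrable (nxt f d) volume 3 T := (hint T (by linarith)).mono_set (by
      rw [Set.uIcc_of_le hT, Set.uIcc_of_le (by linarith)]
      exact Set.Icc_subset_Icc (by norm_num) le_rfl)
    have h2 := intervalIntegral.integral_add_adjacent_intervals (hint 3 (by norm_num)) h3
    have h4 : ∫ t in (3:ℝ)..T, nxt f d t = ∫ t in (3:ℝ)..T, (1 / Real.pi * qn (n + 1) (t * I) + c) := by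
      refine intervalIntegral.integral_congr fun t ht => ?_
      rw [Set.uIcc_of_le hT] at ht
      exact nxt_eq hf d ht.1
    rw [← h2, h4, intervalIntegral.integral_add (i1.const_mul _) intervalIntegrable_const,
      intervalIntegral.integral_const_mul, i2, intervalIntegral.integral_const, hA, smul_eq_mul]
    ring
  have t1 : Tendsto (fun T : ℝ => A / T + 1 / Real.pi * (qn (n + 2) (T * I) / T) + c) atTop (𝓝 (0 + 1 / Real.pi * 0 + c)) := by
    refine Tendsto.add (Tendsto.add (tendsto_const_nhds.div_atTop tendsto_id) (Tendsto.const_mul _ ?_)) tendsto_const_nhds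
    have t2 : Tendsto (fun T : ℝ => C * (Real.log T / T)) atTop (𝓝 (C * 0)) :=
      Real.isLittleO_log_id_atTop.tendsto_div_nhds_zero.const_mul C
    rw [mul_zero] at t2
    refine squeeze_zero_norm' ?_ t2
    filter_upwards [eventually_ge_atTop 3] with T hT
    rw [norm_div, Real.norm_eq_abs, Real.norm_eq_abs, abs_of_pos (by linarith : 0 < T), ← mul_div_assoc]
    have := h1 T hT
    gcongr
  rw [zero_add, mul_zero, zero_add] at t1
  refine t1.congr' ?_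
  filter_upwards [eventually_ge_atTop 3] with T hT
  rw [key T hT]
  have : T ≠ 0 := by linarith
  field_simp

/-- mean value zero fixes the constant -/
lemma nxt_zero (h : RHz) {n : ℕ} {f : ℝ → ℝ} (hf : Ok n f) (d : ℝ) :
    MeanZero (nxt f d) ↔ nxt f d 3 = 1 / Real.pi * qn (n + 1) ((3:ℝ) * I) := by
  have h1 := nxt_mean h hf d
  unfold MeanZero
  constructor
  · intro h2
    have := tendsto_nhds_unique h1 h2
    linarith
  · intro h2
    rw [h2, sub_self] at h1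
    exact h1

lemma nxt_ok (h : RHz) {n : ℕ} {f : ℝ → ℝ} (hf : Ok n f) {d : ℝ} (hm : MeanZero (nxt f d)) :
    Ok (n + 1) (nxt f d) ∧ ∀ t : ℝ, 3 ≤ t → nxt f d t = 1 / Real.pi * qn (n + 1) (t * I) := by
  have h0 := (nxt_zero h hf d).1 hm
  have h1 : ∀ t : ℝ, 3 ≤ t → nxt f d t = 1 / Real.pi * qn (n + 1) (t * I) := by
    intro t ht
    rw [nxt_eq hf d ht, h0]; ring
  refine ⟨⟨nxt_int hf d, fun T hT => ?_⟩, h1⟩
  obtain ⟨i1, i2⟩ := qn_line_succ h n hT
  rw [← i2, ← intervalIntegral.integral_const_mul]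
  refine intervalIntegral.integral_congr fun t ht => ?_
  rw [Set.uIcc_of_le hT] at ht
  exact h1 t ht.1

lemma Sn_succ (δ : ℕ → ℝ) (n : ℕ) : Sn δ (n + 1) = nxt (Sn δ n) (δ (n + 1)) := rfl

lemma Sn_ok (hRH : RiemannHypothesis) {δ : ℕ → ℝ} (hδ : ∀ n, 1 ≤ n → MeanZero (Sn δ n)) (n : ℕ) : Ok n (Sn δ n) := by
  induction n with
  | zero => exact ok_zero hRH
  | succ n ih =>
    have hm := hδ (n + 1) (by omega)
    rw [Sn_succ] at hm ⊢
    exact (nxt_ok (of_RH hRH) ih hm).1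

lemma Sn_formula (hRH : RiemannHypothesis) {δ : ℕ → ℝ} (hδ : ∀ n, 1 ≤ n → MeanZero (Sn δ n)) (n : ℕ) {t : ℝ}
    (ht : 3 ≤ t) : Sn δ (n + 1) t = 1 / Real.pi * qn (n + 1) (t * I) := by
  have hm := hδ (n + 1) (by omega)
  rw [Sn_succ] at hm ⊢
  exact (nxt_ok (of_RH hRH) (Sn_ok hRH hδ n) hm).2 t ht

/-- the functions with the right constants -/
noncomputable def UU : ℕ → ℝ → ℝ
  | 0 => Szero
  | n + 1 => nxt (UU n) (1 / Real.pi * qn (n + 1) ((3:ℝ) * I) - ∫ τ in (0:ℝ)..3, UU n τ)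

noncomputable def dd : ℕ → ℝ
  | 0 => 0
  | n + 1 => 1 / Real.pi * qn (n + 1) ((3:ℝ) * I) - ∫ τ in (0:ℝ)..3, UU n τ

lemma Sn_UU (n : ℕ) : Sn dd n = UU n := by
  induction n with
  | zero => rfl
  | succ n ih =>
    rw [Sn_succ, ih]
    rfl

lemma UU_ok (hRH : RiemannHypothesis) (n : ℕ) : Ok n (UU n) ∧ MeanZero (UU (n + 1)) := by
  have key : ∀ n, Ok n (UU n) → MeanZero (UU (n + 1)) := by
    intro n hn
    have : UU (n + 1) = nxt (UU n) (1 / Real.pi * qn (n + 1) ((3:ℝ) * I) - ∫ τ in (0:ℝ)..3, UU n τ) := rfl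
    rw [this, nxt_zero (of_RH hRH) hn]
    unfold nxt
    ring
  induction n with
  | zero => exact ⟨ok_zero hRH, key 0 (ok_zero hRH)⟩
  | succ n ih =>
    have h1 : Ok (n + 1) (UU (n + 1)) := (nxt_ok (of_RH hRH) ih.1 ih.2).1
    exact ⟨h1, key (n + 1) h1⟩

theorem exists_delta (hRH : RiemannHypothesis) : ∃ δ : ℕ → ℝ, ∀ n, 1 ≤ n → MeanZero (Sn δ n) := by
  refine ⟨dd, fun n hn => ?_⟩
  obtain ⟨k, rfl⟩ : ∃ k, n = k + 1 := ⟨n - 1, by omega⟩
  rw [Sn_UU]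
  exact (UU_ok hRH k).2

theorem unique_delta (hRH : RiemannHypothesis) {δ δ' : ℕ → ℝ} (hδ : ∀ n, 1 ≤ n → MeanZero (Sn δ n))
    (hδ' : ∀ n, 1 ≤ n → MeanZero (Sn δ' n)) : ∀ n, 1 ≤ n → δ n = δ' n := by
  have h := of_RH hRH
  have key : ∀ n, Sn δ n = Sn δ' n → δ (n + 1) = δ' (n + 1) := by
    intro n hn
    have h1 := hδ (n + 1) (by omega)
    have h2 := hδ' (n + 1) (by omega)
    rw [Sn_succ] at h1 h2
    rw [nxt_zero h (Sn_ok hRH hδ n)] at h1
    rw [nxt_zero h (Sn_ok hRH hδ' n)] at h2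
    unfold nxt at h1 h2
    rw [hn] at h1
    linarith
  have hfun : ∀ n, Sn δ n = Sn δ' n := by
    intro n
    induction n with
    | zero => rfl
    | succ n ih => rw [Sn_succ, Sn_succ, ih, key n ih]
  intro n hn
  obtain ⟨k, rfl⟩ : ∃ k, n = k + 1 := ⟨n - 1, by omega⟩
  exact key k (hfun k)

lemma max_eq {n : ℕ} {x : ℝ} (hx : x ∈ Set.Icc (0:ℝ) 1)
    (h : ∀ s ∈ Set.Icc (0:ℝ) 1, bernoulliFun n s ≤ bernoulliFun n x) : Mmax n = bernoulliFun n x := by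
  unfold Mmax
  refine IsGreatest.csSup_eq ⟨⟨x, hx, rfl⟩, ?_⟩
  rintro _ ⟨s, hs, rfl⟩
  exact h s hs

lemma min_eq {n : ℕ} {x : ℝ} (hx : x ∈ Set.Icc (0:ℝ) 1)
    (h : ∀ s ∈ Set.Icc (0:ℝ) 1, bernoulliFun n x ≤ bernoulliFun n s) : Mmin n = bernoulliFun n x := by
  unfold Mmin
  refine IsLeast.csInf_eq ⟨⟨x, hx, rfl⟩, ?_⟩
  rintro _ ⟨s, hs, rfl⟩
  exact h s hs

theorem final (hRH : RiemannHypothesis) {δ : ℕ → ℝ} (hδ : ∀ n, 1 ≤ n → MeanZero (Sn δ n)) {n : ℕ} (hn2 : 2 ≤ n)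
    (hn : Even n) {ε : ℝ} (hε : 0 < ε) :
    ∀ᶠ t : ℝ in atTop, -((Aminus n + ε) * Lam n t) ≤ Sn δ n t ∧ Sn δ n t ≤ (Aplus n + ε) * Lam n t := by
  have h := of_RH hRH
  have hn0 : 0 < n := by omega
  have hodd : ∀ s, bernoulliFun (n + 1) (1 - s) = -bernoulliFun (n + 1) s := by
    intro s
    rw [bernoulliFun_eval_one_sub, hn.add_one.neg_one_pow]; ring
  obtain ⟨α, ha0, ha1, haB, haM⟩ := exists_alpha hn hn0 (σ := 1) (Or.inl rfl)
  obtain ⟨β, hb0, hb1, hbB, hbM⟩ := exists_alpha hn hn0 (σ := -1) (Or.inr rfl)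
  have e1 := asym h hn hn0 ha0 ha1 haB (Or.inl rfl) haM hε
  have e2 := asym h hn hn0 hb0 hb1 hbB (Or.inr rfl) hbM hε
  have hmx : Mmax (n + 1) = bernoulliFun (n + 1) (1 - α) :=
    max_eq ⟨by linarith, by linarith⟩ fun s hs => by simpa using haM s hs
  have hmn : Mmin (n + 1) = bernoulliFun (n + 1) (1 - β) :=
    min_eq ⟨by linarith, by linarith⟩ fun s hs => by have := hbM s hs; linarith
  have hmn2 : Mmin (n + 1) = -bernoulliFun (n + 1) (1 - α) := by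
    rw [← hodd, sub_sub_cancel]
    refine min_eq ⟨ha0.le, ha1.le⟩ fun s hs => ?_
    have := haM (1 - s) ⟨by linarith [hs.2], by linarith [hs.1]⟩
    rw [hodd s, hodd α] at this
    linarith
  filter_upwards [e1, e2, eventually_ge_atTop 3] with t f1 f2 ht
  have hS : Sn δ n t = 1 / Real.pi * (I ^ n * Ph (n + 1) (t * I)).im := by
    obtain ⟨k, rfl⟩ : ∃ k, n = k + 1 := ⟨n - 1, by omega⟩
    exact Sn_formula hRH hδ k ht
  rw [hS]
  constructor
  · have : Aminus n = Real.pi ^ n * (-1 * bernoulliFun (n + 1) (1 - β)) / (2 * (n + 1).factorial) := by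
      unfold Aminus
      rw [← hmn, hmn2, hmx]; ring_nf
    rw [this]
    unfold Lam
    linarith
  · have : Aplus n = Real.pi ^ n * (1 * bernoulliFun (n + 1) (1 - α)) / (2 * (n + 1).factorial) := by
      unfold Aplus
      rw [hmn2]; ring_nf
    rw [this]
    unfold Lam
    linarith

end Pool.Agent.V11273.SN
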