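import Pool.Agent.V11273.SN.Err

set_option autoImplicit false

namespace Pool.Agent.V11273.SN

open MeasureTheory Filter Topology Set Complex Metric

variable {n : ℕ} {α : ℝ}

/-- the scaled approximation -/
noncomputable def FD (n : ℕ) (α D : ℝ) (w : ℂ) : ℂ := ((D : ℂ) ^ n)⁻¹ * FF n α (D * w)

lemma FD_diff (n : ℕ) (α D : ℝ) : Differentiable ℂ (FD n α D) := by
  unfold FD
  exact ((FF_diff n α).comp (by fun_prop : Differentiable ℂ fun w : ℂ => (D * w : ℂ))).const_mul _

lemma FD_iter (n : ℕ) (α D : ℝ) (j : ℕ) (w : ℂ) :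
    iteratedDeriv j (FD n α D) w = ((D : ℂ) ^ n)⁻¹ * ((D : ℂ) ^ j * iteratedDeriv j (FF n α) (D * w)) := by
  have h1 : FD n α D = fun w => ((D : ℂ) ^ n)⁻¹ * (fun w => FF n α (D * w)) w := rfl
  rw [h1, iteratedDeriv_const_mul_field]
  rw [iteratedDeriv_comp_const_mul (FF_diff n α).contDiff]

lemma FD_iter_sub (n : ℕ) (α : ℝ) {D : ℝ} (hD : D ≠ 0) (j : ℕ) (w : ℂ) :
    iteratedDeriv j (fun z => FD n α D z - z ^ n) w =
      ((D : ℂ) ^ n)⁻¹ * ((D : ℂ) ^ j * iteratedDeriv j (fun z => FF n α z - z ^ n) (D * w)) := by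
  have hDc : (D : ℂ) ≠ 0 := by exact_mod_cast hD
  have h1 : (fun z => FD n α D z - z ^ n) = fun w => ((D : ℂ) ^ n)⁻¹ * (fun w => (fun z => FF n α z - z ^ n) (D * w)) w := by
    funext z
    simp only [FD]
    rw [mul_pow]
    field_simp
  rw [h1, iteratedDeriv_const_mul_field]
  rw [iteratedDeriv_comp_const_mul (FD_sub n α).contDiff]

lemma FD_KD (n : ℕ) (α : ℝ) {D : ℝ} (hD : D ≠ 0) (w : ℂ) : iteratedDeriv (n + 1) (FD n α D) w = KD n α D w := by
  have hDc : (D : ℂ) ≠ 0 := by exact_mod_cast hD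
  rw [FD_iter]
  unfold KD
  field_simp
  ring

/-- derivative bounds at distance from the origin -/
lemma FD_bd (hα0 : 0 < α) (hα1 : α < 1) (hB : bernoulliFun n α = 0) : ∃ C : ℝ, 0 < C ∧ ∀ j ≤ n, ∀ D Y : ℝ, 1 ≤ D → 3 ≤ Y →
    ‖iteratedDeriv j (FD n α D) ((-Y : ℝ) : ℂ)‖ ≤ C / Y ^ 2 ∧
    ‖iteratedDeriv j (fun z => FD n α D z - z ^ n) (Y : ℂ)‖ ≤ C / Y ^ 2 := by
  choose C hC h1 h2 using fun j => EB hα0 hα1 hB j
  refine ⟨∑ j ∈ Finset.range (n + 1), C j, Finset.sum_pos (fun j _ => hC j) (by simp), fun j hj D Y hD hY => ?_⟩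
  have hD0 : 0 < D := by linarith
  have hCj : C j ≤ ∑ j ∈ Finset.range (n + 1), C j :=
    Finset.single_le_sum (f := C) (fun i _ => (hC i).le) (Finset.mem_range.2 (by omega))
  have hpre : ∀ w : ℂ, ‖((D : ℂ) ^ n)⁻¹ * ((D : ℂ) ^ j * w)‖ ≤ ‖w‖ := by
    intro w
    rw [norm_mul, norm_mul, norm_inv, norm_pow, norm_pow, Complex.norm_real, Real.norm_eq_abs, abs_of_pos hD0,
      ← mul_assoc]
    have : (D ^ n)⁻¹ * D ^ j ≤ 1 := by
      rw [inv_mul_le_iff₀ (by positivity), mul_one]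
      exact pow_le_pow_right₀ hD hj
    exact mul_le_of_le_one_left (norm_nonneg _) this
  have hDY : 3 ≤ D * Y := by nlinarith
  have hfin : C j / (1 + (D * Y) ^ 2) ≤ (∑ j ∈ Finset.range (n + 1), C j) / Y ^ 2 := by
    have := hC j
    have h5 : Y ≤ D * Y := by nlinarith
    have h6 : Y ^ 2 ≤ 1 + (D * Y) ^ 2 := by nlinarith
    exact div_le_div₀ (this.le.trans hCj) hCj (by positivity) h6
  constructor
  · rw [FD_iter]
    refine (hpre _).trans (le_trans ?_ hfin)
    have e : (D * ((-Y : ℝ) : ℂ) : ℂ) = ((-(D * Y) : ℝ) : ℂ) := by push_cast; ring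
    rw [e]
    have := h1 j ((-(D * Y) : ℝ) : ℂ) (by rw [ofReal_re]; linarith)
    rwa [Complex.norm_real, Real.norm_eq_abs, sq_abs, ofReal_im, abs_zero, mul_zero, Real.exp_zero, mul_one,
      neg_sq] at this
  · rw [FD_iter_sub n α hD0.ne']
    refine (hpre _).trans (le_trans ?_ hfin)
    have e : (D * (Y : ℂ) : ℂ) = ((D * Y : ℝ) : ℂ) := by push_cast; ring
    rw [e]
    have := h2 j ((D * Y : ℝ) : ℂ) (by rw [ofReal_re]; linarith)
    rwa [Complex.norm_real, Real.norm_eq_abs, sq_abs, ofReal_im, abs_zero, mul_zero, Real.exp_zero, mul_one] at this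

lemma log_two_mul {t : ℝ} (ht : 6 ≤ t) : Real.log (2 * t) ≤ Real.log t + 1 := by
  rw [Real.log_mul (by norm_num) (by linarith)]
  have := Real.log_two_lt_d9
  linarith

lemma log_le_sqrt {t : ℝ} (ht : 1 ≤ t) : Real.log t ≤ 2 * Real.sqrt t := by
  have h1 : Real.log (Real.sqrt t) ≤ Real.sqrt t - 1 := Real.log_le_sub_one_of_pos (Real.sqrt_pos.2 (by linarith))
  rw [Real.log_sqrt (by linarith)] at h1
  linarith

/-- the crude bound for all levels at height about `t`, at distance `1/t` from the line -/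
lemma Ph_all (h : RHz) (j : ℕ) : ∃ C : ℝ, 0 < C ∧ ∀ t : ℝ, 6 ≤ t → ∀ y : ℝ, |y| ≤ t / 2 →
    ‖Ph (j + 1) (((1 / t : ℝ) : ℂ) + t * I - I * y)‖ ≤ C * t := by
  have him : ∀ t y : ℝ, (((1 / t : ℝ) : ℂ) + t * I - I * y).re = 1 / t ∧ (((1 / t : ℝ) : ℂ) + t * I - I * y).im = t - y := by
    intro t y; constructor <;> simp
  have hlog : ∀ t : ℝ, 6 ≤ t → ∀ y : ℝ, |y| ≤ t / 2 → Real.log (t - y) ≤ 4 * Real.sqrt t ∧ 2 < t - y := by
    intro t ht y hy
    obtain ⟨y1, y2⟩ := abs_le.1 hy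
    refine ⟨?_, by linarith⟩
    have h1 : Real.log (t - y) ≤ Real.log (2 * t) := Real.log_le_log (by linarith) (by linarith)
    have h2 := log_two_mul ht
    have h3 := log_le_sqrt (t := t) (by linarith)
    have h4 : 1 ≤ Real.sqrt t := Real.one_le_sqrt.2 (by linarith)
    linarith
  rcases j with _ | j
  · obtain ⟨C, hC, h1⟩ := Ph1_bd h
    refine ⟨8 * C, by positivity, fun t ht y hy => ?_⟩
    obtain ⟨a1, a2⟩ := him t y
    obtain ⟨b1, b2⟩ := hlog t ht y hy
    have h2 := h1 (((1 / t : ℝ) : ℂ) + t * I - I * y) (by rw [a1]; positivity) (by rw [a2]; exact b2)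
    rw [a1, a2] at h2
    refine h2.trans ?_
    have e1 : (1 / t) ^ (-(1 / 2 : ℝ)) = Real.sqrt t := by
      rw [one_div, Real.inv_rpow (by linarith), Real.rpow_neg (by linarith), inv_inv, Real.sqrt_eq_rpow]
    rw [e1]
    have e2 : 1 ≤ Real.sqrt t := Real.one_le_sqrt.2 (by linarith)
    have e3 : Real.sqrt t * Real.sqrt t = t := Real.mul_self_sqrt (by linarith)
    calc C * Real.log (t - y) * (1 + Real.sqrt t) ≤ C * (4 * Real.sqrt t) * (Real.sqrt t + Real.sqrt t) := by gcongr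
      _ = 8 * C * (Real.sqrt t * Real.sqrt t) := by ring
      _ = _ := by rw [e3]
  · obtain ⟨C, hC, h1⟩ := Ph_bd h j
    refine ⟨4 * C, by positivity, fun t ht y hy => ?_⟩
    obtain ⟨a1, a2⟩ := him t y
    obtain ⟨b1, b2⟩ := hlog t ht y hy
    have h2 := h1 (((1 / t : ℝ) : ℂ) + t * I - I * y) (by rw [a1]; positivity) (by rw [a2]; exact b2)
    rw [a2] at h2
    refine h2.trans ?_
    have e3 : Real.sqrt t ≤ t := Real.sqrt_le_iff.2 ⟨by linarith, by nlinarith⟩
    calc C * Real.log (t - y) ≤ C * (4 * t) := by gcongr; linarith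
      _ = _ := by ring

lemma Er_integrable (hn : 0 < n) (hα0 : 0 < α) (hα1 : α < 1) (hB : bernoulliFun n α = 0) : Integrable (Er n α) := by
  obtain ⟨C, hC, h⟩ := Er_bound hn hα0 hα1 hB
  refine Integrable.mono' (integrable_inv_one_add_sq.const_mul C) (Er_cont n α).aestronglyMeasurable
    (ae_of_all _ fun y => ?_)
  rw [← div_eq_mul_inv]
  exact h y

/-- the one-sided bound at distance `1/t` -/
theorem one_sided (h : RHz) (hn : Even n) (hn0 : 0 < n) (hα0 : 0 < α) (hα1 : α < 1) (hB : bernoulliFun n α = 0) {σ : ℝ}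
    (hσ1 : σ = 1 ∨ σ = -1)
    (hσ : ∀ s ∈ Set.Icc (0:ℝ) 1, σ * bernoulliFun (n + 1) s ≤ σ * bernoulliFun (n + 1) (1 - α)) :
    ∃ C : ℝ, 0 < C ∧ ∀ t D : ℝ, ∀ N : ℕ, 6 ≤ t → 1 ≤ D → 1 ≤ N → Real.exp (2 * Real.pi * D) ≤ N → (N : ℝ) ≤ t →
      σ * (n.factorial * (I ^ n * Ph (n + 1) (((1 / t : ℝ) : ℂ) + t * I)).im) ≤
        (1 / 2 * Real.log t + C) * ((D ^ (n + 1))⁻¹ * (σ * bernoulliFun (n + 1) (1 - α) / (n + 1))) + C * Real.sqrt N := by
  obtain ⟨C1, hC1, h1⟩ := err_bound h hn0 hα0 hα1 hB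
  obtain ⟨C2, hC2, h2⟩ := FD_bd hα0 hα1 hB
  obtain ⟨C3, hC3, h3⟩ := Lf_re h
  choose C4 hC4 h4 using fun j => Ph_all h j
  have hS : 0 ≤ ∑ i ∈ Finset.range (n + 1), C4 i := Finset.sum_nonneg fun i _ => (hC4 i).le
  refine ⟨4 * C1 + (8 * C2 * ∑ i ∈ Finset.range (n + 1), C4 i) + C3 + 1, by positivity,
    fun t D N ht hD hN hNe hNt => ?_⟩
  have hD0 : 0 < D := by linarith
  have hN1 : (1:ℝ) ≤ N := by exact_mod_cast hN
  have hsN : 1 ≤ Real.sqrt N := Real.one_le_sqrt.2 hN1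
  have hlt : 0 < Real.log t := Real.log_pos (by linarith)
  set Y : ℝ := t / 2 with hY
  have hY0 : 0 ≤ Y := by rw [hY]; linarith
  set e : ℝ := 1 / t with he
  have he0 : 0 < e := by rw [he]; positivity
  have he1 : e ≤ 1 := by rw [he, div_le_one (by linarith)]; linarith
  set z : ℂ := (e : ℂ) + t * I with hz
  have hpt : ∀ y : ℝ, (z - I * y).re = e ∧ (z - I * y).im = t - y := by
    intro y
    rw [hz]
    constructor <;> simp
  have hOm : ∀ y ∈ Set.Icc (-Y) Y, z - I * y ∈ Om := by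
    intro y hy
    obtain ⟨a1, a2⟩ := hpt y
    exact ⟨by rw [a1]; exact he0, by rw [a2]; linarith [hy.2]⟩
  set G : ℕ → ℝ → ℂ := fun j y => I ^ j * Ph (n + 1 - j) (z - I * y) with hG
  have hGd : ∀ j ≤ n, ∀ y ∈ Set.Icc (-Y) Y, HasDerivAt (G j) (G (j + 1) y) y := by
    intro j hj y hy
    have d1 : HasDerivAt (Ph (n - j + 1)) (-Ph (n - j) (z - I * y)) (z - I * y) := Ph_deriv h (n - j) (hOm y hy)
    have d2 : HasDerivAt (fun w : ℂ => z - I * w) (-(I * 1)) (y : ℂ) := ((hasDerivAt_id (y : ℂ)).const_mul I).const_sub z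
    have d3 := ((d1.comp (y : ℂ) d2).const_mul (I ^ j)).comp_ofReal
    rw [hG]
    simp only
    rw [show n + 1 - j = n - j + 1 by omega, show n + 1 - (j + 1) = n - j by omega]
    refine d3.congr_deriv ?_
    rw [pow_succ]; ring
  have hLc : ContinuousOn (fun y : ℝ => Lf (z - I * y)) (Set.Icc (-Y) Y) := by
    intro y hy
    have c1 : ContinuousAt Lf (z - I * y) := (Ph_diffAt h 0 (hOm y hy)).continuousAt
    have c2 : ContinuousAt (fun y : ℝ => (z - I * y : ℂ)) y := by fun_prop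
    exact (ContinuousAt.comp (f := fun y : ℝ => (z - I * y : ℂ)) c1 c2).continuousWithinAt
  have hGn1 : ∀ y : ℝ, G (n + 1) y = I ^ (n + 1) * Lf (z - I * y) := by
    intro y
    rw [hG]
    simp only [Nat.sub_self]
    rfl
  have hGc : ContinuousOn (G (n + 1)) (Set.Icc (-Y) Y) :=
    (continuousOn_const.mul hLc).congr fun y _ => hGn1 y
  have hts := two_sided (FD_diff n α D) n G hY0 hGd hGc
  -- the real weight
  set W : ℝ → ℝ := fun y => (D ^ n)⁻¹ * Er n α (D * y) with hW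
  have hWc : Continuous W := by
    rw [hW]
    exact continuous_const.mul ((Er_cont n α).comp (by fun_prop))
  have hWneg : ∀ y : ℝ, y ≤ 0 → FD n α D y = (W y : ℂ) := by
    intro y hy
    rw [hW]
    simp only
    unfold FD
    have e1 : (D * (y : ℂ) : ℂ) = ((D * y : ℝ) : ℂ) := by push_cast; ring
    rw [e1, ← Ec_neg hn0 (by nlinarith : D * y ≤ 0), Ec_real hn0 hα0 hα1 hB]
    push_cast; ring
  have hWpos : ∀ y : ℝ, 0 ≤ y → FD n α D y - (y : ℂ) ^ n = (W y : ℂ) := by
    intro y hy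
    have hDc : (D : ℂ) ≠ 0 := by exact_mod_cast hD0.ne'
    rw [hW]
    simp only
    unfold FD
    have e1 : (D * (y : ℂ) : ℂ) = ((D * y : ℝ) : ℂ) := by push_cast; ring
    have e2 := Ec_pos (n := n) (α := α) (by positivity : 0 ≤ D * y)
    rw [e1]
    have e3 : FF n α ((D * y : ℝ) : ℂ) = Ec n α (D * y) + ((D * y : ℝ) : ℂ) ^ n := by rw [e2]; ring
    rw [e3, Ec_real hn0 hα0 hα1 hB]
    push_cast
    rw [mul_pow]
    field_simp
    ring
  have hJ : (∫ y in (-Y)..0, G (n + 1) y * FD n α D y) + (∫ y in (0:ℝ)..Y, G (n + 1) y * (FD n α D y - (y : ℂ) ^ n)) =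
      I ^ (n + 1) * ∫ y in (-Y)..Y, Lf (z - I * y) * W y := by
    rw [← intervalIntegral.integral_const_mul]
    have hci : ∀ c d : ℝ, c ≤ d → Set.Icc c d ⊆ Set.Icc (-Y) Y → IntervalIntegrable
        (fun y : ℝ => I ^ (n + 1) * (Lf (z - I * y) * W y)) volume c d := by
      intro c d hcd hs
      refine ContinuousOn.intervalIntegrable ?_
      rw [Set.uIcc_of_le hcd]
      exact continuousOn_const.mul ((hLc.mono hs).mul (Complex.continuous_ofReal.comp hWc).continuousOn)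
    rw [← intervalIntegral.integral_add_adjacent_intervals
      (hci (-Y) 0 (by linarith) (Set.Icc_subset_Icc le_rfl hY0))
      (hci 0 Y hY0 (Set.Icc_subset_Icc (by linarith) le_rfl))]
    congr 1
    · refine intervalIntegral.integral_congr fun y hy => ?_
      rw [Set.uIcc_of_le (by linarith)] at hy
      rw [hGn1, hWneg y hy.2]; ring
    · refine intervalIntegral.integral_congr fun y hy => ?_
      rw [Set.uIcc_of_le hY0] at hy
      rw [hGn1, hWpos y hy.1]; ring
  rw [hJ] at hts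
  set J : ℂ := ∫ y in (-Y)..Y, Lf (z - I * y) * W y with hJd
  set E : ℂ := ∫ y in (-Y)..Y, Ph (n + 1) (z - I * y) * KD n α D y with hE
  have hE1 : ∫ y in (-Y)..Y, G 0 y * iteratedDeriv (n + 1) (FD n α D) y = E := by
    rw [hE]
    refine intervalIntegral.integral_congr fun y _ => ?_
    rw [FD_KD n α hD0.ne', hG]
    simp
  rw [hE1] at hts
  set Bd : ℂ := ∑ i ∈ Finset.range (n + 1), (-1 : ℂ) ^ i * (G (n - i) Y * iteratedDeriv i (fun z => FD n α D z - z ^ n) Y -
        G (n - i) (-Y) * iteratedDeriv i (FD n α D) ((-Y : ℝ) : ℂ)) with hBd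
  have hG00 : G 0 0 = Ph (n + 1) z := by
    rw [hG]; simp
  rw [hG00, hn.neg_one_pow, hn.add_one.neg_one_pow, one_mul] at hts
  -- bounds
  have bE : ‖E‖ ≤ 4 * C1 * Real.sqrt N := by
    have := h1 e t D N he0 he1 ht hD hN hNe
    refine this.trans ?_
    have e1 : (N:ℝ) / t ^ 2 ≤ 1 / t := by
      rw [div_le_div_iff₀ (by positivity) (by positivity)]
      nlinarith
    have e2 : Real.log t * (1 / t) ≤ 1 := by
      rw [mul_one_div, div_le_one (by linarith)]
      exact (Real.log_le_sub_one_of_pos (by linarith)).trans (by linarith)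
    have e3 : (Real.log t + Real.sqrt N) * (N / t ^ 2) ≤ 1 + Real.sqrt N := by
      calc _ ≤ (Real.log t + Real.sqrt N) * (1 / t) := by gcongr
        _ = Real.log t * (1 / t) + Real.sqrt N * (1 / t) := by ring
        _ ≤ 1 + Real.sqrt N * 1 := by gcongr
        _ = _ := by ring
    calc _ ≤ C1 * (Real.sqrt N + (1 + Real.sqrt N)) := by gcongr
      _ ≤ _ := by nlinarith
  have bB : ‖Bd‖ ≤ (8 * C2 * ∑ i ∈ Finset.range (n + 1), C4 i) := by
    rw [hBd, Finset.mul_sum]
    refine (norm_sum_le _ _).trans (Finset.sum_le_sum fun i hi => ?_)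
    rw [Finset.mem_range] at hi
    obtain ⟨f1, f2⟩ := h2 i (by omega) D Y hD (by rw [hY]; linarith)
    have gn : ∀ y : ℝ, |y| ≤ t / 2 → ‖G (n - i) y‖ ≤ C4 i * t := by
      intro y hy
      rw [hG]
      simp only
      rw [norm_mul, norm_pow, Complex.norm_I, one_pow, one_mul, show n + 1 - (n - i) = i + 1 by omega]
      exact h4 i t ht y hy
    rw [norm_mul, norm_pow, norm_neg, norm_one, one_pow, one_mul]
    refine (norm_sub_le _ _).trans ?_
    rw [norm_mul (G (n - i) Y), norm_mul (G (n - i) (-Y))]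
    have g1 := gn Y (by rw [hY, abs_of_nonneg (by linarith)])
    have g2 := gn (-Y) (by rw [abs_neg, hY, abs_of_nonneg (by linarith)])
    have e1 : t * (C2 / Y ^ 2) ≤ 4 * C2 := by
      rw [hY, mul_div_assoc', div_le_iff₀ (by positivity)]
      have e0 : t * C2 ≤ t ^ 2 * C2 := by
        have : t ≤ t ^ 2 := by nlinarith
        gcongr
      nlinarith
    have := hC4 i
    calc _ ≤ (C4 i * t) * (C2 / Y ^ 2) + (C4 i * t) * (C2 / Y ^ 2) :=
          add_le_add (mul_le_mul g1 f2 (norm_nonneg _) (by positivity)) (mul_le_mul g2 f1 (norm_nonneg _) (by positivity))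
      _ = 2 * C4 i * (t * (C2 / Y ^ 2)) := by ring
      _ ≤ 2 * C4 i * (4 * C2) := by gcongr
      _ = _ := by ring
  -- real part
  obtain ⟨s, hs, hs1⟩ : ∃ s : ℝ, (I ^ n : ℂ) = (s : ℂ) ∧ s * s = 1 := by
    obtain ⟨m, rfl⟩ := hn
    refine ⟨(-1) ^ m, ?_, ?_⟩
    · rw [← two_mul, pow_mul, Complex.I_sq]; push_cast; rfl
    · rw [← mul_pow]; norm_num
  have hreJ : J.re = n.factorial * (I ^ n * Ph (n + 1) z).im + (s * (-E + Bd)).im := by
    have e1 : (s : ℂ) * (s : ℂ) = 1 := by exact_mod_cast hs1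
    have e2 : J = -I * (s * (n.factorial * Ph (n + 1) z) + s * (-E + Bd)) := by
      have e3 : I ^ (n + 1) * J = s * I * J := by rw [pow_succ, hs]
      rw [e3] at hts
      have e4 : J = (-I * s) * (s * I * J) := by
        have : (-I * s) * (s * I * J) = -(I * I) * ((s:ℂ) * s) * J := by ring
        rw [this, e1, Complex.I_mul_I]; ring
      rw [e4, hts]; ring
    rw [e2, hs]
    have e5 : ∀ w : ℂ, (-I * w).re = w.im := by intro w; simp
    rw [e5, add_im]
    congr 1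
    have e6 : ((s : ℂ) * ((n.factorial : ℂ) * Ph (n + 1) z)) = ((n.factorial : ℝ) : ℂ) * ((s : ℂ) * Ph (n + 1) z) := by
      push_cast; ring
    rw [e6, Complex.im_ofReal_mul]
  have hserr : |(s * (-E + Bd)).im| ≤ ‖E‖ + ‖Bd‖ := by
    refine (Complex.abs_im_le_norm _).trans ?_
    have hsa : |s| = 1 := by
      have : |s| * |s| = 1 := by rw [abs_mul_abs_self, hs1]
      nlinarith [abs_nonneg s]
    rw [norm_mul, Complex.norm_real, Real.norm_eq_abs, hsa, one_mul]
    refine (norm_add_le _ _).trans ?_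
    rw [norm_neg]
  have hσa : |σ| = 1 := by rcases hσ1 with h | h <;> rw [h] <;> simp
  -- upper bound for the main integral
  have hWs : ∀ y, 0 ≤ σ * W y := by
    intro y
    have := Er_sign hn hn0 hα0 hα1 hB hσ (D * y)
    rw [hW]
    simp only
    have e1 : σ * ((D ^ n)⁻¹ * Er n α (D * y)) = (D ^ n)⁻¹ * (σ * Er n α (D * y)) := by ring
    rw [e1]
    positivity
  have hWi : Integrable W := by
    rw [hW]
    exact ((Er_integrable hn0 hα0 hα1 hB).comp_mul_left' hD0.ne').const_mul _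
  have hWint : ∫ y, σ * W y = (D ^ (n + 1))⁻¹ * (σ * bernoulliFun (n + 1) (1 - α) / (n + 1)) := by
    rw [integral_const_mul, hW]
    simp only
    rw [integral_const_mul, Measure.integral_comp_mul_left (fun y => Er n α y) D, Er_integral hn hn0 hα0 hα1 hB,
      bernoulliFun_eval_one_sub, hn.add_one.neg_one_pow, abs_of_pos (inv_pos.2 hD0), smul_eq_mul, pow_succ, mul_inv]
    ring
  have hJre : J.re = ∫ y in (-Y)..Y, (Lf (z - I * y)).re * W y := by
    have e1 : IntervalIntegrable (fun y : ℝ => Lf (z - I * y) * W y) volume (-Y) Y := by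
      refine ContinuousOn.intervalIntegrable ?_
      rw [Set.uIcc_of_le (by linarith)]
      exact hLc.mul (Complex.continuous_ofReal.comp hWc).continuousOn
    have e2 := Complex.reCLM.intervalIntegral_comp_comm e1
    rw [hJd]
    simp only [Complex.reCLM_apply] at e2
    rw [← e2]
    refine intervalIntegral.integral_congr fun y _ => ?_
    rw [mul_comm (Lf _), Complex.re_ofReal_mul, mul_comm]
  have hmain : σ * J.re ≤ (1 / 2 * Real.log t + (C3 + 1)) * ((D ^ (n + 1))⁻¹ * (σ * bernoulliFun (n + 1) (1 - α) / (n + 1))) := by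
    rw [hJre, ← intervalIntegral.integral_const_mul, ← hWint, ← integral_const_mul]
    have hK0 : 0 ≤ 1 / 2 * Real.log t + (C3 + 1) := by positivity
    have e1 : ∫ y in (-Y)..Y, σ * ((Lf (z - I * y)).re * W y) ≤
        ∫ y in (-Y)..Y, (1 / 2 * Real.log t + (C3 + 1)) * (σ * W y) := by
      refine intervalIntegral.integral_mono_on (by linarith) ?_ ?_ fun y hy => ?_
      · refine ContinuousOn.intervalIntegrable ?_
        rw [Set.uIcc_of_le (by linarith)]
        exact continuousOn_const.mul ((Complex.continuous_re.comp_continuousOn hLc).mul hWc.continuousOn)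
      · exact (continuous_const.mul (continuous_const.mul hWc)).intervalIntegrable _ _
      · obtain ⟨a1, a2⟩ := hpt y
        have f1 := h3 (z - I * y) (by rw [a1]; exact he0) (by rw [a1]; linarith) (by rw [a2]; linarith [hy.2])
        rw [a2] at f1
        have f2 : Real.log (t - y) ≤ Real.log (2 * t) := Real.log_le_log (by linarith [hy.2]) (by linarith [hy.1])
        have f3 := log_two_mul ht
        have f4 : (Lf (z - I * y)).re ≤ 1 / 2 * Real.log t + (C3 + 1) := by linarith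
        have f5 : σ * ((Lf (z - I * y)).re * W y) = (Lf (z - I * y)).re * (σ * W y) := by ring
        rw [f5]
        exact mul_le_mul_of_nonneg_right f4 (hWs y)
    refine e1.trans ?_
    rw [intervalIntegral.integral_of_le (by linarith)]
    refine setIntegral_le_integral ((hWi.const_mul σ).const_mul _) (ae_of_all _ fun y => ?_)
    exact mul_nonneg hK0 (hWs y)
  have hfin : σ * (n.factorial * (I ^ n * Ph (n + 1) z).im) ≤ σ * J.re + (‖E‖ + ‖Bd‖) := by
    have e1 : σ * (n.factorial * (I ^ n * Ph (n + 1) z).im) = σ * J.re - σ * (s * (-E + Bd)).im := by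
      rw [hreJ]; ring
    have e2 : |σ * (s * (-E + Bd)).im| ≤ ‖E‖ + ‖Bd‖ := by rw [abs_mul, hσa, one_mul]; exact hserr
    have e3 := abs_le.1 e2
    linarith [e3.1]
  refine hfin.trans ?_
  have hMn : 0 ≤ (D ^ (n + 1))⁻¹ * (σ * bernoulliFun (n + 1) (1 - α) / (n + 1)) := by
    rw [← hWint]
    exact integral_nonneg fun y => hWs y
  set SS : ℝ := 8 * C2 * ∑ i ∈ Finset.range (n + 1), C4 i with hSS
  have hSS0 : 0 ≤ SS := by positivity
  have g1 : σ * J.re ≤ (1 / 2 * Real.log t + (4 * C1 + SS + C3 + 1)) *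
      ((D ^ (n + 1))⁻¹ * (σ * bernoulliFun (n + 1) (1 - α) / (n + 1))) := by
    refine hmain.trans ?_
    gcongr
    linarith
  have g2 : ‖E‖ + ‖Bd‖ ≤ (4 * C1 + SS + C3 + 1) * Real.sqrt N := by
    nlinarith
  linarith

end Pool.Agent.V11273.SN
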