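import Pool.Agent.V11273.SN.ZL2

set_option autoImplicit false

namespace Pool.Agent.V11273.SN

open MeasureTheory Filter Topology Set Complex Metric

/-- horizontal primitive -/
noncomputable def Pr (f : ℂ → ℂ) (z : ℂ) : ℂ := ∫ u in Set.Ioi (0:ℝ), f (z + u)

/-- the weight -/
noncomputable def ww (u : ℝ) : ℝ := (1 + u ^ (-(1 / 2 : ℝ))) * 2 ^ (-u)

lemma two_rpow_exp (u : ℝ) : (2:ℝ) ^ (-u) = Real.exp (-Real.log 2 * u) := by
  rw [Real.rpow_def_of_pos (by norm_num)]; ring_nf

lemma two_int : IntegrableOn (fun u : ℝ => (2:ℝ) ^ (-u)) (Set.Ioi 0) := by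
  simp_rw [two_rpow_exp]
  exact integrableOn_exp_mul_Ioi (a := -Real.log 2) (by
      have := Real.log_pos (show (1:ℝ) < 2 by norm_num)
      linarith) 0

lemma ww_int : IntegrableOn ww (Set.Ioi 0) := by
  have h1 : IntegrableOn (fun u : ℝ => u ^ (-(1 / 2 : ℝ)) * 2 ^ (-u)) (Set.Ioi 0) := by
    have h := integrableOn_rpow_mul_exp_neg_mul_rpow (p := 1) (s := -(1 / 2 : ℝ)) (b := Real.log 2) (by norm_num)
      one_pos (Real.log_pos (by norm_num))
    refine h.congr_fun (fun u _ => ?_) measurableSet_Ioi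
    simp only
    rw [Real.rpow_one, two_rpow_exp]
  refine (two_int.add h1).congr_fun (fun u _ => ?_) measurableSet_Ioi
  simp only [Pi.add_apply]
  unfold ww; ring

/-- the total weight -/
noncomputable def KK : ℝ := (∫ u in Set.Ioi (0:ℝ), ww u) + 1

lemma ww_nonneg {u : ℝ} (hu : 0 < u) : 0 ≤ ww u := by unfold ww; positivity

lemma KK_pos : 0 < KK := by
  have : 0 ≤ ∫ u in Set.Ioi (0:ℝ), ww u := setIntegral_nonneg measurableSet_Ioi fun u hu => ww_nonneg hu
  unfold KK; linarith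

lemma Om_add {z : ℂ} (hz : z ∈ Om) {u : ℝ} (hu : 0 ≤ u) : z + u ∈ Om := by
  refine ⟨?_, ?_⟩
  · have := hz.1
    simp only [add_re, ofReal_re]; linarith
  · have := hz.2
    simp only [add_im, ofReal_im]; linarith

lemma add_re' (z : ℂ) (u : ℝ) : (z + u).re = z.re + u := by simp
lemma add_im' (z : ℂ) (u : ℝ) : (z + u).im = z.im := by simp

variable {f : ℂ → ℂ} {φ ψ : ℝ → ℝ} {C : ℝ}

/-- the bound along a horizontal ray from the closed half plane -/
lemma ray_bd (h : Cls f φ C) {z : ℂ}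
    (hφ : ∀ u : ℝ, 0 < u → φ (z.re + u) ≤ ψ z.re * (1 + u ^ (-(1 / 2 : ℝ))))
    (hz0 : 0 ≤ z.re) (hz2 : 2 < z.im) {u : ℝ} (hu : 0 < u) :
    ‖f (z + u)‖ ≤ C * Real.log z.im * ψ z.re * 2 ^ (-z.re) * ww u := by
  have hmem : z + u ∈ Om := ⟨by rw [add_re']; linarith, by rw [add_im']; exact hz2⟩
  have h1 := h.bd _ hmem
  rw [add_re', add_im'] at h1
  have hl : 0 ≤ Real.log z.im := Real.log_nonneg (by linarith)
  have hC := h.pos
  refine h1.trans ?_
  rw [neg_add, Real.rpow_add (by norm_num)]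
  calc C * Real.log z.im * φ (z.re + u) * (2 ^ (-z.re) * 2 ^ (-u))
      ≤ C * Real.log z.im * (ψ z.re * (1 + u ^ (-(1 / 2 : ℝ)))) * (2 ^ (-z.re) * 2 ^ (-u)) := by
        gcongr
        exact hφ _ hu
    _ = _ := by unfold ww; ring

lemma ray_cont (h : Cls f φ C) {z : ℂ} (hz0 : 0 ≤ z.re) (hz2 : 2 < z.im) :
    ContinuousOn (fun u : ℝ => f (z + u)) (Set.Ioi 0) := by
  intro u hu
  have hmem : z + u ∈ Om := ⟨by rw [add_re']; have : (0:ℝ) < u := hu; linarith, by rw [add_im']; exact hz2⟩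
  have h1 : ContinuousAt (fun u : ℝ => (z + u : ℂ)) u := by fun_prop
  exact (ContinuousAt.comp (f := fun u : ℝ => (z + u : ℂ)) (h.diff _ hmem).continuousAt h1).continuousWithinAt

lemma ray_int (h : Cls f φ C) {z : ℂ} (hφ : ∀ u : ℝ, 0 < u → φ (z.re + u) ≤ ψ z.re * (1 + u ^ (-(1 / 2 : ℝ))))
    (hz0 : 0 ≤ z.re) (hz2 : 2 < z.im) : IntegrableOn (fun u : ℝ => f (z + u)) (Set.Ioi 0) := by
  refine Integrable.mono' (ww_int.const_mul (C * Real.log z.im * ψ z.re * 2 ^ (-z.re)))
    ((ray_cont h hz0 hz2).aestronglyMeasurable measurableSet_Ioi) ?_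
  rw [ae_restrict_iff' measurableSet_Ioi]
  exact ae_of_all _ fun u hu => ray_bd h hφ hz0 hz2 hu

lemma Pr_bd (h : Cls f φ C) (hψ : 0 ≤ ψ) {z : ℂ}
    (hφ : ∀ u : ℝ, 0 < u → φ (z.re + u) ≤ ψ z.re * (1 + u ^ (-(1 / 2 : ℝ)))) (hz0 : 0 ≤ z.re) (hz2 : 2 < z.im) :
    ‖Pr f z‖ ≤ (C * KK) * Real.log z.im * ψ z.re * 2 ^ (-z.re) := by
  have hl : 0 ≤ Real.log z.im := Real.log_nonneg (by linarith)
  have hC := h.pos
  have h1 : ‖Pr f z‖ ≤ ∫ u in Set.Ioi (0:ℝ), C * Real.log z.im * ψ z.re * 2 ^ (-z.re) * ww u := by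
    unfold Pr
    refine norm_integral_le_of_norm_le (ww_int.const_mul _) ?_
    rw [ae_restrict_iff' measurableSet_Ioi]
    exact ae_of_all _ fun u hu => ray_bd h hφ hz0 hz2 hu
  rw [integral_const_mul] at h1
  refine h1.trans ?_
  have h2 : (∫ u in Set.Ioi (0:ℝ), ww u) ≤ KK := by unfold KK; linarith
  have h3 : 0 ≤ C * Real.log z.im * ψ z.re * 2 ^ (-z.re) := by
    have h4 : 0 ≤ ψ z.re := hψ z.re
    exact mul_nonneg (mul_nonneg (mul_nonneg hC.le hl) h4) (by positivity)
  calc _ ≤ C * Real.log z.im * ψ z.re * 2 ^ (-z.re) * KK := by gcongr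
    _ = _ := by ring

lemma Pr_deriv (h : Cls f φ C) {z : ℂ} (hz : z ∈ Om) : HasDerivAt (Pr f) (-f z) z := by
  obtain ⟨hz1, hz2⟩ := hz
  set r : ℝ := min (z.re / 4) ((z.im - 2) / 4) with hr
  have hr0 : 0 < r := lt_min (by linarith) (by linarith)
  have hr1 : r ≤ z.re / 4 := min_le_left _ _
  have hr2 : r ≤ (z.im - 2) / 4 := min_le_right _ _
  have hC := h.pos
  -- uniform bound near `z`
  set B : ℝ := C * Real.log (z.im + 2 * r) * φ (z.re / 4) with hB
  have hlg : 0 ≤ Real.log (z.im + 2 * r) := Real.log_nonneg (by linarith)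
  have hB0 : 0 ≤ B := mul_nonneg (mul_nonneg hC.le hlg) (h.nonneg (z.re / 4) (by linarith))
  have hbd : ∀ w ∈ ball z (2 * r), ∀ u : ℝ, 0 ≤ u → ‖f (w + u)‖ ≤ B * 2 ^ (-u) := by
    intro w hw u hu
    have hwn : ‖w - z‖ < 2 * r := by rwa [mem_ball, dist_eq_norm] at hw
    have a1 := abs_le.1 (Complex.abs_re_le_norm (w - z))
    have a2 := abs_le.1 (Complex.abs_im_le_norm (w - z))
    rw [sub_re] at a1
    rw [sub_im] at a2
    have b1 : z.re / 4 ≤ w.re := by linarith [a1.1]
    have b2 : 2 < w.im := by linarith [a2.1]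
    have b3 : w.im ≤ z.im + 2 * r := by linarith [a2.2]
    have hmem : w + u ∈ Om := ⟨by rw [add_re']; linarith, by rw [add_im']; exact b2⟩
    have h1 := h.bd _ hmem
    rw [add_re', add_im'] at h1
    refine h1.trans ?_
    have c1 : Real.log w.im ≤ Real.log (z.im + 2 * r) := Real.log_le_log (by linarith) b3
    have c2 : φ (w.re + u) ≤ φ (z.re / 4) := h.anti _ _ (by linarith) (by linarith)
    have c3 : (2:ℝ) ^ (-(w.re + u)) ≤ 2 ^ (-u) :=
      Real.rpow_le_rpow_of_exponent_le (by norm_num) (by linarith)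
    have c4 := h.nonneg (w.re + u) (by linarith)
    have c5 := Real.log_nonneg (show (1:ℝ) ≤ w.im by linarith)
    rw [hB]
    have c6 : 0 ≤ C * Real.log (z.im + 2 * r) := mul_nonneg hC.le hlg
    gcongr
  have hmemb : ∀ w ∈ ball z (2 * r), ∀ u : ℝ, 0 ≤ u → w + u ∈ Om := by
    intro w hw u hu
    have hwn : ‖w - z‖ < 2 * r := by rwa [mem_ball, dist_eq_norm] at hw
    have a1 := abs_le.1 (Complex.abs_re_le_norm (w - z))
    have a2 := abs_le.1 (Complex.abs_im_le_norm (w - z))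
    rw [sub_re] at a1
    rw [sub_im] at a2
    exact ⟨by rw [add_re']; linarith [a1.1], by rw [add_im']; linarith [a2.1]⟩
  have hder : ∀ w ∈ ball z r, ∀ u : ℝ, 0 ≤ u → ‖deriv f (w + u)‖ ≤ (B * 2 ^ (-u)) / (r / 2) := by
    intro w hw u hu
    refine Complex.norm_deriv_le_of_forall_mem_sphere_norm_le (by positivity) ?_ fun v hv => ?_
    · refine DifferentiableOn.diffContOnCl fun v hv => ?_
      rw [closure_ball _ (by positivity)] at hv
      have : v - u ∈ ball z (2 * r) := by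
        rw [mem_ball, dist_eq_norm]
        rw [mem_closedBall, dist_eq_norm] at hv
        rw [mem_ball, dist_eq_norm] at hw
        calc ‖v - u - z‖ = ‖(v - (w + u)) + (w - z)‖ := by ring_nf
          _ ≤ ‖v - (w + u)‖ + ‖w - z‖ := norm_add_le _ _
          _ < 2 * r := by linarith
      have := hmemb _ this u hu
      rw [sub_add_cancel] at this
      exact (h.diff v this).differentiableWithinAt
    · have : v - u ∈ ball z (2 * r) := by
        rw [mem_ball, dist_eq_norm]
        rw [mem_sphere, dist_eq_norm] at hv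
        rw [mem_ball, dist_eq_norm] at hw
        calc ‖v - u - z‖ = ‖(v - (w + u)) + (w - z)‖ := by ring_nf
          _ ≤ ‖v - (w + u)‖ + ‖w - z‖ := norm_add_le _ _
          _ < 2 * r := by linarith
      have := hbd _ this u hu
      rwa [sub_add_cancel] at this
  have hzr : z ∈ ball z (2 * r) := mem_ball_self (by positivity)
  have hcontf : ∀ w ∈ ball z (2 * r), ContinuousOn (fun u : ℝ => f (w + u)) (Set.Ioi 0) := by
    intro w hw u hu
    have h1 : ContinuousAt (fun u : ℝ => (w + u : ℂ)) u := by fun_prop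
    exact (ContinuousAt.comp (f := fun u : ℝ => (w + u : ℂ))
      (h.diff _ (hmemb w hw u (le_of_lt hu))).continuousAt h1).continuousWithinAt
  have hdiffOn : DifferentiableOn ℂ f Om := fun w hw => (h.diff w hw).differentiableWithinAt
  have hcontd : ContinuousOn (fun u : ℝ => deriv f (z + u)) (Set.Ici 0) := by
    intro u hu
    have h1 : ContinuousAt (fun u : ℝ => (z + u : ℂ)) u := by fun_prop
    have h2 : ContinuousAt (deriv f) (z + u) :=
      ((hdiffOn.deriv Om_open).differentiableAt (Om_open.mem_nhds (hmemb z hzr u hu))).continuousAt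
    exact (ContinuousAt.comp (f := fun u : ℝ => (z + u : ℂ)) h2 h1).continuousWithinAt
  have key := hasDerivAt_integral_of_dominated_loc_of_deriv_le (μ := volume.restrict (Set.Ioi (0:ℝ)))
    (F := fun (w : ℂ) (u : ℝ) => f (w + u)) (F' := fun (w : ℂ) (u : ℝ) => deriv f (w + u)) (x₀ := z)
    (s := ball z r) (bound := fun u => (B * 2 ^ (-u)) / (r / 2)) (ball_mem_nhds z hr0)
    (by
      filter_upwards [ball_mem_nhds z (show 0 < 2 * r by positivity)] with w hw
      exact (hcontf w hw).aestronglyMeasurable measurableSet_Ioi)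
    (by
      refine Integrable.mono' (two_int.const_mul B) ((hcontf z hzr).aestronglyMeasurable measurableSet_Ioi) ?_
      rw [ae_restrict_iff' measurableSet_Ioi]
      exact ae_of_all _ fun u hu => hbd z hzr u (le_of_lt hu))
    ((hcontd.mono Set.Ioi_subset_Ici_self).aestronglyMeasurable measurableSet_Ioi)
    (by
      rw [ae_restrict_iff' measurableSet_Ioi]
      exact ae_of_all _ fun u hu w hw => hder w hw u (le_of_lt hu))
    ((two_int.const_mul B).div_const (r / 2))
    (by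
      rw [ae_restrict_iff' measurableSet_Ioi]
      refine ae_of_all _ fun u hu w hw => ?_
      have hw2 : w ∈ ball z (2 * r) := ball_subset_ball (by linarith) hw
      have h1 := (h.diff _ (hmemb w hw2 u (le_of_lt hu))).hasDerivAt
      exact h1.comp_add_const w (u : ℂ))
  have hint : ∫ u in Set.Ioi (0:ℝ), deriv f (z + u) = 0 - f (z + (0:ℝ)) := by
    refine integral_Ioi_of_hasDerivAt_of_tendsto' (f := fun u : ℝ => f (z + u)) (fun u hu => ?_) key.1 ?_
    · have h1 := (h.diff _ (hmemb z hzr u hu)).hasDerivAt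
      have h2 : HasDerivAt (fun w : ℂ => f (z + w)) (deriv f (z + u)) (u : ℂ) := h1.comp_const_add z (u : ℂ)
      exact h2.comp_ofReal
    · have h1 : Tendsto (fun u : ℝ => B * (2:ℝ) ^ (-u)) atTop (𝓝 0) := by
        have : Tendsto (fun u : ℝ => (2:ℝ) ^ (-u)) atTop (𝓝 0) := by
          simp_rw [two_rpow_exp]
          refine Real.tendsto_exp_atBot.comp ?_
          have h0 : -Real.log 2 < 0 := by
            have := Real.log_pos (show (1:ℝ) < 2 by norm_num)
            linarith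
          exact tendsto_id.const_mul_atTop_of_neg h0
        simpa using this.const_mul B
      refine squeeze_zero_norm' ?_ h1
      filter_upwards [eventually_ge_atTop 0] with u hu
      exact hbd z hzr u hu
  have h2 := key.2
  rw [hint] at h2
  simp only [ofReal_zero, add_zero, zero_sub] at h2
  exact h2

theorem Pr_cls (h : Cls f φ C) (hψ : 0 ≤ ψ) (hψa : ∀ x y : ℝ, 0 < x → x ≤ y → ψ y ≤ ψ x)
    (hφ : ∀ x u : ℝ, 0 < x → 0 < u → φ (x + u) ≤ ψ x * (1 + u ^ (-(1 / 2 : ℝ)))) : Cls (Pr f) ψ (C * KK) where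
  diff _ hz := (Pr_deriv h hz).differentiableAt
  bd z hz := Pr_bd h hψ (fun u hu => hφ z.re u hz.1 hu) hz.1.le hz.2
  anti := hψa
  nonneg x _ := hψ x
  pos := mul_pos h.pos KK_pos

end Pool.Agent.V11273.SN
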