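import Pool.Agent.V11273.SN.Phi

set_option autoImplicit false

namespace Pool.Agent.V11273.SN

open MeasureTheory Filter Topology Set Complex Metric

/-- iterated primitives of `Lf` -/
noncomputable def Ph : ℕ → ℂ → ℂ
  | 0 => Lf
  | j + 1 => Pr (Ph j)

lemma rsqrt_mul {x u : ℝ} (hx : 0 < x) (hu : 0 < u) :
    1 + 1 / (x + u) ≤ (1 + x ^ (-(1 / 2 : ℝ))) * (1 + u ^ (-(1 / 2 : ℝ))) := by
  have h1 : x ^ (-(1 / 2 : ℝ)) = 1 / Real.sqrt x := by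
    rw [Real.rpow_neg hx.le, Real.sqrt_eq_rpow, ← one_div]
  have h2 : u ^ (-(1 / 2 : ℝ)) = 1 / Real.sqrt u := by
    rw [Real.rpow_neg hu.le, Real.sqrt_eq_rpow, ← one_div]
  rw [h1, h2]
  have a1 : 0 < Real.sqrt x := Real.sqrt_pos.2 hx
  have a2 : 0 < Real.sqrt u := Real.sqrt_pos.2 hu
  have a3 : 1 / (x + u) ≤ 1 / Real.sqrt x * (1 / Real.sqrt u) := by
    rw [one_div_mul_one_div]
    apply one_div_le_one_div_of_le (by positivity)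
    nlinarith [Real.sq_sqrt hx.le, Real.sq_sqrt hu.le, sq_nonneg (Real.sqrt x - Real.sqrt u)]
  have a4 : 0 < 1 / Real.sqrt x := by positivity
  have a5 : 0 < 1 / Real.sqrt u := by positivity
  nlinarith

/-- the weight of `Ph 1` (zero for negative arguments) -/
noncomputable def ps (x : ℝ) : ℝ := if 0 ≤ x then 1 + x ^ (-(1 / 2 : ℝ)) else 1

lemma ps_nonneg : 0 ≤ ps := by
  intro x
  unfold ps
  show (0:ℝ) ≤ if 0 ≤ x then 1 + x ^ (-(1 / 2 : ℝ)) else 1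
  split_ifs with h
  · positivity
  · norm_num

lemma ps_pos {x : ℝ} (hx : 0 < x) : ps x = 1 + x ^ (-(1 / 2 : ℝ)) := by
  unfold ps
  rw [if_pos hx.le]

lemma ps_anti (x y : ℝ) (hx : 0 < x) (hxy : x ≤ y) : ps y ≤ ps x := by
  rw [ps_pos hx, ps_pos (by linarith)]
  have := Real.rpow_le_rpow_of_nonpos hx hxy (show (-(1 / 2 : ℝ)) ≤ 0 by norm_num)
  linarith

lemma Ph1_cls (h : RHz) : ∃ C : ℝ, Cls (Ph 1) ps C := by
  obtain ⟨C, hC⟩ := Lf_cls h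
  refine ⟨C * KK, Pr_cls hC ps_nonneg ps_anti fun x u hx hu => ?_⟩
  rw [ps_pos hx]
  exact rsqrt_mul hx hu

lemma ps_shift {x u : ℝ} (hx : 0 ≤ x) (hu : 0 < u) : ps (x + u) ≤ 1 * (1 + u ^ (-(1 / 2 : ℝ))) := by
  rw [ps_pos (by linarith), one_mul]
  have := Real.rpow_le_rpow_of_nonpos hu (show u ≤ x + u by linarith) (show (-(1 / 2 : ℝ)) ≤ 0 by norm_num)
  linarith

lemma Ph2_cls (h : RHz) : ∃ C : ℝ, Cls (Ph 2) (fun _ => 1) C := by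
  obtain ⟨C, hC⟩ := Ph1_cls h
  exact ⟨C * KK, Pr_cls hC (fun _ => zero_le_one) (fun _ _ _ _ => le_rfl) fun x u hx hu => ps_shift hx.le hu⟩

lemma one_shift {u : ℝ} (hu : 0 < u) : (1:ℝ) ≤ 1 * (1 + u ^ (-(1 / 2 : ℝ))) := by
  have : 0 < u ^ (-(1 / 2 : ℝ)) := Real.rpow_pos_of_pos hu _
  linarith

lemma Ph_cls (h : RHz) (j : ℕ) : ∃ C : ℝ, Cls (Ph (j + 2)) (fun _ => 1) C := by
  induction j with
  | zero => exact Ph2_cls h
  | succ j ih =>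
    obtain ⟨C, hC⟩ := ih
    exact ⟨C * KK, Pr_cls hC (fun _ => zero_le_one) (fun _ _ _ _ => le_rfl) fun x u hx hu => one_shift hu⟩

/-- every level is in some class -/
lemma Ph_any (h : RHz) (j : ℕ) : ∃ (φ : ℝ → ℝ) (C : ℝ), Cls (Ph j) φ C := by
  rcases j with _ | _ | j
  · obtain ⟨C, hC⟩ := Lf_cls h
    exact ⟨_, C, hC⟩
  · obtain ⟨C, hC⟩ := Ph1_cls h
    exact ⟨_, C, hC⟩
  · obtain ⟨C, hC⟩ := Ph_cls h j
    exact ⟨_, C, hC⟩

lemma Ph_deriv (h : RHz) (j : ℕ) {z : ℂ} (hz : z ∈ Om) : HasDerivAt (Ph (j + 1)) (-Ph j z) z := by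
  obtain ⟨φ, C, hC⟩ := Ph_any h j
  exact Pr_deriv hC hz

lemma Ph_diffAt (h : RHz) (j : ℕ) {z : ℂ} (hz : z ∈ Om) : DifferentiableAt ℂ (Ph j) z := by
  obtain ⟨φ, C, hC⟩ := Ph_any h j
  exact hC.diff z hz

/-- bound on the closed half plane for `j ≥ 2` -/
lemma Ph_bd (h : RHz) (j : ℕ) : ∃ C : ℝ, 0 < C ∧ ∀ z : ℂ, 0 ≤ z.re → 2 < z.im → ‖Ph (j + 2) z‖ ≤ C * Real.log z.im := by
  have key : ∀ (φ : ℝ → ℝ) (C : ℝ), Cls (Ph (j + 1)) φ C →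
      (∀ x u : ℝ, 0 ≤ x → 0 < u → φ (x + u) ≤ 1 * (1 + u ^ (-(1 / 2 : ℝ)))) →
      ∃ C : ℝ, 0 < C ∧ ∀ z : ℂ, 0 ≤ z.re → 2 < z.im → ‖Ph (j + 2) z‖ ≤ C * Real.log z.im := by
    intro φ C hC hφ
    refine ⟨C * KK, mul_pos hC.pos KK_pos, fun z hz0 hz2 => ?_⟩
    have h1 := Pr_bd (ψ := fun _ => (1:ℝ)) hC (fun _ => zero_le_one) (fun u hu => hφ z.re u hz0 hu) hz0 hz2
    refine h1.trans ?_
    have h2 : (2:ℝ) ^ (-z.re) ≤ 1 := Real.rpow_le_one_of_one_le_of_nonpos (by norm_num) (by linarith)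
    have h3 : 0 ≤ C * KK * Real.log z.im * 1 :=
      mul_nonneg (mul_nonneg (mul_pos hC.pos KK_pos).le (Real.log_nonneg (by linarith))) zero_le_one
    nlinarith
  rcases j with _ | j
  · obtain ⟨C, hC⟩ := Ph1_cls h
    exact key ps C hC fun x u hx hu => ps_shift hx hu
  · obtain ⟨C, hC⟩ := Ph_cls h j
    exact key _ C hC fun x u hx hu => one_shift hu

lemma Ph1_bd (h : RHz) : ∃ C : ℝ, 0 < C ∧ ∀ z : ℂ, 0 < z.re → 2 < z.im →
    ‖Ph 1 z‖ ≤ C * Real.log z.im * (1 + z.re ^ (-(1 / 2 : ℝ))) := by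
  obtain ⟨C, hC⟩ := Ph1_cls h
  refine ⟨C, hC.pos, fun z hz0 hz2 => ?_⟩
  have h1 := hC.bd z ⟨hz0, hz2⟩
  rw [ps_pos hz0] at h1
  refine h1.trans ?_
  have h2 : (2:ℝ) ^ (-z.re) ≤ 1 := Real.rpow_le_one_of_one_le_of_nonpos (by norm_num) (by linarith)
  have h3 : 0 ≤ C * Real.log z.im * (1 + z.re ^ (-(1 / 2 : ℝ))) :=
    mul_nonneg (mul_nonneg hC.pos.le (Real.log_nonneg (by linarith))) (by positivity)
  nlinarith

/-- moving off the boundary -/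
lemma Pr_shift {f : ℂ → ℂ} {z : ℂ} (hi : IntegrableOn (fun u : ℝ => f (z + u)) (Set.Ioi 0)) {e : ℝ} (he : 0 ≤ e) :
    Pr f z - Pr f (z + e) = ∫ u in (0:ℝ)..e, f (z + u) := by
  have h1 : Pr f (z + e) = ∫ u in Set.Ioi e, f (z + u) := by
    unfold Pr
    have h2 := (measurePreserving_add_right volume e).setIntegral_preimage_emb
      (MeasurableEquiv.addRight e).measurableEmbedding (fun u : ℝ => f (z + u)) (Set.Ioi e)
    rw [← h2]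
    have h3 : (fun u : ℝ => u + e) ⁻¹' Set.Ioi e = Set.Ioi 0 := by
      ext u; simp
    rw [h3]
    refine setIntegral_congr_fun measurableSet_Ioi fun u _ => ?_
    congr 1
    push_cast; ring
  rw [h1]
  unfold Pr
  exact intervalIntegral.integral_Ioi_sub_Ioi hi he

end Pool.Agent.V11273.SN
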