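import Pool.Agent.V11273.SN.Bern2

set_option autoImplicit false

namespace Pool.Agent.V11273.SN

open MeasureTheory Filter Topology Set Complex

/-- `(sin π w / (π w))²` -/
noncomputable def q (w : ℂ) : ℂ := (dslope (fun u : ℂ => Complex.sin (Real.pi * u)) 0 w / Real.pi) ^ 2

lemma q_diff : Differentiable ℂ q := by
  have h : Differentiable ℂ (dslope (fun u : ℂ => Complex.sin (Real.pi * u)) 0) := by
    have h1 := (differentiableOn_dslope (f := fun u : ℂ => Complex.sin (Real.pi * u)) (s := Set.univ) (c := 0)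
      Filter.univ_mem).2 (by fun_prop)
    exact differentiableOn_univ.1 h1
  unfold q
  exact (h.div_const _).pow 2

lemma q_eq {w : ℂ} (hw : w ≠ 0) : q w = Complex.sin (Real.pi * w) ^ 2 / Real.pi ^ 2 * (1 / w ^ 2) := by
  unfold q
  rw [dslope_of_ne _ hw, slope_def_field]
  simp only [mul_zero, Complex.sin_zero, sub_zero]
  have : (Real.pi : ℂ) ≠ 0 := by exact_mod_cast Real.pi_ne_zero
  field_simp

lemma q_zero : q 0 = 1 := by
  unfold q
  rw [dslope_same]
  have h : HasDerivAt (fun u : ℂ => Complex.sin (Real.pi * u)) (Complex.cos (Real.pi * 0) * (Real.pi * 1)) 0 := by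
    have := (Complex.hasDerivAt_sin (Real.pi * 0)).comp (0:ℂ) ((hasDerivAt_id (0:ℂ)).const_mul (Real.pi : ℂ))
    exact this
  rw [h.deriv]
  have : (Real.pi : ℂ) ≠ 0 := by exact_mod_cast Real.pi_ne_zero
  simp [this]

lemma norm_sin_le (z : ℂ) : ‖Complex.sin z‖ ≤ Real.exp |z.im| := by
  rw [Complex.sin]
  have h1 : ‖Complex.exp (-z * I)‖ = Real.exp z.im := by rw [Complex.norm_exp]; simp
  have h2 : ‖Complex.exp (z * I)‖ = Real.exp (-z.im) := by rw [Complex.norm_exp]; simp
  have h3 : Real.exp z.im ≤ Real.exp |z.im| := Real.exp_le_exp.2 (le_abs_self _)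
  have h4 : Real.exp (-z.im) ≤ Real.exp |z.im| := Real.exp_le_exp.2 (neg_le_abs _)
  rw [norm_div, norm_mul, Complex.norm_I, mul_one, Complex.norm_ofNat]
  have h5 := norm_sub_le (Complex.exp (-z * I)) (Complex.exp (z * I))
  rw [h1, h2] at h5
  rw [div_le_iff₀ (by norm_num)]
  linarith

lemma norm_sinpi_sq (w : ℂ) : ‖Complex.sin (Real.pi * w) ^ 2‖ ≤ Real.exp (2 * Real.pi * |w.im|) := by
  rw [norm_pow]
  have h := norm_sin_le (Real.pi * w)
  have e : (Real.pi * w : ℂ).im = Real.pi * w.im := by simp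
  rw [e, abs_mul, abs_of_pos Real.pi_pos] at h
  calc ‖Complex.sin (Real.pi * w)‖ ^ 2 ≤ Real.exp (Real.pi * |w.im|) ^ 2 := by gcongr
    _ = Real.exp (2 * Real.pi * |w.im|) := by rw [← Real.exp_nat_mul]; congr 1; push_cast; ring

lemma q_bound : ∃ C : ℝ, 0 < C ∧ ∀ w : ℂ, ‖q w‖ ≤ C * Real.exp (2 * Real.pi * |w.im|) / (1 + ‖w‖ ^ 2) := by
  obtain ⟨C, hC⟩ := (isCompact_closedBall (0:ℂ) 1).exists_bound_of_continuousOn q_diff.continuous.continuousOn
  have hC0 : 0 ≤ C := (norm_nonneg _).trans (hC 0 (by simp))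
  refine ⟨2 * C + 2, by positivity, fun w => ?_⟩
  have h1 : 1 ≤ Real.exp (2 * Real.pi * |w.im|) := Real.one_le_exp (by positivity)
  rcases le_or_gt ‖w‖ 1 with h | h
  · rw [le_div_iff₀ (by positivity)]
    have h2 := hC w (by simpa using h)
    have h3 : ‖w‖ ^ 2 ≤ 1 := by nlinarith [norm_nonneg w]
    calc ‖q w‖ * (1 + ‖w‖ ^ 2) ≤ C * 2 := by
          apply mul_le_mul h2 (by linarith) (by positivity) hC0
      _ ≤ (2 * C + 2) * 1 := by linarith
      _ ≤ _ := mul_le_mul_of_nonneg_left h1 (by positivity)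
  · have hw0 : w ≠ 0 := by rintro rfl; simp at h; linarith
    rw [q_eq hw0, norm_mul, norm_div, norm_div, norm_one, norm_pow w 2, norm_pow (Real.pi : ℂ) 2,
      Complex.norm_real, Real.norm_of_nonneg Real.pi_pos.le]
    have h2 := norm_sinpi_sq w
    have h3 : 1 ≤ Real.pi ^ 2 := by nlinarith [Real.pi_gt_three]
    rw [div_mul_div_comm, mul_one, div_le_div_iff₀ (by positivity) (by positivity)]
    have h4 : 1 + ‖w‖ ^ 2 ≤ 2 * ‖w‖ ^ 2 := by nlinarith
    calc ‖Complex.sin (Real.pi * w) ^ 2‖ * (1 + ‖w‖ ^ 2) ≤ Real.exp (2 * Real.pi * |w.im|) * (2 * ‖w‖ ^ 2) := by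
          gcongr
      _ = 2 * Real.exp (2 * Real.pi * |w.im|) * (1 * ‖w‖ ^ 2) := by ring
      _ ≤ (2 * C + 2) * Real.exp (2 * Real.pi * |w.im|) * (Real.pi ^ 2 * ‖w‖ ^ 2) := by
          gcongr; linarith

/-- uniform bound for translates on balls -/
lemma q_ball (R : ℝ) (hR : 0 < R) : ∃ C : ℝ, 0 < C ∧ ∀ w : ℂ, ‖w‖ ≤ R → ∀ k : ℤ,
    ‖q (w + k)‖ ≤ C * (1 / (1 + (k : ℝ) ^ 2)) := by
  obtain ⟨C, hC, h⟩ := q_bound
  refine ⟨C * Real.exp (2 * Real.pi * R) * (2 * (1 + R ^ 2)), by positivity, fun w hw k => ?_⟩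
  have h1 := h (w + k)
  have e1 : (w + k : ℂ).im = w.im := by simp
  rw [e1] at h1
  have h2 : |w.im| ≤ R := (Complex.abs_im_le_norm w).trans hw
  have h3 : (1 + (k:ℝ) ^ 2) ≤ 2 * (1 + R ^ 2) * (1 + ‖w + k‖ ^ 2) := by
    have h4 : |(k:ℝ)| ≤ ‖w + k‖ + R := by
      have h5 : ‖(k : ℂ)‖ ≤ ‖w + k‖ + ‖w‖ := by
        calc ‖(k : ℂ)‖ = ‖(w + k) - w‖ := by ring_nf
          _ ≤ _ := norm_sub_le _ _
      rw [show ‖(k : ℂ)‖ = |(k : ℝ)| by rw [Complex.norm_intCast]] at h5
      linarith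
    have h6 : (k:ℝ) ^ 2 ≤ (‖w + k‖ + R) ^ 2 := by
      rw [← sq_abs]; gcongr
    nlinarith [sq_nonneg (‖w + k‖ - R), norm_nonneg (w + k : ℂ), mul_nonneg (sq_nonneg R) (sq_nonneg ‖w + (k:ℂ)‖)]
  refine h1.trans ?_
  rw [mul_one_div, div_le_div_iff₀ (by positivity) (by positivity)]
  calc C * Real.exp (2 * Real.pi * |w.im|) * (1 + (k:ℝ) ^ 2)
      ≤ C * Real.exp (2 * Real.pi * R) * (2 * (1 + R ^ 2) * (1 + ‖w + k‖ ^ 2)) := by gcongr
    _ = _ := by ring

lemma sum_int : Summable fun k : ℤ => 1 / (1 + (k : ℝ) ^ 2) := by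
  have h : Summable fun n : ℕ => 1 / (1 + (n : ℝ) ^ 2) := by
    refine Summable.of_nonneg_of_le (fun n => by positivity) (fun n => ?_)
      ((Real.summable_one_div_nat_pow.2 (by norm_num : 1 < 2)).add (summable_of_hasFiniteSupport
        (f := fun n : ℕ => if n = 0 then (1:ℝ) else 0) ((Set.finite_singleton 0).subset fun n hn => by
          by_contra hne
          simp at hne
          simp [hne] at hn)))
    rcases Nat.eq_zero_or_pos n with h | h
    · subst h; simp
    · have h1 : (0:ℝ) < n := by exact_mod_cast h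
      rw [if_neg (by omega), add_zero]
      gcongr
      linarith
  refine Summable.of_nat_of_neg h ?_
  simpa using h

lemma q_summable (u : ℂ) : Summable fun k : ℤ => q (u + k) := by
  obtain ⟨C, hC, h⟩ := q_ball (‖u‖ + 1) (by positivity)
  exact Summable.of_norm_bounded (sum_int.mul_left C) fun k => h u (by linarith) k

lemma sum_diff : Differentiable ℂ fun u : ℂ => ∑' k : ℤ, q (u + k) := by
  intro u
  obtain ⟨C, hC, h⟩ := q_ball (‖u‖ + 1) (by positivity)
  have h1 := differentiableOn_tsum_of_summable_norm (U := Metric.ball (0:ℂ) (‖u‖ + 1))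
    (F := fun (k : ℤ) (u : ℂ) => q (u + k)) (sum_int.mul_left C)
    (fun k => (q_diff.comp (differentiable_id.add_const _)).differentiableOn) Metric.isOpen_ball
    (fun k w hw => h w (by simpa using (mem_ball_zero_iff.1 hw).le) k)
  exact h1.differentiableAt (Metric.isOpen_ball.mem_nhds (by simp))

lemma sin_shift (u : ℂ) (k : ℤ) : Complex.sin (Real.pi * (u + k)) ^ 2 = Complex.sin (Real.pi * u) ^ 2 := by
  have h : (Real.pi * (u + k) : ℂ) = Real.pi * u + k * Real.pi := by ring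
  have h1 := Complex.sin_sq_add_cos_sq ((k : ℂ) * Real.pi)
  rw [Complex.sin_int_mul_pi] at h1
  rw [h, Complex.sin_add, Complex.sin_int_mul_pi, mul_zero, add_zero, mul_pow]
  linear_combination (Complex.sin (Real.pi * u) ^ 2) * h1

/-- partition of unity -/
theorem q_sum (u : ℂ) : ∑' k : ℤ, q (u + k) = 1 := by
  have key : ∀ u : ℂ, 0 < u.im → ∑' k : ℤ, q (u + k) = 1 := by
    intro u hu
    have hu' : u ∈ UpperHalfPlane.upperHalfPlaneSet := hu
    have h := iteratedDerivWithin_cot_pi_mul_eq_mul_tsum_div_pow (k := 1) le_rfl hu'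
    have hs : Complex.sin (Real.pi * u) ≠ 0 :=
      sin_pi_mul_ne_zero (UpperHalfPlane.coe_mem_integerComplement ⟨u, hu⟩)
    rw [iteratedDerivWithin_one, derivWithin_of_isOpen UpperHalfPlane.isOpen_upperHalfPlaneSet hu'] at h
    have hd : HasDerivAt (fun x : ℂ => (Real.pi : ℂ) * Complex.cot (Real.pi * x))
        (-(Real.pi : ℂ) ^ 2 / Complex.sin (Real.pi * u) ^ 2) u := by
      have h1 : HasDerivAt (fun x : ℂ => Complex.cos (Real.pi * x)) (-Complex.sin (Real.pi * u) * (Real.pi * 1)) u :=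
        (Complex.hasDerivAt_cos _).comp u ((hasDerivAt_id u).const_mul (Real.pi : ℂ))
      have h2 : HasDerivAt (fun x : ℂ => Complex.sin (Real.pi * x)) (Complex.cos (Real.pi * u) * (Real.pi * 1)) u :=
        (Complex.hasDerivAt_sin _).comp u ((hasDerivAt_id u).const_mul (Real.pi : ℂ))
      have h3 := (h1.div h2 hs).const_mul (Real.pi : ℂ)
      refine h3.congr_deriv ?_
      have h4 := Complex.sin_sq_add_cos_sq (Real.pi * u)
      field_simp
      linear_combination -h4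
    rw [hd.deriv] at h
    have hpi : (Real.pi : ℂ) ≠ 0 := by exact_mod_cast Real.pi_ne_zero
    have h5 : ∀ k : ℤ, q (u + k) = Complex.sin (Real.pi * u) ^ 2 / Real.pi ^ 2 * (1 / (u + k) ^ 2) := by
      intro k
      have hne : u + k ≠ 0 := by
        intro h0
        have := congrArg Complex.im h0
        simp at this
        linarith
      rw [q_eq hne, sin_shift]
    simp_rw [h5]
    rw [tsum_mul_left]
    simp only [pow_one, Nat.factorial_one, Nat.cast_one, mul_one, neg_mul, one_mul, Nat.reduceAdd] at h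
    have h6 : ∑' n : ℤ, 1 / (u + n) ^ 2 = (Real.pi : ℂ) ^ 2 / Complex.sin (Real.pi * u) ^ 2 := by
      rw [neg_div] at h
      exact (neg_injective h).symm
    rw [h6]
    field_simp
  have han : AnalyticOnNhd ℂ (fun u : ℂ => ∑' k : ℤ, q (u + k)) Set.univ :=
    (sum_diff.differentiableOn).analyticOnNhd isOpen_univ
  have h1 := han.eqOn_of_preconnected_of_eventuallyEq (g := fun _ => (1:ℂ)) analyticOnNhd_const isPreconnected_univ
    (Set.mem_univ I) (by
      have : ∀ᶠ u : ℂ in 𝓝 I, 0 < u.im := (isOpen_lt continuous_const Complex.continuous_im).mem_nhds (by simp)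
      filter_upwards [this] with u hu
      exact key u hu)
  exact h1 (Set.mem_univ u)

end Pool.Agent.V11273.SN
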