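import Pool.Agent.H370R2.DirGood
import Pool.Agent.V11273.DX.Pair

set_option autoImplicit false

/-! The logarithmic derivative of zeta to the right of the critical line, under the Riemann hypothesis. -/

namespace Pool.Agent.V11273.SN

open MeasureTheory Filter Topology Set Complex Metric
open Pool.Agent.H24R2.JP (XX)

/-- `-ζ'/ζ(1/2 + z)` -/
noncomputable def Lf (z : ℂ) : ℂ := -logDeriv riemannZeta (1 / 2 + z)

/-- no zeros to the right of the critical line -/
def RHz : Prop := ∀ s : ℂ, 1 / 2 < s.re → s ≠ 1 → riemannZeta s ≠ 0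

lemma of_RH (h : RiemannHypothesis) : RHz := by
  intro s hs h1 h0
  have := h s h0 (by
    rintro ⟨n, hn⟩
    have h2 := congrArg Complex.re hn
    simp at h2
    have : (0:ℝ) ≤ n := Nat.cast_nonneg n
    linarith) h1
  linarith

lemma ne_one_of_im {s : ℂ} (hs : s.im ≠ 0) : s ≠ 1 := by rintro rfl; simp at hs

lemma zeta_an {s : ℂ} (hs : s ≠ 1) : AnalyticAt ℂ riemannZeta s := by
  have hd : DifferentiableOn ℂ riemannZeta {1}ᶜ := fun z hz =>
    (differentiableAt_riemannZeta hz).differentiableWithinAt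
  exact hd.analyticAt (isOpen_compl_singleton.mem_nhds hs)

lemma half_re (z : ℂ) : (1 / 2 + z : ℂ).re = 1 / 2 + z.re := by simp
lemma half_im (z : ℂ) : (1 / 2 + z : ℂ).im = z.im := by simp

lemma Lf_diff (h : RHz) {z : ℂ} (hz : 0 < z.re) (hi : z.im ≠ 0) : DifferentiableAt ℂ Lf z := by
  have hs1 : (1 / 2 + z : ℂ) ≠ 1 := ne_one_of_im (by rw [half_im]; exact hi)
  have h0 : riemannZeta (1 / 2 + z) ≠ 0 := h _ (by rw [half_re]; linarith) hs1
  have ha := zeta_an hs1
  have h1 : AnalyticAt ℂ (logDeriv riemannZeta) (1 / 2 + z) := by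
    have : logDeriv riemannZeta = fun s => deriv riemannZeta s / riemannZeta s := rfl
    rw [this]
    exact ha.deriv.div ha h0
  unfold Lf
  have h2 : DifferentiableAt ℂ (fun z : ℂ => (1 / 2 + z : ℂ)) z := by fun_prop
  exact (h1.differentiableAt.comp z h2).neg

lemma XX_Lam {z : ℂ} (h1 : (1 / 2 + z : ℂ) ≠ 0) (h2 : (1 / 2 + z : ℂ) ≠ 1) :
    XX z = (4 * z ^ 2 - 1) * completedRiemannZeta (1 / 2 + z) := by
  unfold XX
  rw [completedRiemannZeta_eq]
  have h3 : (1 - (1 / 2 + z) : ℂ) ≠ 0 := sub_ne_zero.2 (Ne.symm h2)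
  have e : (4 * z ^ 2 - 1 : ℂ) = -4 * ((1 / 2 + z) * (1 - (1 / 2 + z))) := by ring
  rw [e]
  generalize (1 / 2 + z : ℂ) = s at h1 h2 h3 ⊢
  field_simp
  ring

lemma XX_zero_re (h : RHz) {b : ℂ} (hb : XX b = 0) : b.re = 0 := by
  have key : ∀ b : ℂ, XX b = 0 → ¬ 0 < b.re := by
    intro b hb hpos
    have h1 : (1 / 2 + b : ℂ) ≠ 0 := by
      intro h0
      have := congrArg Complex.re h0
      rw [half_re] at this
      simp at this; linarith
    by_cases h2 : (1 / 2 + b : ℂ) = 1
    · have : b = 1 / 2 := by linear_combination h2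
      rw [this] at hb
      unfold XX at hb
      norm_num at hb
    · rw [XX_Lam h1 h2] at hb
      have h3 : (4 * b ^ 2 - 1 : ℂ) ≠ 0 := by
        intro h0
        have : (1 / 2 + b) * (b - 1 / 2) = 0 := by linear_combination h0 / 4
        rcases mul_eq_zero.1 this with h4 | h4
        · exact h1 h4
        · exact h2 (by linear_combination h4)
      have h4 := (mul_eq_zero.1 hb).resolve_left h3
      have h5 := riemannZeta_def_of_ne_zero h1
      rw [h4, zero_div] at h5
      exact h _ (by rw [half_re]; linarith) h2 h5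
  have heven : XX (-b) = XX b := by
    unfold XX
    rw [show (1 / 2 + -b : ℂ) = 1 - (1 / 2 + b) by ring, completedRiemannZeta₀_one_sub]
    ring
  have k1 := key b hb
  have k2 := key (-b) (by rw [heven]; exact hb)
  simp at k2
  linarith

lemma XX_diff : Differentiable ℂ XX := by
  unfold XX
  have h := differentiable_completedZeta₀
  fun_prop

lemma re_logDeriv_XX (h : RHz) {z : ℂ} (hz : 0 < z.re) (h0 : XX z ≠ 0) : 0 ≤ (logDeriv XX z).re := by
  set t := z.im with ht
  set g : ℝ → ℝ := fun x => ‖XX (x + t * I)‖ ^ 2 with hg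
  have hmono : MonotoneOn g (Set.Ici 0) := by
    intro x hx y hy hxy
    have hx0 : 0 ≤ x := hx
    have h1 := Pool.Agent.V11273.DX.XX_le (t := t) (h1 := x) (h2 := y) (by nlinarith) fun b hb => by
      rw [XX_zero_re h hb]
      nlinarith [sq_nonneg (t - b.im), sq_nonneg x, sq_nonneg y]
    rw [hg]
    simp only
    gcongr
  have hzz : ((z.re : ℂ) + t * I) = z := by rw [ht]; exact Complex.re_add_im z
  have hd1 : HasDerivAt (fun x : ℝ => XX (x + t * I)) (deriv XX z) z.re := by
    have h1 : HasDerivAt XX (deriv XX z) ((z.re : ℂ) + t * I) := by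
      rw [hzz]; exact (XX_diff z).hasDerivAt
    have h2 : HasDerivAt (fun w : ℂ => XX (w + t * I)) (deriv XX z) (z.re : ℂ) := by
      have := h1.comp_add_const (z.re : ℂ) (t * I)
      exact this
    exact h2.comp_ofReal
  have hd2 := hd1.norm_sq
  have hd3 : derivWithin g (Set.Ici 0) z.re = 2 * inner ℝ (XX (z.re + t * I)) (deriv XX z) :=
    hd2.hasDerivWithinAt.derivWithin (uniqueDiffOn_Ici 0 z.re (Set.mem_Ici.2 hz.le))
  have h3 := hmono.derivWithin_nonneg (x := z.re)
  rw [hd3, hzz] at h3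
  have h4 : (logDeriv XX z).re = inner ℝ (XX z) (deriv XX z) / ‖XX z‖ ^ 2 := by
    rw [logDeriv_apply, Complex.inner, ← Complex.normSq_eq_norm_sq, div_eq_mul_inv, Complex.inv_def]
    have : deriv XX z * ((starRingEnd ℂ) (XX z) * (((Complex.normSq (XX z))⁻¹ : ℝ) : ℂ)) =
        (((Complex.normSq (XX z))⁻¹ : ℝ) : ℂ) * (deriv XX z * (starRingEnd ℂ) (XX z)) := by ring
    rw [this, Complex.re_ofReal_mul]
    rw [div_eq_inv_mul]
  rw [h4]
  exact div_nonneg (by linarith) (by positivity)

/-- the upper bound for the real part -/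
theorem Lf_re (h : RHz) : ∃ C : ℝ, 0 < C ∧ ∀ z : ℂ, 0 < z.re → z.re ≤ 3 → 1 ≤ z.im →
    (Lf z).re ≤ 1 / 2 * Real.log z.im + C := by
  obtain ⟨C, hC0, hC⟩ := H370.DL.logDeriv_Gammaℝ_bound
  refine ⟨C + 3, by positivity, fun z hz1 hz2 hz3 => ?_⟩
  have him : z.im ≠ 0 := by linarith
  have hs0 : (1 / 2 + z : ℂ) ≠ 0 := by
    intro h0
    have := congrArg Complex.im h0
    rw [half_im] at this
    simp at this; linarith
  have hs1 : (1 / 2 + z : ℂ) ≠ 1 := ne_one_of_im (by rw [half_im]; exact him)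
  have hzeta : riemannZeta (1 / 2 + z) ≠ 0 := h _ (by rw [half_re]; linarith) hs1
  have hX0 : XX z ≠ 0 := fun h0 => by
    have := XX_zero_re h h0
    linarith
  have hpos := re_logDeriv_XX h hz1 hX0
  have hev : XX =ᶠ[𝓝 z] fun w => (4 * w ^ 2 - 1) * (Gammaℝ (1 / 2 + w) * riemannZeta (1 / 2 + w)) := by
    have : ∀ᶠ w : ℂ in 𝓝 z, w.im ≠ 0 := (isOpen_ne_fun Complex.continuous_im continuous_const).mem_nhds him
    filter_upwards [this] with w hw
    have h1 : (1 / 2 + w : ℂ) ≠ 0 := by
      intro h0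
      have := congrArg Complex.im h0
      rw [half_im] at this
      simp at this; exact hw this
    have h2 : (1 / 2 + w : ℂ) ≠ 1 := ne_one_of_im (by rw [half_im]; exact hw)
    rw [XX_Lam h1 h2, riemannZeta_def_of_ne_zero h1]
    have hG : Gammaℝ (1 / 2 + w) ≠ 0 := by
      intro h0
      rw [Complex.Gammaℝ_eq_zero_iff] at h0
      obtain ⟨n, hn⟩ := h0
      have := congrArg Complex.im hn
      rw [half_im] at this
      simp at this
      exact hw this
    rw [mul_div_assoc', mul_div_cancel_left₀ _ hG]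
  have hq : (4 * z ^ 2 - 1 : ℂ) ≠ 0 := by
    intro h0
    have h1 : (1 / 2 + z) * (z - 1 / 2) = 0 := by linear_combination h0 / 4
    rcases mul_eq_zero.1 h1 with h4 | h4
    · exact hs0 h4
    · exact hs1 (by linear_combination h4)
  have hG0 : Gammaℝ (1 / 2 + z) ≠ 0 := by
    intro h0
    rw [Complex.Gammaℝ_eq_zero_iff] at h0
    obtain ⟨n, hn⟩ := h0
    have := congrArg Complex.im hn
    rw [half_im] at this
    simp at this
    exact him this
  have hGd : DifferentiableAt ℂ (fun w : ℂ => Gammaℝ (1 / 2 + w)) z := by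
    have h1 : DifferentiableAt ℂ Gammaℝ (1 / 2 + z) := by
      rw [show Gammaℝ = fun s : ℂ => (Real.pi : ℂ) ^ (-s / 2) * Gamma (s / 2) from funext fun s => Gammaℝ_def s]
      have hg : DifferentiableAt ℂ (fun s : ℂ => Gamma (s / 2)) (1 / 2 + z) := by
        have : DifferentiableAt ℂ Gamma ((1 / 2 + z) / 2) := by
          refine Complex.differentiableAt_Gamma _ fun m hm => ?_
          have := congrArg Complex.im hm
          simp at this
          exact him this
        exact this.comp (1 / 2 + z) (by fun_prop)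
      have hp : DifferentiableAt ℂ (fun s : ℂ => (Real.pi : ℂ) ^ (-s / 2)) (1 / 2 + z) := by
        refine DifferentiableAt.const_cpow (by fun_prop) (Or.inl ?_)
        exact_mod_cast Real.pi_ne_zero
      exact hp.mul hg
    exact h1.comp z (by fun_prop)
  have hZd : DifferentiableAt ℂ (fun w : ℂ => riemannZeta (1 / 2 + w)) z :=
    (differentiableAt_riemannZeta hs1).comp z (by fun_prop)
  have e1 : logDeriv XX z = 8 * z / (4 * z ^ 2 - 1) + (logDeriv Gammaℝ (1 / 2 + z) + logDeriv riemannZeta (1 / 2 + z)) := by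
    rw [logDeriv_apply, hev.deriv_eq, hev.self_of_nhds, ← logDeriv_apply]
    rw [logDeriv_mul (f := fun w : ℂ => 4 * w ^ 2 - 1) (g := fun w : ℂ => Gammaℝ (1 / 2 + w) * riemannZeta (1 / 2 + w))
      z hq (mul_ne_zero hG0 hzeta) (by fun_prop) (hGd.mul hZd)]
    rw [logDeriv_mul (f := fun w : ℂ => Gammaℝ (1 / 2 + w)) (g := fun w : ℂ => riemannZeta (1 / 2 + w))
      z hG0 hzeta hGd hZd]
    congr 1
    · rw [logDeriv_apply]
      congr 1
      have : HasDerivAt (fun w : ℂ => 4 * w ^ 2 - 1) (4 * ((2 : ℕ) * z ^ (2 - 1))) z :=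
        ((hasDerivAt_pow 2 z).const_mul 4).sub_const 1
      rw [this.deriv]
      push_cast; ring
    · congr 1
      · rw [logDeriv_apply, logDeriv_apply, deriv_comp_const_add]
      · rw [logDeriv_apply, logDeriv_apply, deriv_comp_const_add]
  rw [e1] at hpos
  simp only [add_re] at hpos
  have b1 : (8 * z / (4 * z ^ 2 - 1)).re ≤ 3 := by
    refine (Complex.re_le_norm _).trans ?_
    have hzn : 1 ≤ ‖z‖ := hz3.trans ((le_abs_self _).trans (Complex.abs_im_le_norm z))
    have h2 : 3 * ‖z‖ ^ 2 ≤ ‖4 * z ^ 2 - 1‖ := by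
      have := norm_sub_norm_le (4 * z ^ 2) (1 : ℂ)
      rw [norm_mul, norm_pow, norm_one, Complex.norm_ofNat] at this
      nlinarith
    rw [norm_div, norm_mul, Complex.norm_ofNat, div_le_iff₀ (by nlinarith)]
    nlinarith
  have b2 := hC (1 / 2 + z) (by rw [half_re]; linarith) (by rw [half_re]; linarith)
    (by rw [half_im, abs_of_pos (by linarith)]; exact hz3)
  rw [half_im, abs_of_pos (by linarith : 0 < z.im)] at b2
  have b3 := (Complex.re_le_norm _).trans b2
  have e2 : (logDeriv Gammaℝ (1 / 2 + z) - 1 / 2 * (Real.log z.im : ℂ)).re =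
      (logDeriv Gammaℝ (1 / 2 + z)).re - 1 / 2 * Real.log z.im := by
    have : (1 / 2 * (Real.log z.im : ℂ)) = ((1 / 2 * Real.log z.im : ℝ) : ℂ) := by push_cast; ring
    rw [this, sub_re, ofReal_re]
  rw [e2] at b3
  unfold Lf
  rw [neg_re]
  linarith

end Pool.Agent.V11273.SN
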