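import Pool.Agent.V11273.SN.ZL

set_option autoImplicit false

namespace Pool.Agent.V11273.SN

open MeasureTheory Filter Topology Set Complex Metric

open scoped ArithmeticFunction

lemma Lf_series {z : ℂ} (hz : 1 / 2 < z.re) : Lf z = LSeries (fun n => (ArithmeticFunction.vonMangoldt n : ℂ)) (1 / 2 + z) := by
  have h := ArithmeticFunction.LSeries_vonMangoldt_eq_deriv_riemannZeta_div (s := 1 / 2 + z) (by rw [half_re]; linarith)
  unfold Lf
  rw [logDeriv_apply, h]
  ring

lemma two_rpow_le {k : ℕ} {x y : ℝ} (h : x ≤ y) : ((k : ℝ) + 2) ^ (-y) ≤ 2 ^ (x - y) * ((k : ℝ) + 2) ^ (-x) := by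
  have hk : (0:ℝ) ≤ k := Nat.cast_nonneg k
  have h1 : ((k : ℝ) + 2) ^ (x - y) ≤ 2 ^ (x - y) :=
    Real.rpow_le_rpow_of_nonpos (by norm_num) (by linarith) (by linarith)
  calc ((k : ℝ) + 2) ^ (-y) = ((k : ℝ) + 2) ^ (x - y) * ((k : ℝ) + 2) ^ (-x) := by
        rw [← Real.rpow_add (by positivity)]; congr 1; ring
    _ ≤ _ := by gcongr

/-- bound for series without constant term -/
lemma LSeries_right (a : ℕ → ℂ) (h1 : a 1 = 0) {x0 : ℝ} (hs : LSeriesSummable a (x0 : ℂ)) :
    ∃ C : ℝ, 0 < C ∧ ∀ s : ℂ, x0 ≤ s.re → ‖LSeries a s‖ ≤ C * 2 ^ (-s.re) := by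
  have hsn : Summable fun n : ℕ => ‖LSeries.term a (x0 : ℂ) n‖ := hs.norm
  refine ⟨2 ^ x0 * (∑' n : ℕ, ‖LSeries.term a (x0 : ℂ) n‖) + 1, ?_, fun s hsr => ?_⟩
  · have : 0 ≤ ∑' n : ℕ, ‖LSeries.term a (x0 : ℂ) n‖ := tsum_nonneg fun n => norm_nonneg _
    positivity
  · have hterm : ∀ n : ℕ, ‖LSeries.term a s n‖ ≤ 2 ^ (x0 - s.re) * ‖LSeries.term a (x0 : ℂ) n‖ := by
      intro n
      rcases Nat.lt_or_ge n 2 with hn | hn
      · interval_cases n
        · simp
        · simp [LSeries.term_def, h1]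
      · obtain ⟨k, rfl⟩ : ∃ k, n = k + 2 := ⟨n - 2, by omega⟩
        rw [LSeries.norm_term_eq, LSeries.norm_term_eq, if_neg (by omega), if_neg (by omega), ofReal_re]
        have h2 := two_rpow_le (k := k) hsr
        rw [Real.rpow_neg (by positivity), Real.rpow_neg (by positivity)] at h2
        push_cast
        rw [div_eq_mul_inv, div_eq_mul_inv]
        calc ‖a (k + 2)‖ * (((k:ℝ) + 2) ^ s.re)⁻¹ ≤ ‖a (k + 2)‖ * (2 ^ (x0 - s.re) * (((k:ℝ) + 2) ^ x0)⁻¹) := by
              gcongr
          _ = _ := by ring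
    have h3 : ‖LSeries a s‖ ≤ ∑' n : ℕ, 2 ^ (x0 - s.re) * ‖LSeries.term a (x0 : ℂ) n‖ :=
      tsum_of_norm_bounded (hsn.mul_left _).hasSum hterm
    rw [tsum_mul_left] at h3
    refine h3.trans ?_
    rw [Real.rpow_sub (by norm_num), Real.rpow_neg (by norm_num), div_mul_eq_mul_div, div_eq_mul_inv]
    have : 0 ≤ (2:ℝ) ^ s.re := by positivity
    gcongr
    linarith

/-- the region -/
def Om : Set ℂ := {z | 0 < z.re ∧ 2 < z.im}

lemma Om_open : IsOpen Om :=
  (isOpen_lt continuous_const Complex.continuous_re).inter (isOpen_lt continuous_const Complex.continuous_im)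

/-- the class of functions -/
structure Cls (f : ℂ → ℂ) (φ : ℝ → ℝ) (C : ℝ) : Prop where
  diff : ∀ z ∈ Om, DifferentiableAt ℂ f z
  bd : ∀ z ∈ Om, ‖f z‖ ≤ C * Real.log z.im * φ z.re * 2 ^ (-z.re)
  anti : ∀ x y : ℝ, 0 < x → x ≤ y → φ y ≤ φ x
  nonneg : ∀ x : ℝ, 0 < x → 0 ≤ φ x
  pos : 0 < C

lemma log_two_le {v : ℝ} (hv : 2 < v) : Real.log 2 ≤ Real.log v := Real.log_le_log (by norm_num) hv.le

theorem Lf_cls (h : RHz) : ∃ C : ℝ, Cls Lf (fun x => 1 + 1 / x) C := by
  obtain ⟨C1, hC1, h1⟩ := Lf_re h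
  obtain ⟨C2, hC2, h2⟩ := LSeries_right (fun n => (ArithmeticFunction.vonMangoldt n : ℂ)) (by simp) (x0 := 3 / 2)
    (by
      have := ArithmeticFunction.LSeriesSummable_vonMangoldt (s := ((3 / 2 : ℝ) : ℂ)) (by rw [ofReal_re]; norm_num)
      exact this)
  have hl2 : 0 < Real.log 2 := Real.log_pos (by norm_num)
  -- right part
  have hR : ∀ z : ℂ, 1 ≤ z.re → ‖Lf z‖ ≤ C2 * 2 ^ (-z.re) := by
    intro z hz
    rw [Lf_series (by linarith)]
    refine (h2 (1 / 2 + z) (by rw [half_re]; linarith)).trans ?_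
    rw [half_re]
    gcongr
    · norm_num
    · linarith
  have hMd : ∀ z ∈ Om, DifferentiableAt ℂ Lf z := fun z hz => Lf_diff h hz.1 (by linarith [hz.2])
  refine ⟨C2 / Real.log 2 + 2 * (8 + 4 * C1 / Real.log 2 + 4 * C2 / Real.log 2), hMd, fun z hz => ?_, ?_, ?_, by positivity⟩
  · obtain ⟨hz1, hz2⟩ := hz
    have hlv := log_two_le hz2
    have hlv0 : 0 < Real.log z.im := by linarith
    rcases le_or_gt 1 z.re with hge | hlt
    · refine (hR z hge).trans ?_
      have e1 : C2 * 1 ≤ (C2 / Real.log 2 + 2 * (8 + 4 * C1 / Real.log 2 + 4 * C2 / Real.log 2)) * Real.log z.im *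
          (1 + 1 / z.re) := by
        have e2 : C2 * 1 ≤ C2 / Real.log 2 * Real.log z.im := by
          rw [div_mul_eq_mul_div, le_div_iff₀ hl2]
          nlinarith
        have e3 : 0 < 1 / z.re := by positivity
        have e4 : C2 / Real.log 2 * Real.log z.im ≤
            (C2 / Real.log 2 + 2 * (8 + 4 * C1 / Real.log 2 + 4 * C2 / Real.log 2)) * Real.log z.im := by
          gcongr
          have : 0 < 2 * (8 + 4 * C1 / Real.log 2 + 4 * C2 / Real.log 2) := by positivity
          linarith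
        have e5 : 0 < (C2 / Real.log 2 + 2 * (8 + 4 * C1 / Real.log 2 + 4 * C2 / Real.log 2)) * Real.log z.im := by
          positivity
        nlinarith
      have e6 : (0:ℝ) ≤ 2 ^ (-z.re) := by positivity
      nlinarith
    · -- Borel-Caratheodory
      set x := z.re with hx
      set v := z.im with hv
      set c : ℂ := 1 + v * I with hc
      have hcre : c.re = 1 := by rw [hc]; simp
      have hcim : c.im = v := by rw [hc]; simp
      set R : ℝ := 1 - x / 2 with hR'
      have hR0 : 0 < R := by rw [hR']; linarith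
      have hlv1 : Real.log (v + 1) ≤ 2 * Real.log v := by
        have : Real.log (v + 1) ≤ Real.log (v ^ 2) := Real.log_le_log (by linarith) (by nlinarith)
        rwa [Real.log_pow] at this
      set M : ℝ := Real.log v + C1 with hM
      have hM0 : 0 < M := by positivity
      have hin : ∀ w ∈ ball (0:ℂ) R, 0 < (c + w).re ∧ (c + w).re ≤ 3 ∧ 1 ≤ (c + w).im ∧ (c + w).im ≤ v + 1 := by
        intro w hw
        have hwn : ‖w‖ < R := mem_ball_zero_iff.1 hw
        have a1 := (abs_le.1 ((Complex.abs_re_le_norm w)))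
        have a2 := (abs_le.1 ((Complex.abs_im_le_norm w)))
        rw [add_re, add_im, hcre, hcim]
        refine ⟨?_, ?_, ?_, ?_⟩ <;> [skip; skip; skip; skip] <;> linarith [a1.1, a1.2, a2.1, a2.2]
      have hf : DifferentiableOn ℂ (fun w => Lf (c + w)) (ball 0 R) := by
        intro w hw
        obtain ⟨b1, b2, b3, b4⟩ := hin w hw
        have hd := Lf_diff h b1 (by linarith)
        exact (hd.comp w (by fun_prop : DifferentiableAt ℂ (fun w : ℂ => c + w) w)).differentiableWithinAt
      have hm : Set.MapsTo (fun w => Lf (c + w)) (ball 0 R) {z | z.re ≤ M} := by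
        intro w hw
        obtain ⟨b1, b2, b3, b4⟩ := hin w hw
        have := h1 (c + w) b1 b2 b3
        have hlog : Real.log (c + w).im ≤ Real.log (v + 1) := Real.log_le_log (by linarith) b4
        show (Lf (c + w)).re ≤ M
        rw [hM]
        linarith
      have hzz : z = c + ((x - 1 : ℝ) : ℂ) := by
        rw [hc]
        apply Complex.ext
        · simp [hx]
        · simp [hv]
      have hwn : ‖(((x - 1 : ℝ)) : ℂ)‖ = 1 - x := by
        rw [Complex.norm_real, Real.norm_eq_abs, abs_of_nonpos (by linarith)]; ring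
      have hBC := Complex.borelCaratheodory hM0 hf hm hR0 (z := (((x - 1 : ℝ)) : ℂ)) (by
        rw [mem_ball_zero_iff, hwn]; linarith)
      rw [hwn, ← hzz, add_zero] at hBC
      have hc2 : ‖Lf c‖ ≤ C2 := by
        refine (hR c (by rw [hcre])).trans ?_
        rw [hcre]
        have : (2:ℝ) ^ (-1:ℝ) ≤ 1 := by
          rw [Real.rpow_neg_one]; norm_num
        nlinarith
      have e1 : R - (1 - x) = x / 2 := by rw [hR']; ring
      rw [e1] at hBC
      have e2 : 2 * M * (1 - x) / (x / 2) ≤ 4 * M / x := by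
        rw [div_le_div_iff₀ (by positivity) (by positivity)]
        nlinarith [mul_pos hM0 hz1]
      have e3 : ‖Lf c‖ * (R + (1 - x)) / (x / 2) ≤ 4 * C2 / x := by
        rw [div_le_div_iff₀ (by positivity) (by positivity)]
        have : ‖Lf c‖ * (R + (1 - x)) ≤ C2 * 2 := by
          apply mul_le_mul hc2 (by linarith) (by linarith) hC2.le
        nlinarith
      have e4 : ‖Lf z‖ ≤ (4 * M + 4 * C2) / x := by
        rw [add_div]; linarith
      have e5 : (4 * M + 4 * C2) ≤ (8 + 4 * C1 / Real.log 2 + 4 * C2 / Real.log 2) * Real.log v := by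
        rw [hM]
        have f1 : C1 ≤ C1 / Real.log 2 * Real.log v := by
          rw [div_mul_eq_mul_div, le_div_iff₀ hl2]; nlinarith
        have f2 : C2 ≤ C2 / Real.log 2 * Real.log v := by
          rw [div_mul_eq_mul_div, le_div_iff₀ hl2]; nlinarith
        have f3 : (8 + 4 * C1 / Real.log 2 + 4 * C2 / Real.log 2) * Real.log v =
          8 * Real.log v + 4 * (C1 / Real.log 2 * Real.log v) + 4 * (C2 / Real.log 2 * Real.log v) := by ring
        rw [f3]
        linarith
      have e6 : (1:ℝ) ≤ 2 * 2 ^ (-x) := by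
        have : (2:ℝ) ^ (-1:ℝ) ≤ 2 ^ (-x) := Real.rpow_le_rpow_of_exponent_le (by norm_num) (by linarith)
        rw [Real.rpow_neg_one] at this
        linarith
      calc ‖Lf z‖ ≤ (4 * M + 4 * C2) / x := e4
        _ ≤ ((8 + 4 * C1 / Real.log 2 + 4 * C2 / Real.log 2) * Real.log v) / x := by gcongr
        _ = (8 + 4 * C1 / Real.log 2 + 4 * C2 / Real.log 2) * Real.log v * (1 / x) * 1 := by ring
        _ ≤ (8 + 4 * C1 / Real.log 2 + 4 * C2 / Real.log 2) * Real.log v * (1 + 1 / x) * (2 * 2 ^ (-x)) := by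
            gcongr
            linarith
        _ = (2 * (8 + 4 * C1 / Real.log 2 + 4 * C2 / Real.log 2)) * Real.log v * (1 + 1 / x) * 2 ^ (-x) := by ring
        _ ≤ _ := by
            gcongr
            have : 0 < C2 / Real.log 2 := by positivity
            linarith
  · intro x y hx hxy
    have : 1 / y ≤ 1 / x := one_div_le_one_div_of_le hx hxy
    show 1 + 1 / y ≤ 1 + 1 / x
    linarith
  · intro x hx
    show 0 ≤ 1 + 1 / x
    positivity

end Pool.Agent.V11273.SN
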